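import Mathlib

/-!
# Weighted `ℓ¹` norms of multivariate power series over `ℂ`

`wn r F = ∑ |F_ν| r^ν` (with values in `ℝ≥0∞`), its basic properties, the values `ev z F` of a
power series at a point, and the iteration lemma which inverts `1 - T` for a contraction `T`.
-/

set_option autoImplicit false

open MvPowerSeries Filter Topology
open scoped ENNReal NNReal

namespace Pool.Agent.Lib.MP_af4f85_ag.An

section Mon

variable {σ : Type*} [Fintype σ] {M : Type*} [CommMonoid M]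

/-- The monomial `∏ i, r i ^ ν i`. -/
def mon (r : σ → M) (ν : σ →₀ ℕ) : M := ∏ i, r i ^ ν i

omit [Fintype σ] in
theorem mon_eq_prod [Fintype σ] (r : σ → M) (ν : σ →₀ ℕ) :
    mon r ν = ν.prod fun i e => r i ^ e := by
  rw [mon, Finsupp.prod_fintype _ _ (by simp)]

@[simp] theorem mon_zero (r : σ → M) : mon r 0 = 1 := by simp [mon]

theorem mon_add (r : σ → M) (μ ν : σ →₀ ℕ) : mon r (μ + ν) = mon r μ * mon r ν := by
  simp [mon, pow_add, Finset.prod_mul_distrib]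

@[simp] theorem mon_single (r : σ → M) (i : σ) (n : ℕ) :
    mon r (Finsupp.single i n) = r i ^ n := by
  classical
  rw [mon, Finset.prod_eq_single i]
  · simp
  · intro j _ hj
    simp [Finsupp.single_eq_of_ne hj]
  · simp

theorem mon_const (c : M) (ν : σ →₀ ℕ) : mon (fun _ => c) ν = c ^ ν.degree := by
  rw [mon, Finset.prod_pow_eq_pow_sum, Finsupp.degree_eq_sum]

theorem mon_mul (r s : σ → M) (ν : σ →₀ ℕ) : mon (fun i => r i * s i) ν = mon r ν * mon s ν := by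
  simp [mon, mul_pow, Finset.prod_mul_distrib]

theorem map_mon {N : Type*} [CommMonoid N] (f : M →* N) (r : σ → M) (ν : σ →₀ ℕ) :
    f (mon r ν) = mon (fun i => f (r i)) ν := by
  simp [mon, map_prod]

end Mon

section Norm

variable {σ : Type*} [Fintype σ]

theorem mon_pos {r : σ → ℝ≥0} (hr : ∀ i, 0 < r i) (ν : σ →₀ ℕ) : 0 < mon r ν :=
  Finset.prod_pos fun i _ => pow_pos (hr i) _

theorem mon_le_mon {r s : σ → ℝ≥0} (h : ∀ i, r i ≤ s i) (ν : σ →₀ ℕ) : mon r ν ≤ mon s ν :=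
  Finset.prod_le_prod' fun i _ => pow_le_pow_left' (h i) _

theorem nnnorm_mon (z : σ → ℂ) (ν : σ →₀ ℕ) : ‖mon z ν‖₊ = mon (fun i => ‖z i‖₊) ν := by
  simp [mon, nnnorm_prod]

/-- The weighted norm `∑ |F_ν| r^ν`. -/
noncomputable def wn (r : σ → ℝ≥0) (F : MvPowerSeries σ ℂ) : ℝ≥0∞ :=
  ∑' ν : σ →₀ ℕ, ((‖coeff ν F‖₊ * mon r ν : ℝ≥0) : ℝ≥0∞)

@[simp] theorem wn_zero (r : σ → ℝ≥0) : wn r (0 : MvPowerSeries σ ℂ) = 0 := by
  simp [wn]

theorem coeff_le_wn (r : σ → ℝ≥0) (F : MvPowerSeries σ ℂ) (ν : σ →₀ ℕ) :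
    ((‖coeff ν F‖₊ * mon r ν : ℝ≥0) : ℝ≥0∞) ≤ wn r F :=
  ENNReal.le_tsum ν

theorem wn_mono {r s : σ → ℝ≥0} (h : ∀ i, r i ≤ s i) (F : MvPowerSeries σ ℂ) :
    wn r F ≤ wn s F :=
  ENNReal.tsum_le_tsum fun ν => by
    exact_mod_cast mul_le_mul_right (mon_le_mon h ν) _

theorem wn_mono_coeff {r : σ → ℝ≥0} {F G : MvPowerSeries σ ℂ}
    (h : ∀ ν, ‖coeff ν F‖₊ ≤ ‖coeff ν G‖₊) : wn r F ≤ wn r G :=
  ENNReal.tsum_le_tsum fun ν => by
    exact_mod_cast mul_le_mul_left (h ν) _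

theorem wn_add_le (r : σ → ℝ≥0) (F G : MvPowerSeries σ ℂ) : wn r (F + G) ≤ wn r F + wn r G := by
  rw [wn, wn, wn, ← ENNReal.tsum_add]
  refine ENNReal.tsum_le_tsum fun ν => ?_
  rw [← ENNReal.coe_add, ← add_mul, ENNReal.coe_le_coe]
  gcongr
  simpa using nnnorm_add_le (coeff ν F) (coeff ν G)

@[simp] theorem wn_neg (r : σ → ℝ≥0) (F : MvPowerSeries σ ℂ) : wn r (-F) = wn r F := by
  simp [wn]

theorem wn_sub_le (r : σ → ℝ≥0) (F G : MvPowerSeries σ ℂ) : wn r (F - G) ≤ wn r F + wn r G := by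
  rw [sub_eq_add_neg]
  exact (wn_add_le r F (-G)).trans (by simp)

theorem wn_sum_le {ι : Type*} (r : σ → ℝ≥0) (s : Finset ι) (F : ι → MvPowerSeries σ ℂ) :
    wn r (∑ i ∈ s, F i) ≤ ∑ i ∈ s, wn r (F i) := by
  classical
  induction s using Finset.induction_on with
  | empty => simp
  | insert a s ha ih =>
    rw [Finset.sum_insert ha, Finset.sum_insert ha]
    exact (wn_add_le _ _ _).trans (by gcongr)

@[simp] theorem wn_smul (r : σ → ℝ≥0) (c : ℂ) (F : MvPowerSeries σ ℂ) :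
    wn r (c • F) = ‖c‖₊ * wn r F := by
  rw [wn, wn, ← ENNReal.tsum_mul_left]
  refine tsum_congr fun ν => ?_
  rw [← ENNReal.coe_mul]
  congr 1
  simp [mul_assoc]

@[simp] theorem wn_monomial (r : σ → ℝ≥0) (ν : σ →₀ ℕ) (c : ℂ) :
    wn r (monomial ν c) = (‖c‖₊ * mon r ν : ℝ≥0) := by
  classical
  rw [wn, tsum_eq_single ν]
  · simp [coeff_monomial_same]
  · intro μ hμ
    rw [coeff_monomial_ne hμ]
    simp

@[simp] theorem wn_C (r : σ → ℝ≥0) (c : ℂ) : wn r (C c : MvPowerSeries σ ℂ) = ‖c‖₊ := by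
  rw [← monomial_zero_eq_C_apply, wn_monomial]
  simp

@[simp] theorem wn_one (r : σ → ℝ≥0) : wn r (1 : MvPowerSeries σ ℂ) = 1 := by
  have := wn_C r (1 : ℂ)
  simpa using this

@[simp] theorem wn_X (r : σ → ℝ≥0) (i : σ) : wn r (X i : MvPowerSeries σ ℂ) = r i := by
  rw [X, wn_monomial]
  simp

theorem wn_mul_le (r : σ → ℝ≥0) (F G : MvPowerSeries σ ℂ) :
    wn r (F * G) ≤ wn r F * wn r G := by
  classical
  have h1 : wn r F * wn r G = ∑' p : (σ →₀ ℕ) × (σ →₀ ℕ),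
      (((‖coeff p.1 F‖₊ * mon r p.1 : ℝ≥0) : ℝ≥0∞) *
        ((‖coeff p.2 G‖₊ * mon r p.2 : ℝ≥0) : ℝ≥0∞)) := by
    rw [ENNReal.tsum_prod (f := fun μ ν => ((‖coeff μ F‖₊ * mon r μ : ℝ≥0) : ℝ≥0∞) *
        ((‖coeff ν G‖₊ * mon r ν : ℝ≥0) : ℝ≥0∞)), wn, ← ENNReal.tsum_mul_right]
    refine tsum_congr fun μ => ?_
    rw [wn, ← ENNReal.tsum_mul_left]
  rw [h1, ← (Finset.HasAntidiagonal.sigmaAntidiagonalEquivProd (A := σ →₀ ℕ)).tsum_eq,
    ENNReal.tsum_sigma', wn]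
  refine ENNReal.tsum_le_tsum fun ν => ?_
  rw [tsum_fintype, coeff_mul]
  have h2 : ((‖∑ p ∈ Finset.HasAntidiagonal.antidiagonal ν, coeff p.1 F * coeff p.2 G‖₊ * mon r ν : ℝ≥0) : ℝ≥0∞)
      ≤ ((∑ p ∈ Finset.HasAntidiagonal.antidiagonal ν,
        (‖coeff p.1 F‖₊ * mon r p.1) * (‖coeff p.2 G‖₊ * mon r p.2) : ℝ≥0) : ℝ≥0∞) := by
    rw [ENNReal.coe_le_coe]
    calc ‖∑ p ∈ Finset.HasAntidiagonal.antidiagonal ν, coeff p.1 F * coeff p.2 G‖₊ * mon r ν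
        ≤ (∑ p ∈ Finset.HasAntidiagonal.antidiagonal ν, ‖coeff p.1 F‖₊ * ‖coeff p.2 G‖₊) * mon r ν := by
          gcongr
          refine (nnnorm_sum_le _ _).trans (le_of_eq ?_)
          exact Finset.sum_congr rfl fun p _ => nnnorm_mul _ _
      _ = _ := by
          rw [Finset.sum_mul]
          refine Finset.sum_congr rfl fun p hp => ?_
          rw [← Finset.HasAntidiagonal.mem_antidiagonal.mp hp, mon_add]
          ring
  refine h2.trans (le_of_eq ?_)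
  rw [ENNReal.ofNNReal_finsetSum, ← Finset.sum_coe_sort]
  refine Finset.sum_congr rfl fun p _ => ?_
  simp [Finset.HasAntidiagonal.sigmaAntidiagonalEquivProd]

theorem wn_pow_le (r : σ → ℝ≥0) (F : MvPowerSeries σ ℂ) (n : ℕ) :
    wn r (F ^ n) ≤ wn r F ^ n := by
  induction n with
  | zero => simp
  | succ n ih =>
    rw [pow_succ, pow_succ]
    exact (wn_mul_le _ _ _).trans (by gcongr)

theorem wn_prod_le {ι : Type*} (r : σ → ℝ≥0) (s : Finset ι) (F : ι → MvPowerSeries σ ℂ) :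
    wn r (∏ i ∈ s, F i) ≤ ∏ i ∈ s, wn r (F i) := by
  classical
  induction s using Finset.induction_on with
  | empty => simp
  | insert a s ha ih =>
    rw [Finset.prod_insert ha, Finset.prod_insert ha]
    exact (wn_mul_le _ _ _).trans (by gcongr)

theorem eq_zero_of_wn {r : σ → ℝ≥0} (hr : ∀ i, 0 < r i) {F : MvPowerSeries σ ℂ}
    (h : wn r F = 0) : F = 0 := by
  ext ν
  have h1 := coeff_le_wn r F ν
  rw [h, nonpos_iff_eq_zero, ENNReal.coe_eq_zero, mul_eq_zero] at h1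
  rcases h1 with h1 | h1
  · simpa using h1
  · exact absurd h1 (mon_pos hr ν).ne'

end Norm

section Eval

variable {σ : Type*} [Fintype σ]

/-- The value of a power series at a point (meaningful if `wn ‖z‖ F < ∞`). -/
noncomputable def ev (z : σ → ℂ) (F : MvPowerSeries σ ℂ) : ℂ :=
  ∑' ν : σ →₀ ℕ, coeff ν F * mon z ν

theorem summable_nnnorm_of_wn {r : σ → ℝ≥0} {F : MvPowerSeries σ ℂ} (h : wn r F ≠ ⊤) :
    Summable fun ν : σ →₀ ℕ => ‖coeff ν F‖₊ * mon r ν :=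
  ENNReal.tsum_coe_ne_top_iff_summable.mp h

theorem summable_norm_ev {z : σ → ℂ} {F : MvPowerSeries σ ℂ}
    (h : wn (fun i => ‖z i‖₊) F ≠ ⊤) :
    Summable fun ν : σ →₀ ℕ => ‖coeff ν F * mon z ν‖ := by
  have h1 := summable_nnnorm_of_wn h
  have h2 : (fun ν : σ →₀ ℕ => ‖coeff ν F * mon z ν‖) =
      fun ν : σ →₀ ℕ => ((‖coeff ν F‖₊ * mon (fun i => ‖z i‖₊) ν : ℝ≥0) : ℝ) := by
    ext ν
    rw [← nnnorm_mon, ← nnnorm_mul, coe_nnnorm]
  rw [h2]
  exact_mod_cast h1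

theorem summable_ev {z : σ → ℂ} {F : MvPowerSeries σ ℂ} (h : wn (fun i => ‖z i‖₊) F ≠ ⊤) :
    Summable fun ν : σ →₀ ℕ => coeff ν F * mon z ν :=
  (summable_norm_ev h).of_norm

theorem hasSum_ev {z : σ → ℂ} {F : MvPowerSeries σ ℂ} (h : wn (fun i => ‖z i‖₊) F ≠ ⊤) :
    HasSum (fun ν : σ →₀ ℕ => coeff ν F * mon z ν) (ev z F) :=
  (summable_ev h).hasSum

theorem ne_top_of_le {r : σ → ℝ≥0} {z : σ → ℂ} (hz : ∀ i, ‖z i‖₊ ≤ r i)
    {F : MvPowerSeries σ ℂ} (h : wn r F ≠ ⊤) : wn (fun i => ‖z i‖₊) F ≠ ⊤ :=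
  ne_top_of_le_ne_top h (wn_mono hz F)

theorem enorm_ev_le {r : σ → ℝ≥0} {z : σ → ℂ} (hz : ∀ i, ‖z i‖₊ ≤ r i)
    (F : MvPowerSeries σ ℂ) : (‖ev z F‖₊ : ℝ≥0∞) ≤ wn r F := by
  by_cases h : wn r F = ⊤
  · rw [h]; exact le_top
  have h0 := ne_top_of_le hz h
  refine le_trans ?_ (wn_mono hz F)
  have h1 := summable_norm_ev h0
  have h2 := summable_nnnorm_of_wn h0
  have h3 : wn (fun i => ‖z i‖₊) F =
      ((∑' ν : σ →₀ ℕ, ‖coeff ν F‖₊ * mon (fun i => ‖z i‖₊) ν : ℝ≥0) : ℝ≥0∞) := by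
    rw [ENNReal.coe_tsum h2]
    rfl
  rw [h3, ENNReal.coe_le_coe]
  have h4 : (fun ν : σ →₀ ℕ => ‖coeff ν F‖₊ * mon (fun i => ‖z i‖₊) ν) =
      fun ν : σ →₀ ℕ => ‖coeff ν F * mon z ν‖₊ := by
    ext ν
    rw [nnnorm_mul, nnnorm_mon]
  rw [h4] at h2 ⊢
  exact nnnorm_tsum_le h2

theorem ev_add {z : σ → ℂ} {F G : MvPowerSeries σ ℂ} (hF : wn (fun i => ‖z i‖₊) F ≠ ⊤)
    (hG : wn (fun i => ‖z i‖₊) G ≠ ⊤) : ev z (F + G) = ev z F + ev z G := by
  rw [ev, ev, ev, ← (summable_ev hF).tsum_add (summable_ev hG)]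
  refine tsum_congr fun ν => ?_
  rw [map_add, add_mul]

@[simp] theorem ev_smul (z : σ → ℂ) (c : ℂ) (F : MvPowerSeries σ ℂ) :
    ev z (c • F) = c * ev z F := by
  rw [ev, ev, ← tsum_mul_left]
  refine tsum_congr fun ν => ?_
  rw [map_smul, smul_eq_mul, mul_assoc]

@[simp] theorem ev_neg (z : σ → ℂ) (F : MvPowerSeries σ ℂ) : ev z (-F) = -ev z F := by
  have := ev_smul z (-1) F
  simpa using this

@[simp] theorem ev_zero (z : σ → ℂ) : ev z (0 : MvPowerSeries σ ℂ) = 0 := by simp [ev]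

@[simp] theorem ev_monomial (z : σ → ℂ) (ν : σ →₀ ℕ) (c : ℂ) :
    ev z (monomial ν c) = c * mon z ν := by
  classical
  rw [ev, tsum_eq_single ν]
  · simp [coeff_monomial_same]
  · intro μ hμ
    rw [coeff_monomial_ne hμ]
    simp

@[simp] theorem ev_C (z : σ → ℂ) (c : ℂ) : ev z (C c : MvPowerSeries σ ℂ) = c := by
  rw [← monomial_zero_eq_C_apply, ev_monomial]
  simp

@[simp] theorem ev_one (z : σ → ℂ) : ev z (1 : MvPowerSeries σ ℂ) = 1 := by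
  have := ev_C z (1 : ℂ)
  simpa using this

@[simp] theorem ev_X (z : σ → ℂ) (i : σ) : ev z (X i : MvPowerSeries σ ℂ) = z i := by
  rw [X, ev_monomial]
  simp

theorem ev_zero_point (F : MvPowerSeries σ ℂ) : ev (0 : σ → ℂ) F = constantCoeff F := by
  rw [ev, tsum_eq_single 0]
  · simp
  · intro ν hν
    obtain ⟨i, hi⟩ : ∃ i, ν i ≠ 0 := by
      by_contra h
      exact hν (Finsupp.ext fun i => by simpa using not_exists.mp h i)
    have : mon (0 : σ → ℂ) ν = 0 := Finset.prod_eq_zero (Finset.mem_univ i) (by simp [hi])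
    rw [this, mul_zero]

omit [Fintype σ] in
theorem tsum_mul_antidiagonal {a b : (σ →₀ ℕ) → ℂ} (h1 : Summable fun ν => ‖a ν‖)
    (h2 : Summable fun ν => ‖b ν‖) [DecidableEq σ] :
    (∑' ν, a ν) * ∑' ν, b ν =
      ∑' ν, ∑ p ∈ Finset.HasAntidiagonal.antidiagonal ν, a p.1 * b p.2 :=
  Summable.tsum_mul_tsum_eq_tsum_sum_antidiagonal h1.of_norm h2.of_norm
    (summable_mul_of_summable_norm h1 h2)

theorem ev_mul {z : σ → ℂ} {F G : MvPowerSeries σ ℂ} (hF : wn (fun i => ‖z i‖₊) F ≠ ⊤)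
    (hG : wn (fun i => ‖z i‖₊) G ≠ ⊤) : ev z (F * G) = ev z F * ev z G := by
  classical
  have h3 := tsum_mul_antidiagonal (summable_norm_ev hF) (summable_norm_ev hG)
  have h4 : ∀ ν : σ →₀ ℕ, coeff ν (F * G) * mon z ν =
      ∑ p ∈ Finset.HasAntidiagonal.antidiagonal ν,
        (coeff p.1 F * mon z p.1) * (coeff p.2 G * mon z p.2) := by
    intro ν
    rw [coeff_mul, Finset.sum_mul]
    refine Finset.sum_congr rfl fun p hp => ?_
    rw [← Finset.HasAntidiagonal.mem_antidiagonal.mp hp, mon_add, mul_mul_mul_comm]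
  have h5 : ev z (F * G) = ∑' ν : σ →₀ ℕ, ∑ p ∈ Finset.HasAntidiagonal.antidiagonal ν,
        (coeff p.1 F * mon z p.1) * (coeff p.2 G * mon z p.2) := tsum_congr h4
  rw [h5, ← h3]
  rfl

/-- The Banach algebra of power series with finite weighted norm. -/
noncomputable def B (r : σ → ℝ≥0) : Subalgebra ℂ (MvPowerSeries σ ℂ) where
  carrier := {F | wn r F ≠ ⊤}
  mul_mem' {F G} hF hG := ne_top_of_le_ne_top (ENNReal.mul_ne_top hF hG) (wn_mul_le r F G)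
  add_mem' {F G} hF hG := ne_top_of_le_ne_top (ENNReal.add_ne_top.mpr ⟨hF, hG⟩) (wn_add_le r F G)
  algebraMap_mem' c := by
    have : algebraMap ℂ (MvPowerSeries σ ℂ) c = C c := rfl
    rw [this, Set.mem_ofPred_eq, wn_C]
    exact ENNReal.coe_ne_top

theorem mem_B {r : σ → ℝ≥0} {F : MvPowerSeries σ ℂ} : F ∈ B r ↔ wn r F ≠ ⊤ := Iff.rfl

theorem X_mem_B (r : σ → ℝ≥0) (i : σ) : (X i : MvPowerSeries σ ℂ) ∈ B r := by
  rw [mem_B, wn_X]
  exact ENNReal.coe_ne_top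

theorem monomial_mem_B (r : σ → ℝ≥0) (ν : σ →₀ ℕ) (c : ℂ) :
    (monomial ν c : MvPowerSeries σ ℂ) ∈ B r := by
  rw [mem_B, wn_monomial]
  exact ENNReal.coe_ne_top

/-- Evaluation at a point of the closed polydisc. -/
noncomputable def evHom {r : σ → ℝ≥0} (z : σ → ℂ) (hz : ∀ i, ‖z i‖₊ ≤ r i) : B r →ₐ[ℂ] ℂ where
  toFun F := ev z F
  map_one' := ev_one z
  map_mul' F G := ev_mul (ne_top_of_le hz F.2) (ne_top_of_le hz G.2)
  map_zero' := ev_zero z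
  map_add' F G := ev_add (ne_top_of_le hz F.2) (ne_top_of_le hz G.2)
  commutes' c := ev_C z c

@[simp] theorem evHom_apply {r : σ → ℝ≥0} (z : σ → ℂ) (hz : ∀ i, ‖z i‖₊ ≤ r i) (F : B r) :
    evHom z hz F = ev z F := rfl

end Eval

section Iteration

variable {σ : Type*} [Fintype σ]

theorem summable_coeff {ι : Type*} {r : σ → ℝ≥0} (hr : ∀ i, 0 < r i)
    {b : ι → MvPowerSeries σ ℂ} (hb : ∑' k, wn r (b k) ≠ ⊤) (ν : σ →₀ ℕ) :
    Summable fun k => ‖coeff ν (b k)‖₊ := by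
  have h1 : Summable fun k => ‖coeff ν (b k)‖₊ * mon r ν := by
    rw [← ENNReal.tsum_coe_ne_top_iff_summable]
    exact ne_top_of_le_ne_top hb (ENNReal.tsum_le_tsum fun k => coeff_le_wn r (b k) ν)
  exact (summable_mul_right_iff (mon_pos hr ν).ne').mp h1

theorem wn_tsum_le {ι : Type*} {r : σ → ℝ≥0} (hr : ∀ i, 0 < r i) {b : ι → MvPowerSeries σ ℂ}
    (hb : ∑' k, wn r (b k) ≠ ⊤) {H : MvPowerSeries σ ℂ}
    (hH : ∀ ν, coeff ν H = ∑' k, coeff ν (b k)) : wn r H ≤ ∑' k, wn r (b k) := by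
  have h1 : ∀ ν, ((‖coeff ν H‖₊ * mon r ν : ℝ≥0) : ℝ≥0∞) ≤
      ∑' k, ((‖coeff ν (b k)‖₊ * mon r ν : ℝ≥0) : ℝ≥0∞) := by
    intro ν
    have h2 := summable_coeff hr hb ν
    rw [← ENNReal.coe_tsum (h2.mul_right _), ENNReal.coe_le_coe, tsum_mul_right, hH]
    gcongr
    exact nnnorm_tsum_le h2
  calc wn r H ≤ ∑' ν, ∑' k, ((‖coeff ν (b k)‖₊ * mon r ν : ℝ≥0) : ℝ≥0∞) :=
        ENNReal.tsum_le_tsum h1
    _ = ∑' k, wn r (b k) := ENNReal.tsum_comm

theorem ev_tsum {ι : Type*} {r : σ → ℝ≥0} {b : ι → MvPowerSeries σ ℂ}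
    (hb : ∑' k, wn r (b k) ≠ ⊤) {H : MvPowerSeries σ ℂ}
    (hH : ∀ ν, coeff ν H = ∑' k, coeff ν (b k)) {z : σ → ℂ} (hz : ∀ i, ‖z i‖₊ ≤ r i) :
    ev z H = ∑' k, ev z (b k) := by
  have h0 : Summable fun p : ι × (σ →₀ ℕ) => coeff p.2 (b p.1) * mon z p.2 := by
    refine Summable.of_nnnorm ?_
    rw [← ENNReal.tsum_coe_ne_top_iff_summable,
      ENNReal.tsum_prod (f := fun k ν => ((‖coeff ν (b k) * mon z ν‖₊ : ℝ≥0) : ℝ≥0∞))]
    refine ne_top_of_le_ne_top hb (ENNReal.tsum_le_tsum fun k => ?_)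
    refine le_trans (ENNReal.tsum_le_tsum fun ν => ?_) (wn_mono hz (b k))
    rw [nnnorm_mul, nnnorm_mon]
  calc ev z H = ∑' ν, ∑' k, coeff ν (b k) * mon z ν := by
        unfold ev
        refine tsum_congr fun ν => ?_
        rw [hH, tsum_mul_right]
    _ = ∑' k, ∑' ν, coeff ν (b k) * mon z ν := by
        exact Summable.tsum_comm (f := fun k ν => coeff ν (b k) * mon z ν) h0
    _ = _ := rfl

theorem exists_fix {r : σ → ℝ≥0} (hr : ∀ i, 0 < r i)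
    (T : MvPowerSeries σ ℂ →ₗ[ℂ] MvPowerSeries σ ℂ) (hT : ∀ F, wn r (T F) ≤ wn r F / 2)
    (G : MvPowerSeries σ ℂ) (hG : wn r G ≠ ⊤) :
    ∃ H, H - T H = G ∧ wn r H ≤ 2 * wn r G ∧
      ∀ ν, (∀ k : ℕ, coeff ν ((T ^ k) G) = 0) → coeff ν H = 0 := by
  set a : ℕ → MvPowerSeries σ ℂ := fun k => (T ^ k) G with ha
  have ha1 : ∀ k, wn r (a k) ≤ wn r G * (2⁻¹ : ℝ≥0∞) ^ k := by
    intro k
    induction k with
    | zero => simp [ha]
    | succ k ih =>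
      have : a (k + 1) = T (a k) := by simp [ha, pow_succ']
      rw [this]
      refine (hT _).trans ?_
      rw [pow_succ, ← mul_assoc, ENNReal.div_eq_inv_mul, mul_comm]
      gcongr
  have ha2 : ∀ N, ∑' k, wn r (a (k + N)) ≤ 2 * wn r G * (2⁻¹ : ℝ≥0∞) ^ N := by
    intro N
    calc ∑' k, wn r (a (k + N)) ≤ ∑' k, wn r G * (2⁻¹ : ℝ≥0∞) ^ (k + N) :=
          ENNReal.tsum_le_tsum fun k => ha1 _
      _ = 2 * wn r G * (2⁻¹ : ℝ≥0∞) ^ N := by
          simp_rw [pow_add, ← mul_assoc]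
          rw [ENNReal.tsum_mul_right, ENNReal.tsum_mul_left, ENNReal.tsum_geometric]
          congr 1
          rw [mul_comm, ENNReal.one_sub_inv_two, inv_inv]
  have hfin : ∀ N, 2 * wn r G * (2⁻¹ : ℝ≥0∞) ^ N ≠ ⊤ := fun N =>
    ENNReal.mul_ne_top (ENNReal.mul_ne_top (by simp) hG) (by simp)
  have ha3 : ∀ N, ∑' k, wn r (a (k + N)) ≠ ⊤ := fun N => ne_top_of_le_ne_top (hfin N) (ha2 N)
  have ha0 : ∑' k, wn r (a k) ≠ ⊤ := by simpa using ha3 0
  let H : MvPowerSeries σ ℂ := fun ν => ∑' k, coeff ν (a k)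
  have hH : ∀ ν, coeff ν H = ∑' k, coeff ν (a k) := fun ν => rfl
  have hS : ∀ N, wn r (H - ∑ k ∈ Finset.range N, a k) ≤ 2 * wn r G * (2⁻¹ : ℝ≥0∞) ^ N := by
    intro N
    refine (wn_tsum_le hr (ha3 N) ?_).trans (ha2 N)
    intro ν
    have hs : Summable fun k => coeff ν (a k) := by
      refine Summable.of_norm ?_
      have := summable_coeff hr ha0 ν
      rw [← NNReal.summable_coe] at this
      simpa using this
    rw [map_sub, hH, map_sum, ← hs.sum_add_tsum_nat_add N]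
    ring
  refine ⟨H, ?_, ?_, ?_⟩
  · have key : ∀ N, wn r (H - T H - G) ≤ 2 * wn r G * (2⁻¹ : ℝ≥0∞) ^ N := by
      intro N
      have h1 : H - T H - G = (H - ∑ k ∈ Finset.range (N + 1), a k) -
          T (H - ∑ k ∈ Finset.range N, a k) := by
        have h2 : ∑ k ∈ Finset.range (N + 1), a k = G + T (∑ k ∈ Finset.range N, a k) := by
          rw [Finset.sum_range_succ', map_sum]
          have : ∀ k, a (k + 1) = T (a k) := fun k => by simp [ha, pow_succ']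
          simp only [this]
          rw [add_comm]
          simp [ha]
        rw [h2, map_sub]
        ring
      rw [h1]
      refine (wn_sub_le _ _ _).trans ?_
      have h3 : wn r (T (H - ∑ k ∈ Finset.range N, a k)) ≤
          (2 * wn r G * (2⁻¹ : ℝ≥0∞) ^ N) / 2 := (hT _).trans (by gcongr; exact hS N)
      have h4 : wn r (H - ∑ k ∈ Finset.range (N + 1), a k) ≤
          (2 * wn r G * (2⁻¹ : ℝ≥0∞) ^ N) / 2 := by
        refine (hS (N + 1)).trans (le_of_eq ?_)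
        rw [pow_succ, ← mul_assoc, ENNReal.div_eq_inv_mul, mul_comm]
      calc _ ≤ (2 * wn r G * (2⁻¹ : ℝ≥0∞) ^ N) / 2 + (2 * wn r G * (2⁻¹ : ℝ≥0∞) ^ N) / 2 :=
            add_le_add h4 h3
        _ = _ := ENNReal.add_halves _
    have hlim : Tendsto (fun N : ℕ => 2 * wn r G * (2⁻¹ : ℝ≥0∞) ^ N) atTop (𝓝 0) := by
      have h5 : Tendsto (fun N : ℕ => (2⁻¹ : ℝ≥0∞) ^ N) atTop (𝓝 0) :=
        ENNReal.tendsto_pow_atTop_nhds_zero_of_lt_one (by simp)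
      have h6 := ENNReal.Tendsto.const_mul (a := 2 * wn r G) h5
        (Or.inr (ENNReal.mul_ne_top (by simp) hG))
      simpa using h6
    have h0 : wn r (H - T H - G) = 0 := le_antisymm (ge_of_tendsto' hlim key) zero_le
    have := eq_zero_of_wn hr h0
    exact sub_eq_zero.mp this
  · have := hS 0
    simpa using this
  · intro ν hν
    rw [hH]
    simp only [ha]
    simp [hν]

end Iteration

end Pool.Agent.Lib.MP_af4f85_ag.An
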