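import Pool.Agent.Lib.MP_af4f85_ag.An.Subst

/-!
# Division of convergent power series

Division by finitely many series `X_i ^ K_i - P_i` with small `P_i`, with finite weighted norms.
-/

set_option autoImplicit false

open MvPowerSeries Filter Topology
open scoped ENNReal NNReal

namespace Pool.Agent.Lib.MP_af4f85_ag.An

variable {σ : Type*} [Fintype σ]

omit [Fintype σ] in
theorem exists_coeff_ne_zero_of_mul {F G : MvPowerSeries σ ℂ} {ν : σ →₀ ℕ}
    (h : coeff ν (F * G) ≠ 0) : ∃ μ κ, μ + κ = ν ∧ coeff μ F ≠ 0 ∧ coeff κ G ≠ 0 := by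
  classical
  rw [coeff_mul] at h
  obtain ⟨p, hp, hp'⟩ := Finset.exists_ne_zero_of_sum_ne_zero h
  exact ⟨p.1, p.2, Finset.HasAntidiagonal.mem_antidiagonal.mp hp, left_ne_zero_of_mul hp',
    right_ne_zero_of_mul hp'⟩

/-- The power series which involve only the variables in `S`. -/
noncomputable def dep (S : Set σ) : Subalgebra ℂ (MvPowerSeries σ ℂ) where
  carrier := {F | ∀ ν, coeff ν F ≠ 0 → ∀ i ∉ S, ν i = 0}
  mul_mem' {F G} hF hG := by
    intro ν hν i hi
    obtain ⟨μ, κ, rfl, h1, h2⟩ := exists_coeff_ne_zero_of_mul hν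
    simp [hF μ h1 i hi, hG κ h2 i hi]
  add_mem' {F G} hF hG := by
    intro ν hν i hi
    by_cases h : coeff ν F = 0
    · refine hG ν (fun h' => hν ?_) i hi
      rw [map_add, h, h', add_zero]
    · exact hF ν h i hi
  algebraMap_mem' c := by
    classical
    intro ν hν i hi
    have : algebraMap ℂ (MvPowerSeries σ ℂ) c = C c := rfl
    rw [this, coeff_C] at hν
    have h0 : ν = 0 := by
      by_contra h0
      exact hν (if_neg h0)
    simp [h0]

omit [Fintype σ] in
theorem mem_dep {S : Set σ} {F : MvPowerSeries σ ℂ} :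
    F ∈ dep S ↔ ∀ ν, coeff ν F ≠ 0 → ∀ i ∉ S, ν i = 0 := Iff.rfl

omit [Fintype σ] in
theorem dep_univ (F : MvPowerSeries σ ℂ) : F ∈ dep (Set.univ : Set σ) :=
  fun _ _ i hi => (hi (Set.mem_univ i)).elim

omit [Fintype σ] in
theorem dep_mono {S T : Set σ} (h : S ⊆ T) {F : MvPowerSeries σ ℂ} (hF : F ∈ dep S) :
    F ∈ dep T := fun ν hν i hi => hF ν hν i fun h' => hi (h h')

omit [Fintype σ] in
theorem monomial_mem_dep {S : Set σ} {ν : σ →₀ ℕ} (h : ∀ i ∉ S, ν i = 0) (c : ℂ) :
    (monomial ν c : MvPowerSeries σ ℂ) ∈ dep S := by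
  intro μ hμ i hi
  rw [eq_of_coeff_monomial_ne_zero hμ]
  exact h i hi

omit [Fintype σ] in
theorem X_mem_dep {S : Set σ} {i : σ} (h : i ∈ S) : (X i : MvPowerSeries σ ℂ) ∈ dep S := by
  refine monomial_mem_dep (fun j hj => ?_) 1
  rw [Finsupp.single_eq_of_ne]
  rintro rfl
  exact hj h

/-- The value depends only on the coordinates in `S`. -/
theorem ev_congr {S : Set σ} {F : MvPowerSeries σ ℂ} (hF : F ∈ dep S) {z w : σ → ℂ}
    (h : ∀ i ∈ S, z i = w i) : ev z F = ev w F := by
  unfold ev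
  refine tsum_congr fun ν => ?_
  by_cases h0 : coeff ν F = 0
  · simp [h0]
  · congr 1
    refine Finset.prod_congr rfl fun i _ => ?_
    by_cases hi : i ∈ S
    · rw [h i hi]
    · rw [hF ν h0 i hi]
      simp

section Split

variable (I : Finset σ) (K : σ → ℕ)

open Classical in
/-- A variable `i ∈ I` with `K i ≤ ν i`, if there is one. -/
noncomputable def pick (ν : σ →₀ ℕ) : Option σ :=
  if h : ∃ i, i ∈ I ∧ K i ≤ ν i then some h.choose else none

omit [Fintype σ] in
variable {I K} in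
theorem pick_eq_some {ν : σ →₀ ℕ} {i : σ} (h : pick I K ν = some i) : i ∈ I ∧ K i ≤ ν i := by
  unfold pick at h
  split_ifs at h with h1
  simp only [Option.some.injEq] at h
  rw [← h]
  exact h1.choose_spec

omit [Fintype σ] in
variable {I K} in
theorem pick_eq_none {ν : σ →₀ ℕ} (h : pick I K ν = none) {i : σ} (hi : i ∈ I) : ν i < K i := by
  unfold pick at h
  split_ifs at h with h1
  push Not at h1
  exact h1 i hi

open Classical in
/-- The part of `G` with `pick ν = i`, divided by `X_i ^ K_i` (auxiliary). -/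
noncomputable def tauFun (i : σ) (G : MvPowerSeries σ ℂ) : MvPowerSeries σ ℂ :=
  fun ν => if pick I K (ν + Finsupp.single i (K i)) = some i then
    coeff (ν + Finsupp.single i (K i)) G else 0

omit [Fintype σ] in
open Classical in
theorem coeff_tauFun (i : σ) (G : MvPowerSeries σ ℂ) (ν : σ →₀ ℕ) :
    coeff ν (tauFun I K i G) = if pick I K (ν + Finsupp.single i (K i)) = some i then
    coeff (ν + Finsupp.single i (K i)) G else 0 := rfl

/-- The part of `G` with `pick ν = i`, divided by `X_i ^ K_i`. -/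
noncomputable def tau (i : σ) : MvPowerSeries σ ℂ →ₗ[ℂ] MvPowerSeries σ ℂ where
  toFun := tauFun I K i
  map_add' F G := by
    ext ν
    rw [map_add, coeff_tauFun, coeff_tauFun, coeff_tauFun]
    split_ifs
    · rw [map_add]
    · rw [add_zero]
  map_smul' c F := by
    ext ν
    rw [RingHom.id_apply, map_smul, coeff_tauFun, coeff_tauFun]
    split_ifs
    · rw [map_smul]
    · rw [smul_zero]

omit [Fintype σ] in
open Classical in
theorem coeff_tau (i : σ) (G : MvPowerSeries σ ℂ) (ν : σ →₀ ℕ) :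
    coeff ν (tau I K i G) = if pick I K (ν + Finsupp.single i (K i)) = some i then
    coeff (ν + Finsupp.single i (K i)) G else 0 := rfl

open Classical in
/-- The part of `G` with all exponents of the variables in `I` small. -/
noncomputable def rem (G : MvPowerSeries σ ℂ) : MvPowerSeries σ ℂ :=
  fun ν => if pick I K ν = none then coeff ν G else 0

omit [Fintype σ] in
open Classical in
theorem coeff_rem (G : MvPowerSeries σ ℂ) (ν : σ →₀ ℕ) :
    coeff ν (rem I K G) = if pick I K ν = none then coeff ν G else 0 := rfl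

omit [Fintype σ] in
theorem X_pow_eq_monomial (i : σ) (n : ℕ) :
    (X i : MvPowerSeries σ ℂ) ^ n = monomial (Finsupp.single i n) 1 := by
  rw [X_pow_eq]

omit [Fintype σ] in
theorem split_eq (G : MvPowerSeries σ ℂ) :
    G = rem I K G + ∑ i ∈ I, tau I K i G * X i ^ K i := by
  classical
  ext ν
  have h1 : ∀ i ∈ I, coeff ν (tau I K i G * X i ^ K i) =
      if pick I K ν = some i then coeff ν G else 0 := by
    intro i _
    rw [X_pow_eq_monomial, coeff_mul_monomial]
    by_cases h2 : Finsupp.single i (K i) ≤ ν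
    · rw [if_pos h2, coeff_tau, tsub_add_cancel_of_le h2, mul_one]
    · rw [if_neg h2, if_neg]
      intro h3
      exact h2 (Finsupp.single_le_iff.mpr (pick_eq_some h3).2)
  rw [map_add, map_sum, Finset.sum_congr rfl h1, coeff_rem]
  cases h4 : pick I K ν with
  | none => simp
  | some j =>
    have hj := (pick_eq_some h4).1
    rw [if_neg (by simp), zero_add, Finset.sum_eq_single j]
    · simp
    · intro i _ hij
      rw [if_neg]
      simpa using hij.symm
    · intro h5
      exact (h5 hj).elim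

theorem wn_rem_le (r : σ → ℝ≥0) (G : MvPowerSeries σ ℂ) : wn r (rem I K G) ≤ wn r G := by
  refine wn_mono_coeff fun ν => ?_
  rw [coeff_rem]
  split_ifs <;> simp

theorem wn_tau_le (r : σ → ℝ≥0) (i : σ) (G : MvPowerSeries σ ℂ) :
    wn r (tau I K i G) * (r i : ℝ≥0∞) ^ K i ≤ wn r G := by
  classical
  calc wn r (tau I K i G) * (r i : ℝ≥0∞) ^ K i
      = ∑' ν, ((‖coeff ν (tau I K i G)‖₊ * mon r (ν + Finsupp.single i (K i)) : ℝ≥0) :
          ℝ≥0∞) := by
        rw [wn, ← ENNReal.tsum_mul_right]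
        refine tsum_congr fun ν => ?_
        rw [mon_add, mon_single, ← ENNReal.coe_pow, ← ENNReal.coe_mul, mul_assoc]
    _ ≤ ∑' ν, ((‖coeff (ν + Finsupp.single i (K i)) G‖₊ *
          mon r (ν + Finsupp.single i (K i)) : ℝ≥0) : ℝ≥0∞) := by
        refine ENNReal.tsum_le_tsum fun ν => ?_
        rw [ENNReal.coe_le_coe]
        gcongr
        rw [coeff_tau]
        split_ifs <;> simp
    _ ≤ wn r G := ENNReal.tsum_comp_le_tsum_of_injective
          (f := fun ν => ν + Finsupp.single i (K i)) (add_left_injective _)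
          fun ν => ((‖coeff ν G‖₊ * mon r ν : ℝ≥0) : ℝ≥0∞)

omit [Fintype σ] in
theorem tau_mem_dep {S : Set σ} {G : MvPowerSeries σ ℂ} (hG : G ∈ dep S) (i : σ) :
    tau I K i G ∈ dep S := by
  classical
  intro ν hν j hj
  rw [coeff_tau] at hν
  have h1 : coeff (ν + Finsupp.single i (K i)) G ≠ 0 := by
    split_ifs at hν
    · exact hν
    · exact (hν rfl).elim
  have h2 := hG _ h1 j hj
  simp only [Finsupp.coe_add, Pi.add_apply] at h2
  omega

omit [Fintype σ] in
theorem rem_mem_dep {S : Set σ} {G : MvPowerSeries σ ℂ} (hG : G ∈ dep S) :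
    rem I K G ∈ dep S := by
  classical
  intro ν hν j hj
  rw [coeff_rem] at hν
  have h1 : coeff ν G ≠ 0 := by
    split_ifs at hν
    · exact hν
    · exact (hν rfl).elim
  exact hG _ h1 j hj

end Split

/-- Division with remainder by `X_i ^ K_i - P_i`, `i ∈ I`. -/
theorem exists_division (I : Finset σ) (K : σ → ℕ) (P : σ → MvPowerSeries σ ℂ)
    {r : σ → ℝ≥0} (hr : ∀ i, 0 < r i)
    (hP : ∑ i ∈ I, wn r (P i) / (r i : ℝ≥0∞) ^ K i ≤ 2⁻¹)
    {S : Set σ} (hPS : ∀ i ∈ I, P i ∈ dep S) {G : MvPowerSeries σ ℂ} (hG : wn r G ≠ ⊤)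
    (hGS : G ∈ dep S) :
    ∃ (R : MvPowerSeries σ ℂ) (q : σ → MvPowerSeries σ ℂ),
      G = R + ∑ i ∈ I, q i * (X i ^ K i - P i) ∧
      wn r R ≠ ⊤ ∧ R ∈ dep S ∧ (∀ i, wn r (q i) ≠ ⊤ ∧ q i ∈ dep S) ∧
      (∀ ν, coeff ν R ≠ 0 → ∀ i ∈ I, ν i < K i) := by
  classical
  let T : MvPowerSeries σ ℂ →ₗ[ℂ] MvPowerSeries σ ℂ :=
    ∑ i ∈ I, (LinearMap.mulRight ℂ (P i)).comp (tau I K i)
  have hTapp : ∀ F, T F = ∑ i ∈ I, tau I K i F * P i := by
    intro F
    simp [T, LinearMap.sum_apply]
  have hri : ∀ i, (r i : ℝ≥0∞) ^ K i ≠ 0 := fun i => by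
    have := hr i
    positivity
  have hri' : ∀ i, (r i : ℝ≥0∞) ^ K i ≠ ⊤ := fun i => ENNReal.pow_ne_top ENNReal.coe_ne_top
  have hT : ∀ F, wn r (T F) ≤ wn r F / 2 := by
    intro F
    rw [hTapp]
    calc wn r (∑ i ∈ I, tau I K i F * P i) ≤ ∑ i ∈ I, wn r (tau I K i F * P i) := wn_sum_le _ _ _
      _ ≤ ∑ i ∈ I, wn r F * (wn r (P i) / (r i : ℝ≥0∞) ^ K i) := by
          refine Finset.sum_le_sum fun i _ => (wn_mul_le _ _ _).trans ?_
          have h1 : wn r (tau I K i F) ≤ wn r F / (r i : ℝ≥0∞) ^ K i := by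
            rw [ENNReal.le_div_iff_mul_le (Or.inl (hri i)) (Or.inl (hri' i))]
            exact wn_tau_le I K r i F
          calc wn r (tau I K i F) * wn r (P i)
              ≤ wn r F / (r i : ℝ≥0∞) ^ K i * wn r (P i) := by gcongr
            _ = _ := by
                rw [ENNReal.div_eq_inv_mul, ENNReal.div_eq_inv_mul]
                ring
      _ = wn r F * ∑ i ∈ I, (wn r (P i) / (r i : ℝ≥0∞) ^ K i) := by rw [Finset.mul_sum]
      _ ≤ wn r F * 2⁻¹ := by gcongr
      _ = wn r F / 2 := by rw [ENNReal.div_eq_inv_mul, mul_comm]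
  obtain ⟨H, hH, hH', hH''⟩ := exists_fix hr T hT G hG
  have hHtop : wn r H ≠ ⊤ := ne_top_of_le_ne_top (ENNReal.mul_ne_top (by simp) hG) hH'
  have hTS : ∀ F ∈ dep S, T F ∈ dep S := by
    intro F hF
    rw [hTapp]
    exact (dep S).sum_mem fun i hi => (dep S).mul_mem (tau_mem_dep I K hF i) (hPS i hi)
  have hTkS : ∀ k : ℕ, (T ^ k) G ∈ dep S := by
    intro k
    induction k with
    | zero => simpa using hGS
    | succ k ih =>
      rw [pow_succ']
      exact hTS _ ih
  have hHS : H ∈ dep S := by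
    intro ν hν i hi
    by_contra h0
    refine hν (hH'' ν fun k => ?_)
    by_contra h1
    exact h0 (hTkS k ν h1 i hi)
  refine ⟨rem I K H, fun i => tau I K i H, ?_, ?_, rem_mem_dep I K hHS, fun i => ⟨?_, ?_⟩, ?_⟩
  · have h1 : ∑ i ∈ I, tau I K i H * (X i ^ K i - P i) =
        ∑ i ∈ I, tau I K i H * X i ^ K i - T H := by
      rw [hTapp, ← Finset.sum_sub_distrib]
      exact Finset.sum_congr rfl fun i _ => by ring
    have h2 : rem I K H = H - ∑ i ∈ I, tau I K i H * X i ^ K i := by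
      rw [eq_sub_iff_add_eq]
      exact (split_eq I K H).symm
    rw [h1, h2, ← hH]
    ring
  · exact ne_top_of_le_ne_top hHtop (wn_rem_le I K r H)
  · have h1 := wn_tau_le I K r i H
    intro h2
    rw [h2, ENNReal.top_mul (hri i)] at h1
    exact hHtop (top_le_iff.mp h1)
  · exact tau_mem_dep I K hHS i
  · intro ν hν i hi
    rw [coeff_rem] at hν
    refine pick_eq_none ?_ hi
    by_contra h1
    rw [if_neg h1] at hν
    exact hν rfl

section Slice

open Classical in
/-- The exponents supported in `I` and bounded by `K`. -/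
noncomputable def box (I : Finset σ) (K : σ → ℕ) : Finset (σ →₀ ℕ) :=
  {α ∈ Finset.Iic (Finsupp.equivFunOnFinite.symm K) | (∀ i ∈ I, α i < K i) ∧ ∀ i ∉ I, α i = 0}

theorem mem_box {I : Finset σ} {K : σ → ℕ} {α : σ →₀ ℕ} :
    α ∈ box I K ↔ (∀ i ∈ I, α i < K i) ∧ ∀ i ∉ I, α i = 0 := by
  classical
  rw [box, Finset.mem_filter, Finset.mem_Iic, and_iff_right_iff_imp]
  rintro ⟨h1, h2⟩ i
  rw [Finsupp.equivFunOnFinite_symm_apply_apply]
  by_cases hi : i ∈ I
  · exact (h1 i hi).le
  · rw [h2 i hi]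
    exact Nat.zero_le _

open Classical in
/-- The coefficient of `X ^ α` of a power series, as a power series in the variables not
in `I`. -/
noncomputable def slice (I : Finset σ) (α : σ →₀ ℕ) (R : MvPowerSeries σ ℂ) :
    MvPowerSeries σ ℂ := fun ν => if ∀ i ∈ I, ν i = 0 then coeff (ν + α) R else 0

open Classical in
theorem coeff_slice (I : Finset σ) (α : σ →₀ ℕ) (R : MvPowerSeries σ ℂ) (ν : σ →₀ ℕ) :
    coeff ν (slice I α R) = if ∀ i ∈ I, ν i = 0 then coeff (ν + α) R else 0 := rfl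

theorem slice_mem_dep {S : Set σ} {I : Finset σ} {R : MvPowerSeries σ ℂ} (hR : R ∈ dep S)
    (α : σ →₀ ℕ) : slice I α R ∈ dep (S \ I) := by
  classical
  intro ν hν i hi
  rw [coeff_slice] at hν
  split_ifs at hν with h
  · by_cases h1 : i ∈ I
    · exact h i h1
    · have h2 : i ∉ S := fun h3 => hi ⟨h3, h1⟩
      have h3 := hR _ hν i h2
      simp only [Finsupp.coe_add, Pi.add_apply] at h3
      omega
  · exact (hν rfl).elim

theorem wn_slice_le (r : σ → ℝ≥0) (I : Finset σ) (α : σ →₀ ℕ) (R : MvPowerSeries σ ℂ) :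
    wn r (slice I α R) * (mon r α : ℝ≥0) ≤ wn r R := by
  classical
  calc wn r (slice I α R) * (mon r α : ℝ≥0)
      = ∑' ν, ((‖coeff ν (slice I α R)‖₊ * mon r (ν + α) : ℝ≥0) : ℝ≥0∞) := by
        rw [wn, ← ENNReal.tsum_mul_right]
        refine tsum_congr fun ν => ?_
        rw [mon_add, ← ENNReal.coe_mul, mul_assoc]
    _ ≤ ∑' ν, ((‖coeff (ν + α) R‖₊ * mon r (ν + α) : ℝ≥0) : ℝ≥0∞) := by
        refine ENNReal.tsum_le_tsum fun ν => ?_
        rw [ENNReal.coe_le_coe]
        gcongr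
        rw [coeff_slice]
        split_ifs <;> simp
    _ ≤ wn r R := ENNReal.tsum_comp_le_tsum_of_injective
          (f := fun ν => ν + α) (add_left_injective _)
          fun ν => ((‖coeff ν R‖₊ * mon r ν : ℝ≥0) : ℝ≥0∞)

theorem wn_slice_ne_top {r : σ → ℝ≥0} (hr : ∀ i, 0 < r i) (I : Finset σ) (α : σ →₀ ℕ)
    {R : MvPowerSeries σ ℂ} (hR : wn r R ≠ ⊤) : wn r (slice I α R) ≠ ⊤ := by
  intro h
  have h1 := wn_slice_le r I α R
  rw [h, ENNReal.top_mul (by exact_mod_cast (mon_pos hr α).ne')] at h1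
  exact hR (top_le_iff.mp h1)

theorem eq_sum_slice {I : Finset σ} {K : σ → ℕ} {R : MvPowerSeries σ ℂ}
    (hR : ∀ ν, coeff ν R ≠ 0 → ∀ i ∈ I, ν i < K i) :
    R = ∑ α ∈ box I K, slice I α R * monomial α 1 := by
  classical
  ext ν
  rw [map_sum]
  have h1 : ∀ α ∈ box I K, coeff ν (slice I α R * monomial α 1) =
      if α = ν.filter (· ∈ I) then coeff ν R else 0 := by
    intro α hα
    rw [coeff_mul_monomial, mul_one]
    by_cases h2 : α = ν.filter (· ∈ I)
    · have h3 : α ≤ ν := by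
        intro i
        rw [h2, Finsupp.filter_apply]
        split_ifs <;> simp
      rw [if_pos h2, if_pos h3, coeff_slice, if_pos, tsub_add_cancel_of_le h3]
      intro i hi
      rw [Finsupp.tsub_apply, h2, Finsupp.filter_apply, if_pos hi, Nat.sub_self]
    · rw [if_neg h2]
      split_ifs with h3
      · rw [coeff_slice, if_neg]
        intro h4
        apply h2
        ext i
        rw [Finsupp.filter_apply]
        have h5 := h3 i
        split_ifs with hi
        · have h6 := h4 i hi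
          rw [Finsupp.tsub_apply] at h6
          omega
        · exact (mem_box.mp hα).2 i hi
      · rfl
  rw [Finset.sum_congr rfl h1, Finset.sum_ite_eq']
  split_ifs with h2
  · rfl
  · by_contra h3
    apply h2
    rw [mem_box]
    refine ⟨fun i hi => ?_, fun i hi => ?_⟩
    · rw [Finsupp.filter_apply, if_pos hi]
      exact hR ν h3 i hi
    · rw [Finsupp.filter_apply, if_neg hi]

end Slice

end Pool.Agent.Lib.MP_af4f85_ag.An
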