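import Mathlib

/-!
# Elimination of one variable (Chevalley)
-/

set_option autoImplicit false

open Polynomial PrimeSpectrum

namespace Pool.Agent.Lib.MP_af4f85_ag.An

/-- A prime ideal of `ℂ[X]` which contains a monic polynomial is the ideal of a point. -/
theorem exists_root_of_prime {J : Ideal ℂ[X]} (hJ : J.IsPrime) {W : ℂ[X]} (hW : W.Monic)
    (hWJ : W ∈ J) : ∃ ξ : ℂ, ∀ p : ℂ[X], p ∈ J ↔ p.eval ξ = 0 := by
  have h1 : W = (W.roots.map fun a => X - C a).prod :=
    (IsAlgClosed.splits W).eq_prod_roots_of_monic hW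
  have h2 : ∃ ξ : ℂ, X - C ξ ∈ J := by
    rw [h1] at hWJ
    obtain ⟨p, hp, hpJ⟩ := (hJ.multiset_prod_mem_iff_exists_mem _).mp hWJ
    obtain ⟨ξ, -, rfl⟩ := Multiset.mem_map.mp hp
    exact ⟨ξ, hpJ⟩
  obtain ⟨ξ, hξ⟩ := h2
  refine ⟨ξ, fun p => ⟨fun hp => ?_, fun hp => ?_⟩⟩
  · by_contra h3
    obtain ⟨q, hq⟩ : (X - C ξ) ∣ p - C (p.eval ξ) := X_sub_C_dvd_sub_C_eval
    have h4 : C (p.eval ξ) ∈ J := by
      have : C (p.eval ξ) = p - (X - C ξ) * q := by rw [← hq]; ring
      rw [this]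
      exact J.sub_mem hp (J.mul_mem_right _ hξ)
    exact hJ.ne_top (J.eq_top_of_isUnit_mem h4 (isUnit_C.mpr (IsUnit.mk0 _ h3)))
  · obtain ⟨q, rfl⟩ := dvd_iff_isRoot.mpr hp
    exact J.mul_mem_right _ hξ

/-- Elimination of one variable over a base ring with `ℂ`-points. -/
theorem elim {B : Type*} [CommRing B] {J : Ideal B[X]} (hJ : J.IsPrime) {W : B[X]}
    (hW : W.Monic) (hWJ : W ∈ J) (R : Finset B[X]) (hR : ∀ p ∈ R, p ∈ J) {h : B[X]}
    (hh : h ∉ J) :
    ∃ (P : Finset B) (g : B), (∀ p ∈ P, C p ∈ J) ∧ C g ∉ J ∧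
      ∀ φ : B →+* ℂ, Function.Surjective φ → (∀ p ∈ P, φ p = 0) → φ g ≠ 0 →
        ∃ ξ : ℂ, W.eval₂ φ ξ = 0 ∧ (∀ p ∈ R, p.eval₂ φ ξ = 0) ∧ h.eval₂ φ ξ ≠ 0 := by
  classical
  let s : Set (PrimeSpectrum B[X]) := zeroLocus (↑(insert W R) : Set B[X]) \ zeroLocus {h}
  have hs : Topology.IsConstructible s := by
    have h1 : s = (⟨h, Nat.card (↥(insert W R)),
        fun i => ((Finite.equivFin ↥(insert W R)).symm i).1⟩ :
          BasicConstructibleSetData B[X]).toSet := by
      have h2 : (↑(insert W R) : Set B[X]) =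
          Set.range fun i => ((Finite.equivFin ↥(insert W R)).symm i).1 := by
        ext x
        constructor
        · intro hx
          exact ⟨Finite.equivFin _ ⟨x, hx⟩, by simp⟩
        · rintro ⟨i, rfl⟩
          exact ((Finite.equivFin ↥(insert W R)).symm i).2
      simp only [s, BasicConstructibleSetData.toSet]
      rw [h2]
    have h3 := ConstructibleSetData.isConstructible_toSet
      ({⟨h, Nat.card (↥(insert W R)), fun i => ((Finite.equivFin ↥(insert W R)).symm i).1⟩} :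
        ConstructibleSetData B[X])
    simp only [ConstructibleSetData.toSet, Finset.mem_singleton, Set.iUnion_iUnion_eq_left] at h3
    rw [h1]
    exact h3
  obtain ⟨D, hD⟩ := exists_constructibleSetData_iff.mpr (isConstructible_comap_C hs)
  have hmem : (⟨J, hJ⟩ : PrimeSpectrum B[X]) ∈ s := by
    refine ⟨?_, ?_⟩
    · rw [mem_zeroLocus]
      intro p hp
      rcases Finset.mem_insert.mp hp with rfl | hp
      · exact hWJ
      · exact hR p hp
    · rw [mem_zeroLocus, Set.singleton_subset_iff]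
      exact hh
  have hmem' : comap C (⟨J, hJ⟩ : PrimeSpectrum B[X]) ∈ D.toSet := by
    rw [hD]
    exact ⟨_, hmem, rfl⟩
  simp only [ConstructibleSetData.toSet, Set.mem_iUnion] at hmem'
  obtain ⟨E, hE, hmemE⟩ := hmem'
  refine ⟨Finset.univ.image E.g, E.f, ?_, ?_, ?_⟩
  · intro p hp
    obtain ⟨k, -, rfl⟩ := Finset.mem_image.mp hp
    exact hmemE.1 ⟨k, rfl⟩
  · intro h4
    exact hmemE.2 (by rw [mem_zeroLocus, Set.singleton_subset_iff]; exact h4)
  · intro φ hφ hφP hφg
    have hpt : (⟨RingHom.ker φ, RingHom.ker_isPrime φ⟩ : PrimeSpectrum B) ∈ comap C '' s := by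
      rw [← hD]
      simp only [ConstructibleSetData.toSet, Set.mem_iUnion]
      refine ⟨E, hE, ?_, ?_⟩
      · rintro _ ⟨k, rfl⟩
        exact hφP _ (Finset.mem_image_of_mem _ (Finset.mem_univ k))
      · rw [mem_zeroLocus, Set.singleton_subset_iff]
        exact hφg
    obtain ⟨⟨Jz, hJz⟩, hJzs, hJzφ⟩ := hpt
    have hker : ∀ b, C b ∈ Jz ↔ φ b = 0 := by
      intro b
      have := congrArg (fun x : PrimeSpectrum B => b ∈ x.asIdeal) hJzφ
      simpa [RingHom.mem_ker] using this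
    have hkermap : RingHom.ker (mapRingHom φ) ≤ Jz := by
      intro p hp
      rw [RingHom.mem_ker, coe_mapRingHom] at hp
      rw [p.as_sum_range_C_mul_X_pow]
      refine Jz.sum_mem fun k _ => Jz.mul_mem_right _ ?_
      rw [hker]
      have := congrArg (fun q => q.coeff k) hp
      simpa using this
    have hsurj : Function.Surjective (mapRingHom φ) := by
      rw [coe_mapRingHom]
      exact map_surjective φ hφ
    have hprime : (Ideal.map (mapRingHom φ) Jz).IsPrime :=
      Ideal.map_isPrime_of_surjective hsurj hkermap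
    have hiff : ∀ p, mapRingHom φ p ∈ Ideal.map (mapRingHom φ) Jz ↔ p ∈ Jz := by
      intro p
      constructor
      · intro hp
        obtain ⟨q, hq, hqp⟩ := (Ideal.mem_map_iff_of_surjective _ hsurj).mp hp
        have h5 : p - q ∈ Jz := hkermap (by rw [RingHom.mem_ker, map_sub, hqp, sub_self])
        simpa using Jz.add_mem h5 hq
      · exact Ideal.mem_map_of_mem _
    have hWz : W ∈ Jz := hJzs.1 (Finset.mem_insert_self _ _)
    obtain ⟨ξ, hξ⟩ := exists_root_of_prime hprime (hW.map φ) ((hiff W).mpr hWz)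
    have hev : ∀ p : B[X], p ∈ Jz ↔ p.eval₂ φ ξ = 0 := by
      intro p
      rw [← hiff, hξ, coe_mapRingHom, eval_map]
    refine ⟨ξ, (hev W).mp hWz, fun p hp => (hev p).mp (hJzs.1 (Finset.mem_insert_of_mem hp)),
      fun h6 => ?_⟩
    exact hJzs.2 (by rw [mem_zeroLocus, Set.singleton_subset_iff]; exact (hev h).mpr h6)

end Pool.Agent.Lib.MP_af4f85_ag.An
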