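import Pool.Agent.Lib.MP_af4f85_ag.An.Step

/-!
# The Rückert Nullstellensatz
-/

set_option autoImplicit false

open MvPowerSeries Filter Topology
open scoped ENNReal NNReal

namespace Pool.Agent.Lib.MP_af4f85_ag.An

variable {σ : Type*} [Fintype σ]

/-- The linear change of variables `X_j ↦ X_j + c_j X_i`. -/
noncomputable def lin (i : σ) (c : σ → ℂ) : σ → MvPowerSeries σ ℂ := fun j => X j + C (c j) * X i

omit [Fintype σ] in
theorem constantCoeff_lin (i : σ) (c : σ → ℂ) (j : σ) : constantCoeff (lin i c j) = 0 := by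
  simp [lin]

theorem hasSubst_lin (i : σ) (c : σ → ℂ) : HasSubst (lin i c) :=
  hasSubst_of_zero (constantCoeff_lin i c)

theorem lin_neg_lin {i : σ} {c : σ → ℂ} (hc : c i = 0) (f : MvPowerSeries σ ℂ) :
    subst (lin i (-c)) (subst (lin i c) f) = f := by
  rw [subst_comp_subst_apply (hasSubst_lin i c) (hasSubst_lin i (-c))]
  have h1 : (fun s => subst (lin i (-c)) (lin i c s)) = X := by
    ext1 j
    have h2 : ∀ l, subst (lin i (-c)) (X l : MvPowerSeries σ ℂ) = lin i (-c) l := fun l =>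
      subst_X (hasSubst_lin i (-c)) l
    rw [lin, subst_add (hasSubst_lin i (-c)), subst_mul (hasSubst_lin i (-c)), h2, h2]
    have h3 : subst (lin i (-c)) (C (c j) : MvPowerSeries σ ℂ) = C (c j) := subst_C _
    rw [h3]
    simp only [lin, Pi.neg_apply, hc, map_neg, neg_zero, map_zero, zero_mul, add_zero]
    ring
  rw [h1, subst_self]
  rfl

theorem subst_mem_dep {S : Set σ} {G : σ → MvPowerSeries σ ℂ} (hG : HasSubst G)
    (hGS : ∀ j ∈ S, G j ∈ dep S) {F : MvPowerSeries σ ℂ} (hF : F ∈ dep S) :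
    subst G F ∈ dep S := by
  intro ν hν l hl
  by_contra h0
  apply hν
  rw [coeff_subst_tsum hG]
  have h1 : ∀ μ, coeff ν (coeff μ F • mon G μ) = 0 := by
    intro μ
    by_cases h2 : coeff μ F = 0
    · simp [h2]
    · have h3 : mon G μ ∈ dep S := by
        refine (dep S).prod_mem fun j _ => ?_
        by_cases hj : j ∈ S
        · exact (dep S).pow_mem (hGS j hj) _
        · rw [hF μ h2 j hj, pow_zero]
          exact (dep S).one_mem
      rw [map_smul]
      by_contra h4
      exact h0 (h3 ν (fun h5 => h4 (by rw [h5, smul_zero])) l hl)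
  simp only [h1, tsum_zero]

theorem coeff_single_mon_lin (i : σ) {c : σ → ℂ} (hc : c i = 0) [DecidableEq σ] (d : ℕ)
    (μ : σ →₀ ℕ) : coeff (Finsupp.single i d) (mon (lin i c) μ) =
      if μ.degree = d then mon (Function.update c i 1) μ else 0 := by
  let e : Unit ↪ σ := ⟨fun _ => i, fun _ _ _ => rfl⟩
  have h1 : ∀ F : MvPowerSeries σ ℂ, coeff (Finsupp.single i d) F =
      coeff (Finsupp.single () d) (killCompl e F) := by
    intro F
    rw [coeff_killCompl, Finsupp.embDomain_single]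
    rfl
  have h2 : ∀ j, killCompl e (lin i c j) = C (Function.update c i 1 j) * X () := by
    intro j
    have h3 : killCompl e (X i : MvPowerSeries σ ℂ) = X () := killCompl_X (e := e) ()
    rw [lin, map_add, map_mul, h3, killCompl_C]
    by_cases hj : j = i
    · subst hj
      rw [h3, hc]
      simp
    · rw [killCompl_X_eq_zero, Function.update_of_ne hj, zero_add]
      rintro ⟨_, h4⟩
      exact hj h4.symm
  rw [h1]
  have h5 : killCompl e (mon (lin i c) μ) =
      C (mon (Function.update c i 1) μ) * X () ^ μ.degree := by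
    have h6 := map_mon ((killCompl e : MvPowerSeries σ ℂ →ₐ[ℂ] MvPowerSeries Unit ℂ) :
      MvPowerSeries σ ℂ →* MvPowerSeries Unit ℂ) (lin i c) μ
    have h7 := map_mon ((C : ℂ →+* MvPowerSeries Unit ℂ) : ℂ →* MvPowerSeries Unit ℂ)
      (Function.update c i 1) μ
    have h8 : killCompl e (mon (lin i c) μ) =
        mon (fun j => (C (Function.update c i 1 j) * X () : MvPowerSeries Unit ℂ)) μ := by
      refine h6.trans ?_
      congr 1
      ext1 j
      exact h2 j
    rw [h8, mon_mul, mon_const]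
    congr 1
    exact h7.symm
  rw [h5, coeff_C_mul, X_pow_eq, coeff_monomial]
  by_cases h9 : μ.degree = d
  · rw [if_pos (by rw [h9]), if_pos h9, mul_one]
  · rw [if_neg, if_neg h9, mul_zero]
    intro h10
    apply h9
    have := congrArg (fun ν => ν ()) h10
    simpa using this.symm

theorem exists_linear {S : Set σ} {i : σ} (hi : i ∈ S) {f : MvPowerSeries σ ℂ} (hf : f ≠ 0)
    (hfS : f ∈ dep S) : ∃ c : σ → ℂ, c i = 0 ∧ (∀ j ∉ S, c j = 0) ∧
      ∃ d, coeff (Finsupp.single i d) (subst (lin i c) f) ≠ 0 := by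
  classical
  obtain ⟨ν₀, hν₀⟩ : ∃ ν, coeff ν f ≠ 0 := by
    by_contra h
    push Not at h
    exact hf (MvPowerSeries.ext fun ν => by rw [h ν, coeff_zero])
  set d := ν₀.degree with hd
  let p : MvPolynomial σ ℂ := ∑ μ ∈ degSet σ d, MvPolynomial.monomial μ (coeff μ f)
  have hp : p ≠ 0 := by
    intro h
    have h1 := congrArg (MvPolynomial.coeff ν₀) h
    simp only [p, MvPolynomial.coeff_sum, MvPolynomial.coeff_monomial,
      MvPolynomial.coeff_zero] at h1
    rw [Finset.sum_ite_eq', if_pos (mem_degSet.mpr rfl)] at h1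
    exact hν₀ h1
  have hpX : p * MvPolynomial.X i ≠ 0 := mul_ne_zero hp (MvPolynomial.X_ne_zero i)
  obtain ⟨w, hw⟩ : ∃ w, MvPolynomial.eval w (p * MvPolynomial.X i) ≠ 0 := by
    by_contra h
    push Not at h
    exact hpX (MvPolynomial.funext fun w => by rw [h w, map_zero])
  rw [map_mul, MvPolynomial.eval_X] at hw
  have hwp : MvPolynomial.eval w p ≠ 0 := left_ne_zero_of_mul hw
  have hwi : w i ≠ 0 := right_ne_zero_of_mul hw
  let c : σ → ℂ := fun j => if j = i then 0 else if j ∈ S then w j / w i else 0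
  have hci : c i = 0 := by simp [c]
  refine ⟨c, hci, ?_, d, ?_⟩
  · intro j hj
    simp only [c]
    rw [if_neg, if_neg hj]
    rintro rfl
    exact hj hi
  · rw [coeff_subst_tsum (hasSubst_lin i c)]
    have h1 : ∀ μ, coeff (Finsupp.single i d) (coeff μ f • mon (lin i c) μ) =
        if μ.degree = d then (w i)⁻¹ ^ d * (coeff μ f * mon w μ) else 0 := by
      intro μ
      rw [map_smul, coeff_single_mon_lin i hci d μ, smul_eq_mul]
      by_cases h2 : μ.degree = d
      · rw [if_pos h2, if_pos h2]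
        by_cases h3 : coeff μ f = 0
        · simp [h3]
        · have h4 : mon (Function.update c i 1) μ = mon (fun j => (w i)⁻¹ * w j) μ := by
            refine Finset.prod_congr rfl fun j _ => ?_
            by_cases hjS : j ∈ S
            · congr 1
              by_cases hj : j = i
              · subst hj
                simp [hwi]
              · rw [Function.update_of_ne hj]
                simp only [c]
                rw [if_neg hj, if_pos hjS, div_eq_inv_mul]
            · rw [hfS μ h3 j hjS, pow_zero, pow_zero]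
          rw [h4, mon_mul, mon_const, h2]
          ring
      · rw [if_neg h2, if_neg h2, mul_zero]
    simp only [h1]
    rw [tsum_eq_sum (s := degSet σ d) (fun μ hμ => by
      rw [if_neg]
      intro h2
      exact hμ (mem_degSet.mpr h2))]
    have h5 : ∑ μ ∈ degSet σ d, (if μ.degree = d then (w i)⁻¹ ^ d * (coeff μ f * mon w μ) else 0) =
        (w i)⁻¹ ^ d * MvPolynomial.eval w p := by
      simp only [p, map_sum, Finset.mul_sum]
      refine Finset.sum_congr rfl fun μ hμ => ?_
      rw [if_pos (mem_degSet.mp hμ), MvPolynomial.eval_monomial, mon_eq_prod]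
    rw [h5]
    exact mul_ne_zero (pow_ne_zero _ (inv_ne_zero hwi)) hwp

theorem eventually_radius {p : (σ → ℂ) → Prop} (h : ∀ᶠ z in 𝓝 (0 : σ → ℂ), p z) :
    ∃ ρ : ℝ≥0, 0 < ρ ∧ ∀ z : σ → ℂ, (∀ i, ‖z i‖₊ ≤ ρ) → p z := by
  obtain ⟨ε, hε, hp⟩ := Metric.eventually_nhds_iff_ball.mp h
  refine ⟨(ε / 2).toNNReal, Real.toNNReal_pos.mpr (half_pos hε), fun z hz => ?_⟩
  refine hp z ?_
  rw [mem_ball_zero_iff]
  have hz' : ∀ i, ‖z i‖ ≤ ε / 2 := fun i => by
    have := NNReal.coe_le_coe.mpr (hz i)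
    rwa [Real.coe_toNNReal _ (half_pos hε).le, coe_nnnorm] at this
  refine lt_of_le_of_lt ((pi_norm_le_iff_of_nonneg (by positivity)).mpr fun i => ?_)
    (half_lt_self hε)
  exact hz' i

theorem ns_empty : NSProp (∅ : Set σ) := by
  classical
  intro Q hQ u h hu hh hhS hhQ ε hε
  have hconst : ∀ f ∈ dep (∅ : Set σ), f = C (constantCoeff f) := by
    intro f hf
    ext ν
    rw [coeff_C]
    split_ifs with h0
    · rw [h0, coeff_zero_eq_constantCoeff_apply]
    · by_contra h1
      exact h0 (Finsupp.ext fun i => hf ν h1 i (Set.notMem_empty i))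
  refine ⟨0, fun i => by simp, fun f hf => ?_, ?_⟩
  · rw [ev_zero_point]
    by_contra h0
    obtain ⟨-, hfS, hfQ⟩ := hu f hf
    rw [hconst f hfS] at hfQ
    exact hQ.ne_top (Q.eq_top_of_isUnit_mem hfQ ((IsUnit.mk0 _ h0).map C))
  · rw [ev_zero_point]
    intro h0
    apply hhQ
    rw [hconst h hhS, h0, map_zero]
    exact Q.zero_mem

theorem Conv.subst {G : σ → MvPowerSeries σ ℂ} (hG : ∀ i, Conv (G i))
    (h0 : ∀ i, constantCoeff (G i) = 0) {F : MvPowerSeries σ ℂ} (hF : Conv F) :
    Conv (MvPowerSeries.subst G F) :=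
  (Reps.subst (fun i => Conv.reps (hG i)) h0 (Conv.reps hF)).1

theorem conv_lin (i : σ) (c : σ → ℂ) (j : σ) : Conv (lin i c j) :=
  Conv.add (conv_X j) (Conv.mul (conv_C _) (conv_X i))

theorem ev_lin (z : σ → ℂ) (i : σ) (c : σ → ℂ) (j : σ) :
    ev z (lin i c j) = z j + c j * z i := by
  have hX : ∀ j, wn (fun i => ‖z i‖₊) (X j : MvPowerSeries σ ℂ) ≠ ⊤ := fun j => X_mem_B _ j
  have hC : wn (fun i => ‖z i‖₊) (C (c j) : MvPowerSeries σ ℂ) ≠ ⊤ := by simp
  rw [lin, ev_add (hX j) ((B _).mul_mem hC (hX i)), ev_mul hC (hX i)]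
  simp

theorem eventually_ev_subst_lin {F : MvPowerSeries σ ℂ} (hF : Conv F) (i : σ) (c : σ → ℂ) :
    ∀ᶠ z in 𝓝 (0 : σ → ℂ),
      ev z (MvPowerSeries.subst (lin i c) F) = ev (fun j => z j + c j * z i) F := by
  have h1 := Reps.subst (fun j => Conv.reps (conv_lin i c j)) (constantCoeff_lin i c)
    (Conv.reps hF)
  filter_upwards [(reps_iff.mp h1).2] with z hz
  rw [← hz]
  simp only [ev_lin]

theorem ns_step {S : Set σ} {i : σ} (hi : i ∉ S) (ih : NSProp S) : NSProp (insert i S) := by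
  classical
  intro Q hQ u h hu hh hhS hhQ ε hε
  by_cases hex : ∃ f, Conv f ∧ f ∈ dep (insert i S) ∧ f ∈ Q ∧ f ≠ 0
  · obtain ⟨f, hf, hfS, hfQ, hf0⟩ := hex
    obtain ⟨c, hci, hcS, hd⟩ := exists_linear (Set.mem_insert i S) hf0 hfS
    have hsub := hasSubst_lin i c
    have hsub' := hasSubst_lin i (-c)
    let L : MvPowerSeries σ ℂ → MvPowerSeries σ ℂ := MvPowerSeries.subst (lin i c)
    let L' : MvPowerSeries σ ℂ →+* MvPowerSeries σ ℂ :=
      (substAlgHom hsub' : MvPowerSeries σ ℂ →ₐ[ℂ] MvPowerSeries σ ℂ)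
    have hL' : ∀ F, L' F = MvPowerSeries.subst (lin i (-c)) F := fun F => by
      simp only [L', RingHom.coe_coe, coe_substAlgHom]
    have hL'L : ∀ F, L' (L F) = F := fun F => by rw [hL']; exact lin_neg_lin hci F
    let Q' : Ideal (MvPowerSeries σ ℂ) := Q.comap L'
    have hQ' : Q'.IsPrime := Ideal.IsPrime.comap _
    have hLQ : ∀ F, L F ∈ Q' ↔ F ∈ Q := fun F => by
      rw [Ideal.mem_comap, hL'L]
    have hlinS : ∀ j ∈ insert i S, lin i c j ∈ dep (insert i S) := fun j hj =>
      (dep _).add_mem (X_mem_dep hj) ((dep _).mul_mem ((dep _).algebraMap_mem (c j))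
        (X_mem_dep (Set.mem_insert i S)))
    have hLS : ∀ F ∈ dep (insert i S), L F ∈ dep (insert i S) := fun F hF =>
      subst_mem_dep hsub hlinS hF
    have hLc : ∀ F, Conv F → Conv (L F) := fun F hF =>
      Conv.subst (conv_lin i c) (constantCoeff_lin i c) hF
    -- a common radius
    have hev : ∀ᶠ z in 𝓝 (0 : σ → ℂ), ∀ g ∈ insert h u,
        ev z (L g) = ev (fun j => z j + c j * z i) g := by
      rw [Filter.eventually_all_finset]
      intro g hg
      refine eventually_ev_subst_lin ?_ i c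
      rcases Finset.mem_insert.mp hg with rfl | hg
      · exact hh
      · exact (hu g hg).1
    obtain ⟨ρ, hρ, hρ'⟩ := eventually_radius hev
    set M : ℝ≥0 := ∑ j, ‖c j‖₊ with hM
    have hδ : 0 < min ρ (ε / (1 + M)) := lt_min hρ (by positivity)
    obtain ⟨z, hz, hzu, hzh⟩ := ns_regular hi ih hQ' (u := u.image L) (h := L h) (by
        intro g hg
        obtain ⟨g', hg', rfl⟩ := Finset.mem_image.mp hg
        obtain ⟨h1, h2, h3⟩ := hu g' hg'
        exact ⟨hLc _ h1, hLS _ h2, (hLQ _).mpr h3⟩)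
      (hLc _ hh) (hLS _ hhS) (fun h1 => hhQ ((hLQ _).mp h1)) (hLc _ hf) (hLS _ hfS)
      ((hLQ _).mpr hfQ) (d := Nat.find hd) (fun k hk => by simpa using Nat.find_min hd hk)
      (Nat.find_spec hd) hδ
    have hevz := hρ' z fun j => (hz j).trans (min_le_left _ _)
    refine ⟨fun j => z j + c j * z i, fun j => ?_, fun g hg => ?_, ?_⟩
    · calc ‖z j + c j * z i‖₊ ≤ ‖z j‖₊ + ‖c j‖₊ * ‖z i‖₊ :=
            (nnnorm_add_le _ _).trans (by rw [nnnorm_mul])
        _ ≤ ε / (1 + M) + M * (ε / (1 + M)) := by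
            gcongr
            · exact (hz j).trans (min_le_right _ _)
            · exact Finset.single_le_sum (f := fun j => ‖c j‖₊) (fun _ _ => zero_le)
                (Finset.mem_univ j)
            · exact (hz i).trans (min_le_right _ _)
        _ = ε := by field_simp
    · rw [← hevz g (Finset.mem_insert_of_mem hg)]
      exact hzu _ (Finset.mem_image_of_mem _ hg)
    · rw [← hevz h (Finset.mem_insert_self _ _)]
      exact hzh
  · push Not at hex
    have hu0 : ∀ f ∈ u, f = 0 := fun f hf => by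
      obtain ⟨h1, h2, h3⟩ := hu f hf
      exact hex f h1 h2 h3
    have hh0 : h ≠ 0 := by
      rintro rfl
      exact hhQ Q.zero_mem
    by_contra hcon
    push Not at hcon
    refine hh0 (eq_zero_of_ev hh ?_)
    filter_upwards [eventually_le (r := fun _ => ε) fun _ => hε] with z hz
    by_contra h1
    refine h1 (hcon z hz fun f hf => ?_)
    rw [hu0 f hf, ev_zero]

theorem ns_all (S : Finset σ) : NSProp (S : Set σ) := by
  classical
  induction S using Finset.induction_on with
  | empty =>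
    rw [Finset.coe_empty]
    exact ns_empty
  | insert i S hi ih =>
    rw [Finset.coe_insert]
    exact ns_step (by simpa using hi) ih

/-- Rückert Nullstellensatz (formal conclusion). -/
theorem nullstellensatz {q : Type*} [Finite q] {u : q → MvPowerSeries σ ℂ}
    {fu : q → (σ → ℂ) → ℂ} {h : MvPowerSeries σ ℂ} {fh : (σ → ℂ) → ℂ}
    (hu : ∀ i, Reps (u i) (fu i)) (hh : Reps h fh)
    (hz : ∀ᶠ z in 𝓝 (0 : σ → ℂ), (∀ i, fu i z = 0) → fh z = 0) :
    ∃ K : ℕ, h ^ K ∈ Ideal.span (Set.range u) := by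
  classical
  cases nonempty_fintype q
  by_contra hcon
  push Not at hcon
  obtain ⟨Q, hQ, hle, hdisj⟩ := Ideal.exists_le_prime_disjoint (Ideal.span (Set.range u))
    (Submonoid.powers h) (by
      rw [Set.disjoint_left]
      rintro x hx ⟨K, rfl⟩
      exact hcon K hx)
  have hhQ : h ∉ Q := fun h1 => Set.disjoint_left.mp hdisj h1 ⟨1, pow_one h⟩
  have hall : ∀ᶠ z in 𝓝 (0 : σ → ℂ), (∀ i, ev z (u i) = 0) → ev z h = 0 := by
    have h1 : ∀ᶠ z in 𝓝 (0 : σ → ℂ), ∀ i, fu i z = ev z (u i) :=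
      eventually_all.mpr fun i => (reps_iff.mp (hu i)).2
    filter_upwards [hz, h1, (reps_iff.mp hh).2] with z h2 h3 h4 h5
    rw [← h4]
    exact h2 fun i => by rw [h3, h5]
  obtain ⟨ρ, hρ, hρ'⟩ := eventually_radius hall
  obtain ⟨z, h1, h2, h3⟩ := ns_all (Finset.univ : Finset σ) Q hQ (Finset.univ.image u) h (by
    intro f hf
    obtain ⟨i, -, rfl⟩ := Finset.mem_image.mp hf
    refine ⟨(reps_iff.mp (hu i)).1, by rw [Finset.coe_univ]; exact dep_univ _, hle ?_⟩
    exact Ideal.subset_span ⟨i, rfl⟩) (reps_iff.mp hh).1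
    (by rw [Finset.coe_univ]; exact dep_univ _) hhQ ρ hρ
  exact h3 (hρ' z h1 fun i => h2 _ (Finset.mem_image_of_mem _ (Finset.mem_univ i)))

end Pool.Agent.Lib.MP_af4f85_ag.An
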