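import Pool.Agent.Lib.MP_af4f85_ag.An.GDiv
import Pool.Agent.Lib.MP_af4f85_ag.An.NS
import Pool.Agent.Lib.MP_af4f85_ag.PS

/-!
# Finiteness of `ℂ{x}` over `ℂ{ψ}`

Every convergent series in `x` and `y` becomes, after `y ↦ ψ(x)`, a combination of finitely many
monomials in `x` with coefficients convergent series in `ψ`, with norm control.
-/

set_option autoImplicit false
set_option linter.unusedSectionVars false

open MvPowerSeries Filter Topology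
open scoped ENNReal NNReal

namespace Pool.Agent.Lib.MP_af4f85_ag.An

variable {σ τ : Type*} [Fintype σ] [Fintype τ]

omit [Fintype σ] in
theorem exists_pick (N : ℕ) : ∃ p : (σ →₀ ℕ) → (σ →₀ ℕ), ∀ ν, p ν ≤ ν ∧
    (p ν).degree = min ν.degree N := by
  choose p hp using fun ν : σ →₀ ℕ =>
    Finsupp.exists_le_degree_eq ν (min ν.degree N) (min_le_left _ _)
  exact ⟨p, hp⟩

theorem mon_sumElim {M : Type*} [CommMonoid M] (r : σ → M) (r' : τ → M) (κ : σ →₀ ℕ)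
    (μ : τ →₀ ℕ) : mon (Sum.elim r r') (κ.sumElim μ) = mon r κ * mon r' μ := by
  simp [mon, Fintype.prod_sum_type]

/-- The part of an exponent in the left variables. -/
noncomputable def xp (ν : σ ⊕ τ →₀ ℕ) : σ →₀ ℕ :=
  ν.comapDomain Sum.inl Sum.inl_injective.injOn

omit [Fintype σ] [Fintype τ] in
@[simp] theorem xp_apply (ν : σ ⊕ τ →₀ ℕ) (i : σ) : xp ν i = ν (Sum.inl i) := rfl

/-- The inclusion of the power series in the left variables. -/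
noncomputable def inX (F : MvPowerSeries σ ℂ) : MvPowerSeries (σ ⊕ τ) ℂ :=
  subst (fun i => (X (Sum.inl i) : MvPowerSeries (σ ⊕ τ) ℂ)) F

theorem hasSubst_inl : HasSubst (fun i : σ => (X (Sum.inl i) : MvPowerSeries (σ ⊕ τ) ℂ)) :=
  hasSubst_of_zero fun _ => constantCoeff_X _

theorem hasSubst_inr : HasSubst (fun i : τ => (X (Sum.inr i) : MvPowerSeries (σ ⊕ τ) ℂ)) :=
  hasSubst_of_zero fun _ => constantCoeff_X _

theorem wn_inX {r : σ → ℝ≥0} {r' : τ → ℝ≥0} (hr : ∀ i, 0 < r i) (hr' : ∀ i, 0 < r' i)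
    {F : MvPowerSeries σ ℂ} (hF : wn r F ≠ ⊤) :
    wn (Sum.elim r r') (inX (τ := τ) F) ≤ wn r F :=
  wn_subst_le (by rintro (i | i); exacts [hr i, hr' i]) hasSubst_inl (fun i => by simp) hF

variable {ψ : τ → MvPowerSeries σ ℂ}

theorem hasSubst_elim (h0 : ∀ j, constantCoeff (ψ j) = 0) :
    HasSubst (Sum.elim (X : σ → MvPowerSeries σ ℂ) ψ) :=
  hasSubst_of_zero (by rintro (i | i); exacts [constantCoeff_X _, h0 i])

theorem subst_inX (h0 : ∀ j, constantCoeff (ψ j) = 0) (F : MvPowerSeries σ ℂ) :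
    subst (Sum.elim X ψ) (inX (τ := τ) F) = F := by
  rw [inX, subst_comp_subst_apply hasSubst_inl (hasSubst_elim h0)]
  simp_rw [subst_X (hasSubst_elim h0)]
  simp only [Sum.elim_inl]
  have : subst (X : σ → MvPowerSeries σ ℂ) F = F := by
    rw [subst_self]; rfl
  exact this

theorem subst_inr (h0 : ∀ j, constantCoeff (ψ j) = 0) (F : MvPowerSeries τ ℂ) :
    subst (Sum.elim X ψ) (subst (fun j => (X (Sum.inr j) : MvPowerSeries (σ ⊕ τ) ℂ)) F) =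
      subst ψ F := by
  rw [subst_comp_subst_apply hasSubst_inr (hasSubst_elim h0)]
  simp_rw [subst_X (hasSubst_elim h0)]
  simp only [Sum.elim_inr]

omit [Fintype τ] in
theorem monomial_eq_prod' (κ : σ →₀ ℕ) (c : ℂ) :
    (monomial κ c : MvPowerSeries σ ℂ) = algebraMap ℂ _ c * κ.prod fun i e => X i ^ e := by
  have h1 := subst_monomial (R := ℂ) (HasSubst.X (σ := σ) (S := ℂ)) κ c
  have h2 : subst (X : σ → MvPowerSeries σ ℂ) (monomial κ c : MvPowerSeries σ ℂ) =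
      monomial κ c := by
    rw [subst_self]; rfl
  rw [← h2]
  exact h1

theorem subst_monomial_sumElim (h0 : ∀ j, constantCoeff (ψ j) = 0) (κ : σ →₀ ℕ) (c : ℂ) :
    subst (Sum.elim X ψ) (monomial (κ.sumElim 0) c : MvPowerSeries (σ ⊕ τ) ℂ) =
      monomial κ c := by
  rw [subst_monomial (hasSubst_elim h0), Finsupp.prod_sumElim, monomial_eq_prod']
  simp only [Finsupp.prod_zero_index, mul_one]
  rfl

/-- A series which depends only on the right variables. -/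
theorem eq_subst_inr {F : MvPowerSeries (σ ⊕ τ) ℂ}
    (hF : ∀ ν, coeff ν F ≠ 0 → xp ν = 0) {a : MvPowerSeries τ ℂ}
    (ha : ∀ μ, coeff μ a = coeff ((0 : σ →₀ ℕ).sumElim μ) F) :
    F = subst (fun j => (X (Sum.inr j) : MvPowerSeries (σ ⊕ τ) ℂ)) a := by
  classical
  have h0 : ∀ μ : τ →₀ ℕ, (μ.prod fun j e => (X (Sum.inr j) : MvPowerSeries (σ ⊕ τ) ℂ) ^ e) =
      monomial ((0 : σ →₀ ℕ).sumElim μ) 1 := by
    intro μ
    rw [monomial_eq_prod', Finsupp.prod_sumElim]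
    simp [Function.comp_def]
  have hne : ∀ μ μ' : τ →₀ ℕ, (0 : σ →₀ ℕ).sumElim μ = (0 : σ →₀ ℕ).sumElim μ' → μ = μ' := by
    intro μ μ' h
    ext j
    have := DFunLike.congr_fun h (Sum.inr j)
    simpa using this
  ext ν
  rw [coeff_subst hasSubst_inr]
  simp_rw [h0, coeff_monomial]
  by_cases hν : xp ν = 0
  · obtain ⟨μ, rfl⟩ : ∃ μ : τ →₀ ℕ, ν = (0 : σ →₀ ℕ).sumElim μ := by
      refine ⟨ν.comapDomain Sum.inr Sum.inr_injective.injOn, ?_⟩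
      rw [← hν]
      exact (Finsupp.comapDomain_sumElim_comapDomain ν).symm
    rw [finsum_eq_single _ μ]
    · rw [if_pos rfl, ha, smul_eq_mul, mul_one]
    · intro μ' hμ'
      rw [if_neg fun h => hμ' (hne _ _ h).symm, smul_zero]
  · have h1 : coeff ν F = 0 := by
      by_contra h
      exact hν (hF ν h)
    rw [h1, eq_comm]
    refine (finsum_congr fun μ => ?_).trans finsum_zero
    rw [if_neg, smul_zero]
    rintro rfl
    apply hν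
    ext i
    simp

theorem wn_inr_part (r : σ → ℝ≥0) (r' : τ → ℝ≥0) {F : MvPowerSeries (σ ⊕ τ) ℂ}
    {a : MvPowerSeries τ ℂ} (ha : ∀ μ, coeff μ a = coeff ((0 : σ →₀ ℕ).sumElim μ) F) :
    wn r' a ≤ wn (Sum.elim r r') F := by
  have h1 : wn r' a = ∑' μ : τ →₀ ℕ, ((‖coeff ((0 : σ →₀ ℕ).sumElim μ) F‖₊ *
      mon (Sum.elim r r') ((0 : σ →₀ ℕ).sumElim μ) : ℝ≥0) : ℝ≥0∞) := by
    refine tsum_congr fun μ => ?_
    rw [ha, mon_sumElim, mon_zero, one_mul]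
  rw [h1]
  refine ENNReal.tsum_comp_le_tsum_of_injective (f := fun μ : τ →₀ ℕ =>
    (0 : σ →₀ ℕ).sumElim μ) ?_ fun ν => ((‖coeff ν F‖₊ * mon (Sum.elim r r') ν : ℝ≥0) : ℝ≥0∞)
  intro μ μ' h
  ext j
  have := DFunLike.congr_fun h (Sum.inr j)
  simpa using this

/-! ### Choice of the weights -/

theorem wn_le_pow {e : MvPowerSeries σ ℂ} {k : ℕ}
    (hk : ∀ ν, coeff ν e ≠ 0 → k ≤ ν.degree) {ρ ρ₁ : ℝ≥0} (hρ₁ : 0 < ρ₁) (h : ρ ≤ ρ₁) :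
    wn (fun _ => ρ) e ≤ (((ρ / ρ₁) ^ k : ℝ≥0) : ℝ≥0∞) * wn (fun _ => ρ₁) e := by
  refine wn_le_of_mon_le fun ν hν => ?_
  rw [mon_const, mon_const]
  obtain ⟨m, hm⟩ := Nat.exists_eq_add_of_le (hk ν hν)
  rw [hm, pow_add, pow_add, div_pow]
  have h1 : ρ ^ m ≤ ρ₁ ^ m := pow_le_pow_left' h m
  have h2 : ρ₁ ^ k ≠ 0 := by positivity
  calc ρ ^ k * ρ ^ m ≤ ρ ^ k * ρ₁ ^ m := by gcongr
    _ = ρ ^ k / ρ₁ ^ k * (ρ₁ ^ k * ρ₁ ^ m) := by field_simp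

theorem exists_rho_single {e : MvPowerSeries σ ℂ} (he : Conv e) {k : ℕ}
    (hk : ∀ ν, coeff ν e ≠ 0 → k + 1 ≤ ν.degree) {η : ℝ≥0} (hη : 0 < η) :
    ∃ ρ₀ : ℝ≥0, 0 < ρ₀ ∧ ∀ ρ ≤ ρ₀, 0 < ρ → wn (fun _ => ρ) e / (ρ : ℝ≥0∞) ^ k ≤ η := by
  obtain ⟨ρ₁, hρ₁, h1⟩ := Conv.exists_wn he
  obtain ⟨C, hC⟩ : ∃ C : ℝ≥0, (C : ℝ≥0∞) = wn (fun _ => ρ₁) e := ⟨_, ENNReal.coe_toNNReal h1⟩
  refine ⟨min ρ₁ (η * ρ₁ ^ (k + 1) / (C + 1)), lt_min hρ₁ (by positivity), fun ρ hρ hρ0 => ?_⟩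
  have h2 := wn_le_pow hk hρ₁ (hρ.trans (min_le_left _ _))
  rw [← hC, ← ENNReal.coe_mul] at h2
  rw [ENNReal.div_le_iff (by positivity) (ENNReal.pow_ne_top ENNReal.coe_ne_top)]
  refine h2.trans ?_
  rw [← ENNReal.coe_pow, ← ENNReal.coe_mul, ENNReal.coe_le_coe]
  have h3 : ρ ≤ η * ρ₁ ^ (k + 1) / (C + 1) := hρ.trans (min_le_right _ _)
  calc (ρ / ρ₁) ^ (k + 1) * C ≤ (ρ / ρ₁) ^ (k + 1) * (C + 1) := by
        gcongr; exact le_self_add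
    _ = ρ * (C + 1) / ρ₁ ^ (k + 1) * ρ ^ k := by
        rw [div_pow, pow_succ ρ]; field_simp
    _ ≤ (η * ρ₁ ^ (k + 1) / (C + 1)) * (C + 1) / ρ₁ ^ (k + 1) * ρ ^ k := by gcongr
    _ = η * ρ ^ k := by field_simp

theorem exists_rho {ι : Type*} (s : Finset ι) {e : ι → MvPowerSeries σ ℂ} {k : ι → ℕ}
    (he : ∀ i ∈ s, Conv (e i)) (hk : ∀ i ∈ s, ∀ ν, coeff ν (e i) ≠ 0 → k i + 1 ≤ ν.degree) :
    ∃ ρ₀ : ℝ≥0, 0 < ρ₀ ∧ ∀ ρ ≤ ρ₀, 0 < ρ →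
      ∑ i ∈ s, wn (fun _ => ρ) (e i) / (ρ : ℝ≥0∞) ^ k i ≤ 4⁻¹ := by
  classical
  obtain ⟨ρ₀, hρ₀, h⟩ := exists_radius (ι := s)
    (P := fun i ρ => 0 < ρ → wn (fun _ => ρ) (e i) / (ρ : ℝ≥0∞) ^ k i ≤
      ((4⁻¹ / (s.card + 1) : ℝ≥0) : ℝ≥0∞)) fun i => by
        obtain ⟨ρ₀, h1, h2⟩ := exists_rho_single (he i i.2) (hk i i.2)
          (η := 4⁻¹ / (s.card + 1)) (by positivity)
        exact ⟨ρ₀, h1, h2⟩
  refine ⟨ρ₀, hρ₀, fun ρ hρ hρ0 => ?_⟩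
  calc ∑ i ∈ s, wn (fun _ => ρ) (e i) / (ρ : ℝ≥0∞) ^ k i
      ≤ ∑ i ∈ s, ((4⁻¹ / (s.card + 1) : ℝ≥0) : ℝ≥0∞) :=
        Finset.sum_le_sum fun i hi => h ρ hρ ⟨i, hi⟩ hρ0
    _ = ((s.card * (4⁻¹ / (s.card + 1)) : ℝ≥0) : ℝ≥0∞) := by
        rw [Finset.sum_const, nsmul_eq_mul, ENNReal.coe_mul, ENNReal.coe_natCast]
    _ ≤ ((4⁻¹ : ℝ≥0) : ℝ≥0∞) := by
        rw [ENNReal.coe_le_coe]
        calc (s.card : ℝ≥0) * (4⁻¹ / (s.card + 1)) ≤ (s.card + 1) * (4⁻¹ / (s.card + 1)) := by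
              gcongr; exact le_self_add
          _ = 4⁻¹ := by field_simp
    _ = 4⁻¹ := by
        rw [ENNReal.coe_inv (by norm_num)]
        norm_num

theorem exists_eps {C : ℝ≥0∞} (hC : C ≠ ⊤) :
    ∃ ε₀ : ℝ≥0, 0 < ε₀ ∧ ∀ ε ≤ ε₀, C * (ε : ℝ≥0∞) ≤ 4⁻¹ := by
  obtain ⟨c, rfl⟩ : ∃ c : ℝ≥0, (c : ℝ≥0∞) = C := ⟨_, ENNReal.coe_toNNReal hC⟩
  refine ⟨4⁻¹ / (c + 1), by positivity, fun ε hε => ?_⟩
  have : (4⁻¹ : ℝ≥0∞) = ((4⁻¹ : ℝ≥0) : ℝ≥0∞) := by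
    rw [ENNReal.coe_inv (by norm_num)]
    norm_num
  rw [this, ← ENNReal.coe_mul, ENNReal.coe_le_coe]
  calc c * ε ≤ (c + 1) * (4⁻¹ / (c + 1)) := by gcongr; exact le_self_add
    _ = 4⁻¹ := by field_simp

/-! ### The finite division theorem -/

theorem conv_coe (p : MvPolynomial σ ℂ) : Conv (p : MvPowerSeries σ ℂ) := by
  induction p using MvPolynomial.induction_on with
  | C a =>
    rw [MvPolynomial.coe_C]
    exact conv_C a
  | add p q hp hq =>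
    rw [MvPolynomial.coe_add]
    exact Conv.add hp hq
  | mul_X p i hp =>
    rw [MvPolynomial.coe_mul, MvPolynomial.coe_X]
    exact Conv.mul hp (conv_X i)

theorem exists_data (hψ : ∀ j, Conv (ψ j)) {N : ℕ}
    (hN : mm σ ℂ ^ N ≤ Ideal.span (Set.range ψ)) (Λ : Finset (σ →₀ ℕ))
    (hΛ : ∀ F : MvPowerSeries σ ℂ, ∃ c : (σ →₀ ℕ) → ℂ,
      F - ∑ α ∈ Λ, monomial α (c α) ∈ Ideal.span (Set.range ψ)) (κ : σ →₀ ℕ) :
    ∃ (c : (σ →₀ ℕ) → ℂ) (d : τ → MvPowerSeries σ ℂ) (e : MvPowerSeries σ ℂ),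
      (N ≤ κ.degree → c = 0) ∧ (∀ j, Conv (d j)) ∧ Conv e ∧
      (∀ ν, coeff ν e ≠ 0 → N + 1 ≤ ν.degree) ∧
      monomial κ 1 - (∑ j, d j * ψ j + e) = ∑ α ∈ Λ, monomial α (c α) := by
  classical
  obtain ⟨c, hc0, hc⟩ : ∃ c : (σ →₀ ℕ) → ℂ, (N ≤ κ.degree → c = 0) ∧
      monomial κ 1 - ∑ α ∈ Λ, monomial α (c α) ∈ Ideal.span (Set.range ψ) := by
    by_cases h : N ≤ κ.degree
    · refine ⟨0, fun _ => rfl, ?_⟩
      have h1 : ∑ α ∈ Λ, monomial α ((0 : (σ →₀ ℕ) → ℂ) α) = (0 : MvPowerSeries σ ℂ) := by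
        simp
      rw [h1, sub_zero]
      apply hN
      rw [mem_mm_pow_iff]
      intro γ hγ
      rw [coeff_monomial_ne]
      rintro rfl
      omega
    · obtain ⟨c, hc⟩ := hΛ (monomial κ 1)
      exact ⟨c, fun h' => (h h').elim, hc⟩
  obtain ⟨d₀, hd₀⟩ := Ideal.mem_span_range_iff_exists_fun.mp hc
  refine ⟨c, fun j => (truncTotal (N + 1) (d₀ j) : MvPolynomial σ ℂ),
    ∑ j, (d₀ j - (truncTotal (N + 1) (d₀ j) : MvPolynomial σ ℂ)) * ψ j, hc0,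
    fun j => conv_coe _, ?_, ?_, ?_⟩
  · have h1 : ∑ j, (d₀ j - (truncTotal (N + 1) (d₀ j) : MvPolynomial σ ℂ)) * ψ j =
        (monomial κ 1 - ∑ α ∈ Λ, monomial α (c α)) -
          ∑ j, (truncTotal (N + 1) (d₀ j) : MvPolynomial σ ℂ) * ψ j := by
      rw [← hd₀, ← Finset.sum_sub_distrib]
      exact Finset.sum_congr rfl fun j _ => by ring
    rw [h1]
    have h2 : (monomial κ 1 - ∑ α ∈ Λ, monomial α (c α)) -
          ∑ j, (truncTotal (N + 1) (d₀ j) : MvPolynomial σ ℂ) * ψ j ∈ convRing σ := by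
      refine (convRing σ).sub_mem ((convRing σ).sub_mem (conv_monomial _ _)
        ((convRing σ).sum_mem fun α _ => conv_monomial _ _))
        ((convRing σ).sum_mem fun j _ => (convRing σ).mul_mem (conv_coe _) (hψ j))
    exact h2
  · intro ν hν
    by_contra h
    refine hν ?_
    have h3 : ∑ j, (d₀ j - (truncTotal (N + 1) (d₀ j) : MvPolynomial σ ℂ)) * ψ j ∈
        mm σ ℂ ^ (N + 1) :=
      Ideal.sum_mem _ fun j _ => Ideal.mul_mem_right _ _ (sub_truncTotal_mem _ _)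
    exact mem_mm_pow_iff.mp h3 ν (by omega)
  · have h4 : ∑ j, (truncTotal (N + 1) (d₀ j) : MvPolynomial σ ℂ) * ψ j +
        ∑ j, (d₀ j - (truncTotal (N + 1) (d₀ j) : MvPolynomial σ ℂ)) * ψ j =
        ∑ j, d₀ j * ψ j := by
      rw [← Finset.sum_add_distrib]
      exact Finset.sum_congr rfl fun j _ => by ring
    rw [h4, hd₀]
    ring

theorem finite_division_aux (hψ : ∀ j, Conv (ψ j)) (h0 : ∀ j, constantCoeff (ψ j) = 0) {N : ℕ}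
    (hN : mm σ ℂ ^ N ≤ Ideal.span (Set.range ψ)) (Λ : Finset (σ →₀ ℕ))
    (hΛ : ∀ F : MvPowerSeries σ ℂ, ∃ c : (σ →₀ ℕ) → ℂ,
      F - ∑ α ∈ Λ, monomial α (c α) ∈ Ideal.span (Set.range ψ)) :
    ∃ ρ₀ : ℝ≥0, 0 < ρ₀ ∧ ∀ ρ ≤ ρ₀, 0 < ρ → ∃ ε₀ : ℝ≥0, 0 < ε₀ ∧ ∀ ε ≤ ε₀, 0 < ε →
      ∀ G : MvPowerSeries (σ ⊕ τ) ℂ, wn (Sum.elim (fun _ => ρ) (fun _ => ε)) G ≠ ⊤ →
      ∃ a : (σ →₀ ℕ) → MvPowerSeries τ ℂ, (∀ α, wn (fun _ => ε) (a α) ≠ ⊤) ∧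
        subst (Sum.elim X ψ) G = ∑ α ∈ Λ, subst ψ (a α) * monomial α 1 := by
  classical
  choose c d e hc0 hd he hek hcde using exists_data hψ hN Λ hΛ
  obtain ⟨p, hp⟩ := exists_pick (σ := σ) N
  obtain ⟨E₀, hE₀⟩ : ∃ E₀ : Finset (σ →₀ ℕ), ∀ κ, κ ∈ E₀ ↔ κ.degree < N + 1 :=
    ⟨(Finsupp.finite_of_degree_lt (N + 1)).toFinset, fun κ => by simp⟩
  obtain ⟨ρ₁, hρ₁, h1⟩ := exists_radius (ι := E₀ × τ)
    (P := fun i ρ => wn (fun _ => ρ) (d i.1 i.2) ≠ ⊤) fun i => by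
      obtain ⟨ρ₁, h1, h2⟩ := Conv.eventually (hd i.1 i.2)
      exact ⟨ρ₁, h1, fun ρ hρ => h2 (fun _ => ρ) fun _ => hρ⟩
  obtain ⟨ρ₂, hρ₂, h2⟩ := exists_rho E₀ (e := e) (k := fun κ => κ.degree) (fun κ _ => he κ)
    (fun κ hκ ν hν => by
      have := hek κ ν hν
      have := (hE₀ κ).mp hκ
      omega)
  refine ⟨min ρ₁ ρ₂, lt_min hρ₁ hρ₂, fun ρ hρ hρ0 => ?_⟩
  have h1' := h1 ρ (hρ.trans (min_le_left _ _))
  have h2' := h2 ρ (hρ.trans (min_le_right _ _)) hρ0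
  have hρk : ∀ k : ℕ, (ρ : ℝ≥0∞) ^ k ≠ 0 := fun k => by positivity
  have he' : ∀ κ ∈ E₀, wn (fun _ => ρ) (e κ) ≠ ⊤ := by
    intro κ hκ h
    have h3 := (Finset.single_le_sum (f := fun κ => wn (fun _ => ρ) (e κ) /
      (ρ : ℝ≥0∞) ^ κ.degree) (fun _ _ => zero_le) hκ).trans h2'
    rw [h, ENNReal.top_div_of_ne_top (ENNReal.pow_ne_top ENNReal.coe_ne_top)] at h3
    simp at h3
  have hC : ∑ κ ∈ E₀, (∑ j, wn (fun _ => ρ) (d κ j)) / (ρ : ℝ≥0∞) ^ κ.degree ≠ ⊤ := by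
    refine ENNReal.sum_ne_top.mpr fun κ hκ => ENNReal.div_ne_top ?_ (hρk _)
    exact ENNReal.sum_ne_top.mpr fun j _ => h1' ⟨⟨κ, hκ⟩, j⟩
  obtain ⟨ε₀, hε₀, h3⟩ := exists_eps hC
  refine ⟨ε₀, hε₀, fun ε hε hε0 G hG => ?_⟩
  have h3' := h3 ε hε
  obtain ⟨Q, hQ⟩ : ∃ Q : (σ →₀ ℕ) → MvPowerSeries (σ ⊕ τ) ℂ, ∀ κ, Q κ =
      ∑ j, inX (τ := τ) (d κ j) * X (Sum.inr j) + inX (e κ) := ⟨_, fun _ => rfl⟩
  have hr : ∀ i : σ ⊕ τ, 0 < Sum.elim (fun _ => ρ) (fun _ => ε) i := by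
    rintro (i | i)
    exacts [hρ0, hε0]
  have hQn : ∀ κ ∈ E₀, wn (Sum.elim (fun _ => ρ) (fun _ => ε)) (Q κ) ≤
      (∑ j, wn (fun _ => ρ) (d κ j)) * ε + wn (fun _ => ρ) (e κ) := by
    intro κ hκ
    rw [hQ]
    refine (wn_add_le _ _ _).trans (add_le_add ((wn_sum_le _ _ _).trans ?_)
      (wn_inX (fun _ => hρ0) (fun _ => hε0) (he' κ hκ)))
    rw [Finset.sum_mul]
    refine Finset.sum_le_sum fun j _ => (wn_mul_le _ _ _).trans ?_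
    rw [wn_X, Sum.elim_inr]
    gcongr
    exact wn_inX (fun _ => hρ0) (fun _ => hε0) (h1' ⟨⟨κ, hκ⟩, j⟩)
  have hinj : Function.Injective fun κ : σ →₀ ℕ => κ.sumElim (0 : τ →₀ ℕ) := by
    intro κ κ' h
    ext i
    have := DFunLike.congr_fun h (Sum.inl i)
    simpa using this
  have hxp : ∀ κ : σ →₀ ℕ, xp (κ.sumElim (0 : τ →₀ ℕ)) = κ := by
    intro κ
    ext i
    simp
  obtain ⟨pp, hpp⟩ : ∃ pp : (σ ⊕ τ →₀ ℕ) → (σ ⊕ τ →₀ ℕ), ∀ ν, pp ν =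
      (p (xp ν)).sumElim 0 := ⟨_, fun _ => rfl⟩
  obtain ⟨H, hH, hGH⟩ := exists_gdiv pp (E₀.image fun κ => κ.sumElim (0 : τ →₀ ℕ))
    (fun ν => by
      rw [hpp]
      rintro (i | i)
      · exact (hp (xp ν)).1 i
      · exact Nat.zero_le _)
    (fun ν => by
      rw [hpp]
      refine Finset.mem_image_of_mem _ ((hE₀ _).mpr ?_)
      have := (hp (xp ν)).2
      have := min_le_right (xp ν).degree N
      omega)
    (fun ν => Q (xp ν)) hr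
    (by
      rw [Finset.sum_image hinj.injOn]
      simp only [hxp]
      calc ∑ κ ∈ E₀, wn (Sum.elim (fun _ => ρ) (fun _ => ε)) (Q κ) /
            ((mon (Sum.elim (fun _ => ρ) (fun _ => ε)) (κ.sumElim (0 : τ →₀ ℕ)) : ℝ≥0) : ℝ≥0∞)
          ≤ ∑ κ ∈ E₀, ((∑ j, wn (fun _ => ρ) (d κ j)) / (ρ : ℝ≥0∞) ^ κ.degree * ε +
              wn (fun _ => ρ) (e κ) / (ρ : ℝ≥0∞) ^ κ.degree) := by
            refine Finset.sum_le_sum fun κ hκ => ?_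
            rw [mon_sumElim, mon_const, mon_zero, mul_one, ENNReal.coe_pow]
            refine (ENNReal.div_le_div_right (hQn κ hκ) _).trans (le_of_eq ?_)
            rw [ENNReal.add_div]
            congr 1
            rw [div_eq_mul_inv, div_eq_mul_inv]
            ring
        _ ≤ 4⁻¹ + 4⁻¹ := by
            rw [Finset.sum_add_distrib, ← Finset.sum_mul]
            exact add_le_add h3' h2'
        _ = 2⁻¹ := by
            rw [← two_mul, show (4 : ℝ≥0∞) = 2 * 2 by norm_num,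
              ENNReal.mul_inv (Or.inl (by norm_num)) (Or.inl (by norm_num)), ← mul_assoc,
              ENNReal.mul_inv_cancel (by norm_num) (by norm_num), one_mul]) hG
  obtain ⟨b, hb⟩ : ∃ b : (σ →₀ ℕ) → MvPowerSeries τ ℂ, ∀ κ μ, coeff μ (b κ) =
      coeff ((0 : σ →₀ ℕ).sumElim μ) (part pp (κ.sumElim 0) H) :=
    ⟨fun κ μ => coeff ((0 : σ →₀ ℕ).sumElim μ) (part pp (κ.sumElim 0) H), fun _ _ => rfl⟩
  have hS := hasSubst_elim h0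
  have hSψ := hasSubst_of_zero h0
  have hbn : ∀ κ, wn (fun _ => ε) (b κ) ≠ ⊤ := fun κ =>
    ne_top_of_le_ne_top (wn_part_ne_top pp hr _ hH) (wn_inr_part (fun _ => ρ) (fun _ => ε) (hb κ))
  have hpart : ∀ κ : σ →₀ ℕ, κ.degree < N →
      subst (Sum.elim X ψ) (part pp (κ.sumElim 0) H) = subst ψ (b κ) := by
    intro κ hκ
    rw [← subst_inr h0 (b κ)]
    congr 1
    refine eq_subst_inr (fun ν hν => ?_) (hb κ)
    rw [coeff_part] at hν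
    have h5 : pp (ν + κ.sumElim 0) = κ.sumElim 0 := by
      by_contra h
      rw [if_neg h] at hν
      exact hν rfl
    rw [hpp] at h5
    have h6 : xp (ν + κ.sumElim (0 : τ →₀ ℕ)) = xp ν + κ := by
      ext i
      simp
    have h7 := hinj h5
    rw [h6] at h7
    have h8 := (hp (xp ν + κ)).2
    rw [h7, map_add] at h8
    rw [← Finsupp.degree_eq_zero_iff]
    rcases min_choice ((xp ν).degree + κ.degree) N with h9 | h9 <;> omega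
  refine ⟨fun α => ∑ κ ∈ E₀, c κ α • b κ, fun α => ?_, ?_⟩
  · refine ne_top_of_le_ne_top ?_ (wn_sum_le _ _ _)
    refine ENNReal.sum_ne_top.mpr fun κ _ => ?_
    rw [wn_smul]
    exact ENNReal.mul_ne_top ENNReal.coe_ne_top (hbn κ)
  · rw [hGH, ← coe_substAlgHom hS, map_sum, Finset.sum_image hinj.injOn]
    simp only [hxp, map_mul, map_sub]
    have h10 : ∀ κ ∈ E₀, substAlgHom (R := ℂ) hS (part pp (κ.sumElim 0) H) *
        (substAlgHom (R := ℂ) hS (monomial (κ.sumElim 0) (1 : ℂ)) -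
          substAlgHom (R := ℂ) hS (Q κ)) =
        ∑ α ∈ Λ, substAlgHom (R := ℂ) hSψ (c κ α • b κ) * monomial α (1 : ℂ) := by
      intro κ hκ
      have h11 : substAlgHom (R := ℂ) hS (monomial (κ.sumElim 0) (1 : ℂ)) -
          substAlgHom (R := ℂ) hS (Q κ) = ∑ α ∈ Λ, monomial α (c κ α) := by
        rw [← hcde κ, hQ, map_add, map_sum]
        simp only [map_mul, coe_substAlgHom]
        rw [subst_monomial_sumElim h0, subst_inX h0]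
        simp only [subst_inX h0, subst_X hS, Sum.elim_inr]
      rw [h11]
      rcases lt_or_ge κ.degree N with h12 | h12
      · rw [Finset.mul_sum]
        refine Finset.sum_congr rfl fun α _ => ?_
        rw [map_smul, coe_substAlgHom, coe_substAlgHom, hpart κ h12, smul_mul_assoc,
          ← mul_smul_comm, ← map_smul, smul_eq_mul, mul_one]
      · rw [hc0 κ h12]
        simp only [Pi.zero_apply, map_zero, zero_smul, Finset.sum_const_zero, mul_zero, zero_mul]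
    rw [Finset.sum_congr rfl h10, Finset.sum_comm]
    refine Finset.sum_congr rfl fun α _ => ?_
    rw [← Finset.sum_mul, ← map_sum, coe_substAlgHom]

theorem exists_mm_pow_le (hprim : ∀ l : σ, ∃ K : ℕ, (X l : MvPowerSeries σ ℂ) ^ K ∈
    Ideal.span (Set.range ψ)) : ∃ N : ℕ, mm σ ℂ ^ N ≤ Ideal.span (Set.range ψ) := by
  refine Ideal.exists_pow_le_of_le_radical_of_fg ?_ ?_
  · unfold mm
    rw [Ideal.span_le]
    rintro _ ⟨l, rfl⟩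
    exact hprim l
  · exact ⟨(Set.finite_range X).toFinset, by simp [mm]⟩

/-- Finiteness of `ℂ{x}` over `ℂ{ψ}`. -/
theorem finite_division (hψ : ∀ j, Conv (ψ j)) (h0 : ∀ j, constantCoeff (ψ j) = 0)
    (hprim : ∀ l : σ, ∃ K : ℕ, (X l : MvPowerSeries σ ℂ) ^ K ∈ Ideal.span (Set.range ψ))
    (Λ : Finset (σ →₀ ℕ))
    (hΛ : ∀ F : MvPowerSeries σ ℂ, ∃ c : (σ →₀ ℕ) → ℂ,
      F - ∑ α ∈ Λ, monomial α (c α) ∈ Ideal.span (Set.range ψ))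
    {G : MvPowerSeries σ ℂ} (hG : Conv G) :
    ∃ a : (σ →₀ ℕ) → MvPowerSeries τ ℂ, (∀ α, Conv (a α)) ∧
      G = ∑ α ∈ Λ, subst ψ (a α) * monomial α 1 := by
  obtain ⟨N, hN⟩ := exists_mm_pow_le hprim
  obtain ⟨ρ₀, hρ₀, h1⟩ := finite_division_aux hψ h0 hN Λ hΛ
  obtain ⟨ρ₁, hρ₁, h2⟩ := Conv.eventually hG
  have hρ : 0 < min ρ₀ ρ₁ := lt_min hρ₀ hρ₁
  obtain ⟨ε, hε, h3⟩ := h1 (min ρ₀ ρ₁) (min_le_left _ _) hρ
  have h4 := h2 (fun _ => min ρ₀ ρ₁) fun _ => min_le_right _ _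
  obtain ⟨a, ha, ha'⟩ := h3 ε le_rfl hε (inX G)
    (ne_top_of_le_ne_top h4 (wn_inX (fun _ => hρ) (fun _ => hε) h4))
  rw [subst_inX h0] at ha'
  exact ⟨a, fun α => conv_of_wn (fun _ => hε) (ha α), ha'⟩

end Pool.Agent.Lib.MP_af4f85_ag.An
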