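import Pool.Agent.Lib.MP_af4f85_ag.An.Division

/-!
# Division by finitely many perturbed monomials
-/

set_option autoImplicit false

open MvPowerSeries Filter Topology
open scoped ENNReal NNReal

namespace Pool.Agent.Lib.MP_af4f85_ag.An

variable {S : Type*} [Fintype S]

section Part

variable (p : (S →₀ ℕ) → (S →₀ ℕ))

open Classical in
/-- The part of `G` with `p ν = κ`, divided by `X ^ κ` (auxiliary). -/
noncomputable def partFun (κ : S →₀ ℕ) (G : MvPowerSeries S ℂ) : MvPowerSeries S ℂ :=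
  fun ν => if p (ν + κ) = κ then coeff (ν + κ) G else 0

omit [Fintype S] in
open Classical in
theorem coeff_partFun (κ : S →₀ ℕ) (G : MvPowerSeries S ℂ) (ν : S →₀ ℕ) :
    coeff ν (partFun p κ G) = if p (ν + κ) = κ then coeff (ν + κ) G else 0 := rfl

/-- The part of `G` with `p ν = κ`, divided by `X ^ κ`. -/
noncomputable def part (κ : S →₀ ℕ) : MvPowerSeries S ℂ →ₗ[ℂ] MvPowerSeries S ℂ where
  toFun := partFun p κ
  map_add' F G := by
    ext ν
    rw [map_add, coeff_partFun, coeff_partFun, coeff_partFun]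
    split_ifs
    · rw [map_add]
    · rw [add_zero]
  map_smul' c F := by
    ext ν
    rw [RingHom.id_apply, map_smul, coeff_partFun, coeff_partFun]
    split_ifs
    · rw [map_smul]
    · rw [smul_zero]

omit [Fintype S] in
open Classical in
theorem coeff_part (κ : S →₀ ℕ) (G : MvPowerSeries S ℂ) (ν : S →₀ ℕ) :
    coeff ν (part p κ G) = if p (ν + κ) = κ then coeff (ν + κ) G else 0 := rfl

theorem wn_part_le (r : S → ℝ≥0) (κ : S →₀ ℕ) (G : MvPowerSeries S ℂ) :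
    wn r (part p κ G) * (mon r κ : ℝ≥0) ≤ wn r G := by
  classical
  calc wn r (part p κ G) * (mon r κ : ℝ≥0)
      = ∑' ν, ((‖coeff ν (part p κ G)‖₊ * mon r (ν + κ) : ℝ≥0) : ℝ≥0∞) := by
        rw [wn, ← ENNReal.tsum_mul_right]
        refine tsum_congr fun ν => ?_
        rw [mon_add, ← ENNReal.coe_mul, mul_assoc]
    _ ≤ ∑' ν, ((‖coeff (ν + κ) G‖₊ * mon r (ν + κ) : ℝ≥0) : ℝ≥0∞) := by
        refine ENNReal.tsum_le_tsum fun ν => ?_
        rw [ENNReal.coe_le_coe]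
        gcongr
        rw [coeff_part]
        split_ifs <;> simp
    _ ≤ wn r G := ENNReal.tsum_comp_le_tsum_of_injective
          (f := fun ν => ν + κ) (add_left_injective _)
          fun ν => ((‖coeff ν G‖₊ * mon r ν : ℝ≥0) : ℝ≥0∞)

theorem wn_part_ne_top {r : S → ℝ≥0} (hr : ∀ i, 0 < r i) (κ : S →₀ ℕ)
    {G : MvPowerSeries S ℂ} (hG : wn r G ≠ ⊤) : wn r (part p κ G) ≠ ⊤ := by
  intro h
  have h1 := wn_part_le p r κ G
  rw [h, ENNReal.top_mul (by exact_mod_cast (mon_pos hr κ).ne')] at h1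
  exact hG (top_le_iff.mp h1)

omit [Fintype S] in
theorem part_split (E : Finset (S →₀ ℕ)) (hp : ∀ ν, p ν ≤ ν) (hE : ∀ ν, p ν ∈ E)
    (G : MvPowerSeries S ℂ) : G = ∑ κ ∈ E, part p κ G * monomial κ 1 := by
  classical
  ext ν
  have h1 : ∀ κ ∈ E, coeff ν (part p κ G * monomial κ 1) =
      if p ν = κ then coeff ν G else 0 := by
    intro κ _
    rw [coeff_mul_monomial]
    by_cases h2 : κ ≤ ν
    · rw [if_pos h2, coeff_part, tsub_add_cancel_of_le h2, mul_one]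
    · rw [if_neg h2, if_neg]
      rintro rfl
      exact h2 (hp ν)
  rw [map_sum, Finset.sum_congr rfl h1, Finset.sum_ite_eq, if_pos (hE ν)]

end Part

/-- Division by `X ^ κ - Q κ`, `κ ∈ E`. -/
theorem exists_gdiv (p : (S →₀ ℕ) → (S →₀ ℕ)) (E : Finset (S →₀ ℕ)) (hp : ∀ ν, p ν ≤ ν)
    (hE : ∀ ν, p ν ∈ E) (Q : (S →₀ ℕ) → MvPowerSeries S ℂ)
    {r : S → ℝ≥0} (hr : ∀ i, 0 < r i)
    (hQ : ∑ κ ∈ E, wn r (Q κ) / ((mon r κ : ℝ≥0) : ℝ≥0∞) ≤ 2⁻¹)
    {G : MvPowerSeries S ℂ} (hG : wn r G ≠ ⊤) :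
    ∃ H, wn r H ≠ ⊤ ∧ G = ∑ κ ∈ E, part p κ H * (monomial κ 1 - Q κ) := by
  classical
  obtain ⟨T, hTapp⟩ : ∃ T : MvPowerSeries S ℂ →ₗ[ℂ] MvPowerSeries S ℂ,
      ∀ F, T F = ∑ κ ∈ E, part p κ F * Q κ := by
    refine ⟨∑ κ ∈ E, (LinearMap.mulRight ℂ (Q κ)).comp (part p κ), fun F => ?_⟩
    simp [LinearMap.sum_apply]
  have hri : ∀ κ : S →₀ ℕ, ((mon r κ : ℝ≥0) : ℝ≥0∞) ≠ 0 := fun κ => by
    exact_mod_cast (mon_pos hr κ).ne'
  have hT : ∀ F, wn r (T F) ≤ wn r F / 2 := by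
    intro F
    rw [hTapp]
    calc wn r (∑ κ ∈ E, part p κ F * Q κ) ≤ ∑ κ ∈ E, wn r (part p κ F * Q κ) := wn_sum_le _ _ _
      _ ≤ ∑ κ ∈ E, wn r F * (wn r (Q κ) / ((mon r κ : ℝ≥0) : ℝ≥0∞)) := by
          refine Finset.sum_le_sum fun κ _ => (wn_mul_le _ _ _).trans ?_
          have h1 : wn r (part p κ F) ≤ wn r F / ((mon r κ : ℝ≥0) : ℝ≥0∞) := by
            rw [ENNReal.le_div_iff_mul_le (Or.inl (hri κ)) (Or.inl ENNReal.coe_ne_top)]
            exact wn_part_le p r κ F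
          calc wn r (part p κ F) * wn r (Q κ)
              ≤ wn r F / ((mon r κ : ℝ≥0) : ℝ≥0∞) * wn r (Q κ) := by gcongr
            _ = _ := by
                rw [ENNReal.div_eq_inv_mul, ENNReal.div_eq_inv_mul]
                ring
      _ = wn r F * ∑ κ ∈ E, (wn r (Q κ) / ((mon r κ : ℝ≥0) : ℝ≥0∞)) := by rw [Finset.mul_sum]
      _ ≤ wn r F * 2⁻¹ := by gcongr
      _ = wn r F / 2 := by rw [ENNReal.div_eq_inv_mul, mul_comm]
  obtain ⟨H, hH, hH', -⟩ := exists_fix hr T hT G hG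
  refine ⟨H, ne_top_of_le_ne_top (ENNReal.mul_ne_top (by simp) hG) hH', ?_⟩
  calc G = (∑ κ ∈ E, part p κ H * monomial κ 1) - ∑ κ ∈ E, part p κ H * Q κ := by
        rw [← part_split p E hp hE H, ← hTapp, hH]
    _ = _ := by
        rw [← Finset.sum_sub_distrib]
        exact Finset.sum_congr rfl fun κ _ => by ring

end Pool.Agent.Lib.MP_af4f85_ag.An
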