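import Pool.Agent.Lib.MP_af4f85_ag.An.Finite
import Pool.Agent.Lib.MP_af4f85_ag.T1

/-!
# Finite holomorphic maps are open
-/

set_option autoImplicit false

open MvPowerSeries Filter Topology
open scoped ENNReal NNReal

namespace Pool.Agent.Lib.MP_af4f85_ag.An

/-- Extension of characters along injective integral extensions. -/
theorem exists_character {R S : Type*} [CommRing R] [CommRing S] [Algebra ℂ R] [Algebra ℂ S]
    (φ : R →ₐ[ℂ] S) (hinj : Function.Injective φ) (hφ : φ.toRingHom.IsIntegral)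
    (w : R →ₐ[ℂ] ℂ) : ∃ χ : S →ₐ[ℂ] ℂ, ∀ c, χ (φ c) = w c := by
  let := φ.toRingHom.toAlgebra
  have hRS : Algebra.IsIntegral R S := ⟨hφ⟩
  have hmap : ∀ c, algebraMap R S c = φ c := fun c => rfl
  have hw : Function.Surjective w := fun c => ⟨algebraMap ℂ R c, w.commutes c⟩
  have hP : (RingHom.ker w).IsMaximal := RingHom.ker_isMaximal_of_surjective w hw
  obtain ⟨Q, hQ, hQP⟩ := Ideal.exists_ideal_over_maximal_of_isIntegral (S := S) (RingHom.ker w) (by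
    have : RingHom.ker (algebraMap R S) = ⊥ := (RingHom.injective_iff_ker_eq_bot _).mp hinj
    rw [this]
    exact bot_le)
  have hkey : ∀ c : R, algebraMap ℂ (S ⧸ Q) (w c) = Ideal.Quotient.mk Q (φ c) := by
    intro c
    have h1 : algebraMap ℂ R (w c) - c ∈ RingHom.ker w := by
      rw [RingHom.mem_ker, map_sub, sub_eq_zero]
      exact w.commutes _
    rw [← hQP, Ideal.mem_comap, map_sub, hmap, hmap, AlgHom.commutes] at h1
    have h2 := Ideal.Quotient.eq.mpr h1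
    exact h2
  have hint : Algebra.IsIntegral ℂ (S ⧸ Q) := by
    constructor
    intro x
    obtain ⟨y, rfl⟩ := Ideal.Quotient.mk_surjective x
    obtain ⟨p, hp, hp'⟩ := hφ y
    refine ⟨p.map (w : R →+* ℂ), hp.map _, ?_⟩
    rw [Polynomial.eval₂_map]
    have h3 : (algebraMap ℂ (S ⧸ Q)).comp (w : R →+* ℂ) =
        (Ideal.Quotient.mk Q).comp (φ.toRingHom : R →+* S) := RingHom.ext hkey
    rw [h3, ← Polynomial.hom_eval₂, hp', map_zero]
  have hbij := IsAlgClosed.algebraMap_bijective_of_isIntegral (k := ℂ) (K := S ⧸ Q)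
  let e : ℂ ≃ₐ[ℂ] (S ⧸ Q) := AlgEquiv.ofBijective (Algebra.ofId ℂ (S ⧸ Q)) hbij
  refine ⟨e.symm.toAlgHom.comp (Ideal.Quotient.mkₐ ℂ Q), fun c => ?_⟩
  have h4 : (e.symm : (S ⧸ Q) → ℂ) (Ideal.Quotient.mk Q (φ c)) = w c := by
    rw [← hkey]
    exact e.symm_apply_apply (w c)
  exact h4

section Character

variable {σ : Type*} [Fintype σ] {r : σ → ℝ≥0}

theorem nnnorm_character_le (hr : ∀ i, 0 < r i) (χ : B r →ₐ[ℂ] ℂ) (F : B r) :
    (‖χ F‖₊ : ℝ≥0∞) ≤ wn r (F : MvPowerSeries σ ℂ) := by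
  by_contra hcon
  rw [not_le] at hcon
  have hF : wn r (F : MvPowerSeries σ ℂ) ≠ ⊤ := F.2
  obtain ⟨a, ha⟩ : ∃ a : ℝ≥0, (a : ℝ≥0∞) = wn r (F : MvPowerSeries σ ℂ) :=
    ⟨_, ENNReal.coe_toNNReal hF⟩
  rw [← ha, ENNReal.coe_lt_coe] at hcon
  have h0 : χ F ≠ 0 := by
    intro h
    rw [h, nnnorm_zero] at hcon
    exact not_lt_zero hcon
  obtain ⟨G, hG⟩ : ∃ G : B r, G = (χ F)⁻¹ • F := ⟨_, rfl⟩
  have hG1 : χ G = 1 := by
    rw [hG, map_smul, smul_eq_mul, inv_mul_cancel₀ h0]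
  have hGn : wn r (G : MvPowerSeries σ ℂ) = ((‖χ F‖₊⁻¹ * a : ℝ≥0) : ℝ≥0∞) := by
    rw [hG]
    change wn r ((χ F)⁻¹ • (F : MvPowerSeries σ ℂ)) = _
    rw [wn_smul, ← ha, nnnorm_inv, ENNReal.coe_mul]
  have hlt : ‖χ F‖₊⁻¹ * a < 1 := by
    have h1 : 0 < ‖χ F‖₊ := by
      rw [pos_iff_ne_zero]
      simpa using h0
    rw [inv_mul_lt_iff₀ h1, mul_one]
    exact hcon
  obtain ⟨n, hn⟩ := exists_pow_lt_of_lt_one (show (0 : ℝ≥0) < 2⁻¹ by norm_num) hlt
  obtain ⟨H, hH, hH', -⟩ := exists_fix hr (LinearMap.mulLeft ℂ ((G : MvPowerSeries σ ℂ) ^ n))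
    (fun K => by
      rw [LinearMap.mulLeft_apply]
      refine (wn_mul_le _ _ _).trans ?_
      rw [ENNReal.div_eq_inv_mul]
      gcongr
      refine (wn_pow_le _ _ _).trans ?_
      rw [hGn, ← ENNReal.coe_pow, show (2⁻¹ : ℝ≥0∞) = ((2⁻¹ : ℝ≥0) : ℝ≥0∞) by
        rw [ENNReal.coe_inv (by norm_num)]; norm_num, ENNReal.coe_le_coe]
      exact hn.le) 1 (by simp)
  rw [LinearMap.mulLeft_apply] at hH
  have hHB : H ∈ B r := ne_top_of_le_ne_top (by simp) hH'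
  have h2 : (⟨H, hHB⟩ : B r) - G ^ n * ⟨H, hHB⟩ = 1 := Subtype.ext hH
  have h3 := congrArg χ h2
  rw [map_sub, map_mul, map_pow, hG1, one_pow, one_mul, sub_self, map_one] at h3
  exact zero_ne_one h3

/-- Every character of `B r` is the evaluation at a point of the polydisc. -/
theorem character_eq_ev (hr : ∀ i, 0 < r i) (χ : B r →ₐ[ℂ] ℂ) :
    ∃ ξ : σ → ℂ, (∀ i, ‖ξ i‖₊ ≤ r i) ∧ (∀ i, ξ i = χ ⟨X i, X_mem_B r i⟩) ∧
      ∀ F : B r, χ F = ev ξ (F : MvPowerSeries σ ℂ) := by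
  classical
  have hξ : ∀ i, ‖χ ⟨X i, X_mem_B r i⟩‖₊ ≤ r i := by
    intro i
    have := nnnorm_character_le hr χ ⟨X i, X_mem_B r i⟩
    simp only [wn_X] at this
    exact_mod_cast this
  refine ⟨fun i => χ ⟨X i, X_mem_B r i⟩, hξ, fun _ => rfl, fun F => ?_⟩
  have hmon : ∀ (ν : σ →₀ ℕ) (c : ℂ), χ ⟨monomial ν c, monomial_mem_B r ν c⟩ =
      c * mon (fun i => χ ⟨X i, X_mem_B r i⟩) ν := by
    intro ν c
    have h1 : (⟨monomial ν c, monomial_mem_B r ν c⟩ : B r) =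
        c • mon (fun i => (⟨X i, X_mem_B r i⟩ : B r)) ν := by
      apply Subtype.ext
      change monomial ν c = c • ((mon (fun i => (⟨X i, X_mem_B r i⟩ : B r)) ν : B r) :
        MvPowerSeries σ ℂ)
      have h2 := map_mon ((B r).val : B r →* MvPowerSeries σ ℂ)
        (fun i => (⟨X i, X_mem_B r i⟩ : B r)) ν
      have h3 : ((mon (fun i => (⟨X i, X_mem_B r i⟩ : B r)) ν : B r) :
        MvPowerSeries σ ℂ) = mon (fun i => (X i : MvPowerSeries σ ℂ)) ν := h2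
      rw [h3, monomial_eq_prod', mon_eq_prod, Algebra.smul_def]
    rw [h1, map_smul, smul_eq_mul]
    congr 1
    exact map_mon (χ : B r →* ℂ) (fun i => (⟨X i, X_mem_B r i⟩ : B r)) ν
  have hsum : HasSum (fun ν : σ →₀ ℕ => coeff ν (F : MvPowerSeries σ ℂ) *
      mon (fun i => χ ⟨X i, X_mem_B r i⟩) ν) (χ F) := by
    rw [HasSum]
    simp only [SummationFilter.unconditional_filter]
    rw [tendsto_iff_edist_tendsto_0]
    have hlim := ENNReal.tendsto_tsum_compl_atTop_zero (f := fun ν : σ →₀ ℕ =>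
      ((‖coeff ν (F : MvPowerSeries σ ℂ)‖₊ * mon r ν : ℝ≥0) : ℝ≥0∞)) F.2
    refine tendsto_of_tendsto_of_tendsto_of_le_of_le tendsto_const_nhds hlim
      (fun _ => zero_le) fun s => ?_
    obtain ⟨Fs, hFs⟩ : ∃ Fs : B r, Fs = ∑ ν ∈ s, (⟨monomial ν (coeff ν (F : MvPowerSeries σ ℂ)),
      monomial_mem_B r ν _⟩ : B r) := ⟨_, rfl⟩
    have h4 : χ Fs = ∑ ν ∈ s, coeff ν (F : MvPowerSeries σ ℂ) *
        mon (fun i => χ ⟨X i, X_mem_B r i⟩) ν := by
      rw [hFs, map_sum]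
      exact Finset.sum_congr rfl fun ν _ => hmon ν _
    change edist (∑ ν ∈ s, coeff ν (F : MvPowerSeries σ ℂ) *
        mon (fun i => χ ⟨X i, X_mem_B r i⟩) ν) (χ F) ≤ _
    rw [← h4, edist_comm, edist_eq_enorm_sub, ← map_sub]
    refine (nnnorm_character_le hr χ (F - Fs)).trans ?_
    have h5 : ∀ ν, coeff ν ((F - Fs : B r) : MvPowerSeries σ ℂ) =
        if ν ∈ s then 0 else coeff ν (F : MvPowerSeries σ ℂ) := by
      intro ν
      have h6 : ((F - Fs : B r) : MvPowerSeries σ ℂ) = (F : MvPowerSeries σ ℂ) -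
          ∑ μ ∈ s, monomial μ (coeff μ (F : MvPowerSeries σ ℂ)) := by
        rw [hFs]
        push_cast
        rfl
      rw [h6, map_sub, map_sum]
      simp_rw [coeff_monomial]
      rw [Finset.sum_ite_eq]
      split_ifs <;> simp
    refine le_of_eq ?_
    refine Eq.trans ?_ (tsum_subtype {ν : σ →₀ ℕ | ν ∉ s} fun ν : σ →₀ ℕ =>
      ((‖coeff ν (F : MvPowerSeries σ ℂ)‖₊ * mon r ν : ℝ≥0) : ℝ≥0∞)).symm
    refine tsum_congr fun ν => ?_
    rw [h5]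
    by_cases hν : ν ∈ s
    · rw [if_pos hν, Set.indicator_of_notMem (by simpa using hν)]
      simp
    · rw [if_neg hν, Set.indicator_of_mem (by simpa using hν)]
  exact hsum.unique (hasSum_ev (ne_top_of_le hξ F.2))

end Character

/-! ### Openness -/

section Open

variable {σ : Type*} [Fintype σ] [DecidableEq σ]

theorem subst_injective {ψ : σ → MvPowerSeries σ ℂ} (h0 : ∀ i, constantCoeff (ψ i) = 0)
    (hf : Prim ψ) : Function.Injective (sh ψ h0) := by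
  obtain ⟨-, hfree, -⟩ := T1 ψ h0 hf
  have h1 : Function.Injective (algebraMap (MvPowerSeries σ ℂ) (SubA ψ h0)) :=
    FaithfulSMul.algebraMap_injective _ _
  intro a b hab
  apply h1
  rw [algebraMap_subA, algebraMap_subA, hab]

/-- finite holomorphic maps are open -/
theorem finite_map_open {g : σ → (σ → ℂ) → ℂ} (hg : ∀ i, AnalyticAt ℂ (g i) 0)
    (h0 : ∀ i, g i 0 = 0) (hz : ∀ᶠ z in 𝓝[≠] (0 : σ → ℂ), (fun i => g i z) ≠ 0)
    {U : Set (σ → ℂ)} (hU : U ∈ 𝓝 (0 : σ → ℂ)) :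
    (fun z => fun i => g i z) '' U ∈ 𝓝 (0 : σ → ℂ) := by
  classical
  choose ψ hψ using fun i => exists_reps (hg i)
  have hψ' := fun i => reps_iff.mp (hψ i)
  have hψ0 : ∀ i, constantCoeff (ψ i) = 0 := fun i => by
    rw [(hψ i).constantCoeff, h0]
  have hprim : ∀ l : σ, ∃ K : ℕ, (X l : MvPowerSeries σ ℂ) ^ K ∈ Ideal.span (Set.range ψ) := by
    intro l
    refine nullstellensatz hψ (reps_X l) ?_
    rw [eventually_nhdsWithin_iff] at hz
    filter_upwards [hz] with z h1 h2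
    by_contra h3
    refine h1 ?_ (funext h2)
    rintro rfl
    exact h3 rfl
  obtain ⟨N, hN⟩ := exists_mm_pow_le hprim
  have hinj := subst_injective hψ0 ⟨N, hN⟩
  obtain ⟨Λ, hΛ⟩ : ∃ Λ : Finset (σ →₀ ℕ), ∀ κ, κ ∈ Λ ↔ κ.degree < N :=
    ⟨(Finsupp.finite_of_degree_lt N).toFinset, fun κ => by simp⟩
  obtain ⟨ρ₀, hρ₀, h1⟩ := finite_division_aux (fun i => (hψ' i).1) hψ0 hN Λ (fun F => by
    refine ⟨fun α => coeff α F, hN ?_⟩
    rw [mem_mm_pow_iff]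
    intro γ hγ
    rw [map_sub, map_sum]
    simp_rw [coeff_monomial]
    rw [Finset.sum_ite_eq, if_pos ((hΛ γ).mpr hγ), sub_self])
  obtain ⟨ρ₁, hρ₁, h2⟩ := exists_radius (ι := σ) (P := fun i ρ => wn (fun _ => ρ) (ψ i) ≠ ⊤)
    fun i => by
      obtain ⟨ρ₁, h1, h2⟩ := Conv.eventually (hψ' i).1
      exact ⟨ρ₁, h1, fun ρ hρ => h2 (fun _ => ρ) fun _ => hρ⟩
  have hall : ∀ᶠ z in 𝓝 (0 : σ → ℂ), z ∈ U ∧ ∀ i, g i z = ev z (ψ i) :=
    Filter.Eventually.and hU (eventually_all.mpr fun i => (hψ' i).2)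
  obtain ⟨ρ₂, hρ₂, h3⟩ := eventually_radius hall
  obtain ⟨ρ, hρ, hρ0, hρ1, hρ2⟩ : ∃ ρ : ℝ≥0, 0 < ρ ∧ ρ ≤ ρ₀ ∧ ρ ≤ ρ₁ ∧ ρ ≤ ρ₂ :=
    ⟨min ρ₀ (min ρ₁ ρ₂), lt_min hρ₀ (lt_min hρ₁ hρ₂), min_le_left _ _,
      (min_le_right _ _).trans (min_le_left _ _), (min_le_right _ _).trans (min_le_right _ _)⟩
  obtain ⟨ε, hε, h4⟩ := h1 ρ hρ0 hρ
  have h5 := h4 ε le_rfl hε
  have h6 := h2 ρ hρ1
  have hr : ∀ i : σ ⊕ σ, 0 < Sum.elim (fun _ => ρ) (fun _ => ε) i := by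
    rintro (i | i)
    exacts [hρ, hε]
  have hS := hasSubst_elim hψ0
  have hSψ := hasSubst_of_zero hψ0
  -- the rings
  obtain ⟨s, hs⟩ : ∃ s : B (Sum.elim (fun _ : σ => ρ) (fun _ : σ => ε)) →ₐ[ℂ]
      MvPowerSeries σ ℂ, ∀ G, s G = subst (Sum.elim X ψ) (G : MvPowerSeries (σ ⊕ σ) ℂ) :=
    ⟨(substAlgHom hS).comp (B _).val, fun G => by simp⟩
  have hinY : ∀ c : B (fun _ : σ => ε), subst (fun j => (X (Sum.inr j) :
      MvPowerSeries (σ ⊕ σ) ℂ)) (c : MvPowerSeries σ ℂ) ∈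
        B (Sum.elim (fun _ : σ => ρ) (fun _ : σ => ε)) := by
    intro c
    exact ne_top_of_le_ne_top c.2 (wn_subst_le hr hasSubst_inr (fun i => by simp) c.2)
  obtain ⟨φ, hφ⟩ : ∃ φ : B (fun _ : σ => ε) →ₐ[ℂ] s.range, ∀ c, (φ c : MvPowerSeries σ ℂ) =
      subst ψ (c : MvPowerSeries σ ℂ) := by
    refine ⟨AlgHom.codRestrict ((substAlgHom hSψ).comp (B _).val) s.range fun c => ?_,
      fun c => by simp⟩
    refine ⟨⟨_, hinY c⟩, ?_⟩
    change s _ = _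
    rw [hs, subst_inr hψ0]
    simp
  have hφinj : Function.Injective φ := by
    intro a b hab
    have h7 := congrArg (fun x : s.range => (x : MvPowerSeries σ ℂ)) hab
    simp only [hφ] at h7
    apply Subtype.ext
    apply hinj
    rw [sh_apply, sh_apply]
    exact h7
  have hmem : ∀ α : σ →₀ ℕ, (monomial α 1 : MvPowerSeries σ ℂ) ∈ s.range := by
    intro α
    refine ⟨⟨monomial (α.sumElim 0) 1, monomial_mem_B _ _ _⟩, ?_⟩
    change s _ = _
    rw [hs]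
    exact subst_monomial_sumElim hψ0 α 1
  have hφint : φ.toRingHom.IsIntegral := by
    let := φ.toRingHom.toAlgebra
    have hsmul : ∀ (c : B (fun _ : σ => ε)) (x : s.range), c • x = φ c * x := fun c x => rfl
    have hfin : Module.Finite (B (fun _ : σ => ε)) s.range := by
      refine Module.Finite.of_surjective (Fintype.linearCombination (B (fun _ : σ => ε))
        (fun α : Λ => (⟨monomial α.1 1, hmem α.1⟩ : s.range))) ?_
      rintro ⟨_, ⟨G, rfl⟩⟩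
      obtain ⟨a, ha, ha'⟩ := h5 G G.2
      refine ⟨fun α => ⟨a α.1, ha α.1⟩, ?_⟩
      apply Subtype.ext
      rw [Fintype.linearCombination_apply]
      simp only [hsmul]
      push_cast
      simp only [hφ]
      change _ = s _
      rw [hs, ha', Finset.sum_coe_sort Λ (fun α => subst ψ (a α) * monomial α (1 : ℂ))]
    have : Algebra.IsIntegral (B (fun _ : σ => ε)) s.range := inferInstance
    exact this.isIntegral
  -- the image contains a polydisc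
  have hpoly : ∀ᶠ w in 𝓝 (0 : σ → ℂ), ∀ i, ‖w i‖₊ ≤ ε := eventually_le (r := fun _ => ε) fun _ => hε
  filter_upwards [hpoly] with w hw
  obtain ⟨χ, hχ⟩ := exists_character φ hφinj hφint (evHom (r := fun _ => ε) w hw)
  obtain ⟨ξ, hξ1, -, hξ3⟩ := character_eq_ev hr (χ.comp s.rangeRestrict)
  refine ⟨fun i => ξ (Sum.inl i), (h3 _ fun i => (hξ1 (Sum.inl i)).trans hρ2).1, ?_⟩
  funext j
  change g j (fun i => ξ (Sum.inl i)) = w j
  rw [(h3 _ fun i => (hξ1 (Sum.inl i)).trans hρ2).2 j]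
  have hG1 : inX (ψ j) ∈ B (Sum.elim (fun _ : σ => ρ) (fun _ : σ => ε)) :=
    ne_top_of_le_ne_top (h6 j) (wn_inX (fun _ => hρ) (fun _ => hε) (h6 j))
  have h8 := hξ3 ⟨inX (ψ j), hG1⟩
  have h9 : ev ξ (inX (ψ j)) = ev (fun i => ξ (Sum.inl i)) (ψ j) := by
    unfold inX
    rw [ev_subst hasSubst_inl (r := Sum.elim (fun _ : σ => ρ) (fun _ : σ => ε))
      (s := fun _ => ρ) (fun i => by simp) (h6 j) hξ1]
    simp
  have h10 : s.rangeRestrict ⟨inX (ψ j), hG1⟩ = φ ⟨X j, X_mem_B _ j⟩ := by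
    apply Subtype.ext
    rw [hφ]
    change s ⟨inX (ψ j), hG1⟩ = _
    rw [hs, subst_inX hψ0, subst_X hSψ]
  rw [AlgHom.comp_apply, h10, hχ] at h8
  rw [← h9, ← h8, evHom_apply, ev_X]

end Open

end Pool.Agent.Lib.MP_af4f85_ag.An
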