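import Pool.Agent.Lib.MP_af4f85_ag.An.Basic

/-!
# Convergent power series and the analytic functions they represent
-/

set_option autoImplicit false

open MvPowerSeries Filter Topology
open scoped ENNReal NNReal

namespace Pool.Agent.Lib.MP_af4f85_ag

/-- The formal power series `F` converges in some polydisc. -/
def Conv {σ : Type*} (F : MvPowerSeries σ ℂ) : Prop :=
  ∃ ρ : ℝ, 0 < ρ ∧ Summable fun ν : σ →₀ ℕ => ‖coeff ν F‖ * ρ ^ ν.degree

/-- `F` is the (absolutely convergent) Taylor series of `f` at `0`. -/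
def Reps {σ : Type*} [Fintype σ] (F : MvPowerSeries σ ℂ) (f : (σ → ℂ) → ℂ) : Prop :=
  Conv F ∧ ∀ᶠ z in 𝓝 (0 : σ → ℂ),
    HasSum (fun ν : σ →₀ ℕ => coeff ν F * ν.prod fun i e => z i ^ e) (f z)

namespace An

variable {σ : Type*} [Fintype σ]

theorem exists_pos_le (r : σ → ℝ≥0) (hr : ∀ i, 0 < r i) : ∃ ρ : ℝ≥0, 0 < ρ ∧ ∀ i, ρ ≤ r i := by
  rcases isEmpty_or_nonempty σ with h | h
  · exact ⟨1, one_pos, fun i => (h.false i).elim⟩
  · obtain ⟨i, hi⟩ := Finite.exists_min r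
    exact ⟨r i, hr i, hi⟩

theorem wn_const_ne_top_iff (ρ : ℝ≥0) (F : MvPowerSeries σ ℂ) :
    wn (fun _ => ρ) F ≠ ⊤ ↔ Summable fun ν : σ →₀ ℕ => ‖coeff ν F‖ * (ρ : ℝ) ^ ν.degree := by
  rw [wn, ENNReal.tsum_coe_ne_top_iff_summable, ← NNReal.summable_coe]
  simp only [NNReal.coe_mul, coe_nnnorm, mon_const, NNReal.coe_pow]

theorem conv_of_wn {r : σ → ℝ≥0} (hr : ∀ i, 0 < r i) {F : MvPowerSeries σ ℂ}
    (h : wn r F ≠ ⊤) : Conv F := by
  obtain ⟨ρ, hρ, hρr⟩ := exists_pos_le r hr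
  exact ⟨ρ, by exact_mod_cast hρ,
    (wn_const_ne_top_iff ρ F).mp (ne_top_of_le_ne_top h (wn_mono hρr F))⟩

theorem Conv.exists_wn {F : MvPowerSeries σ ℂ} (h : Conv F) :
    ∃ ρ : ℝ≥0, 0 < ρ ∧ wn (fun _ => ρ) F ≠ ⊤ := by
  obtain ⟨ρ, hρ, hs⟩ := h
  lift ρ to ℝ≥0 using hρ.le
  exact ⟨ρ, by exact_mod_cast hρ, (wn_const_ne_top_iff ρ F).mpr hs⟩

/-- For a convergent series the weighted norm is finite for all small enough radii. -/
theorem Conv.eventually {F : MvPowerSeries σ ℂ} (h : Conv F) :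
    ∃ ρ : ℝ≥0, 0 < ρ ∧ ∀ r : σ → ℝ≥0, (∀ i, r i ≤ ρ) → wn r F ≠ ⊤ := by
  obtain ⟨ρ, hρ, hs⟩ := Conv.exists_wn h
  exact ⟨ρ, hρ, fun r hr => ne_top_of_le_ne_top hs (wn_mono hr F)⟩

theorem eventually_le {r : σ → ℝ≥0} (hr : ∀ i, 0 < r i) :
    ∀ᶠ z in 𝓝 (0 : σ → ℂ), ∀ i, ‖z i‖₊ ≤ r i := by
  rw [eventually_all]
  intro i
  have h1 : Tendsto (fun z : σ → ℂ => ‖z i‖₊) (𝓝 0) (𝓝 0) := by
    have : Continuous fun z : σ → ℂ => ‖z i‖₊ := by fun_prop
    simpa using this.tendsto 0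
  exact (h1.eventually (gt_mem_nhds (hr i))).mono fun z hz => hz.le

theorem Conv.eventually_wn {F : MvPowerSeries σ ℂ} (h : Conv F) :
    ∀ᶠ z in 𝓝 (0 : σ → ℂ), wn (fun i => ‖z i‖₊) F ≠ ⊤ := by
  obtain ⟨ρ, hρ, hs⟩ := Conv.eventually h
  exact (eventually_le (r := fun _ => ρ) fun _ => hρ).mono fun z hz => hs _ hz

theorem reps_iff {F : MvPowerSeries σ ℂ} {f : (σ → ℂ) → ℂ} :
    Reps F f ↔ Conv F ∧ ∀ᶠ z in 𝓝 (0 : σ → ℂ), f z = ev z F := by
  unfold Reps
  simp only [← mon_eq_prod]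
  constructor
  · rintro ⟨h1, h2⟩
    refine ⟨h1, ?_⟩
    filter_upwards [h2] with z hz
    exact hz.tsum_eq.symm
  · rintro ⟨h1, h2⟩
    refine ⟨h1, ?_⟩
    filter_upwards [h2, Conv.eventually_wn h1] with z hz hw
    rw [hz]
    exact hasSum_ev hw

theorem Conv.reps {F : MvPowerSeries σ ℂ} (h : Conv F) : Reps F (fun z => ev z F) :=
  reps_iff.mpr ⟨h, Eventually.of_forall fun _ => rfl⟩

theorem Conv.add {F G : MvPowerSeries σ ℂ} (hF : Conv F) (hG : Conv G) : Conv (F + G) := by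
  obtain ⟨ρ, hρ, h1⟩ := Conv.eventually hF
  obtain ⟨ρ', hρ', h2⟩ := Conv.eventually hG
  refine conv_of_wn (r := fun _ => min ρ ρ') (fun _ => lt_min hρ hρ') ?_
  exact (B _).add_mem (h1 _ fun _ => min_le_left _ _) (h2 _ fun _ => min_le_right _ _)

theorem Conv.mul {F G : MvPowerSeries σ ℂ} (hF : Conv F) (hG : Conv G) : Conv (F * G) := by
  obtain ⟨ρ, hρ, h1⟩ := Conv.eventually hF
  obtain ⟨ρ', hρ', h2⟩ := Conv.eventually hG
  refine conv_of_wn (r := fun _ => min ρ ρ') (fun _ => lt_min hρ hρ') ?_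
  exact (B _).mul_mem (h1 _ fun _ => min_le_left _ _) (h2 _ fun _ => min_le_right _ _)

theorem conv_monomial (ν : σ →₀ ℕ) (c : ℂ) : Conv (monomial ν c : MvPowerSeries σ ℂ) :=
  conv_of_wn (r := fun _ => 1) (fun _ => one_pos) (monomial_mem_B _ _ _)

theorem conv_C (c : ℂ) : Conv (C c : MvPowerSeries σ ℂ) := conv_monomial 0 c

theorem conv_X (i : σ) : Conv (X i : MvPowerSeries σ ℂ) := conv_monomial _ 1

/-- The ring of convergent power series. -/
noncomputable def convRing (σ : Type*) [Fintype σ] : Subalgebra ℂ (MvPowerSeries σ ℂ) where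
  carrier := {F | Conv F}
  mul_mem' := Conv.mul
  add_mem' := Conv.add
  algebraMap_mem' c := conv_C c

theorem mem_convRing {F : MvPowerSeries σ ℂ} : F ∈ convRing σ ↔ Conv F := Iff.rfl

theorem _root_.Pool.Agent.Lib.MP_af4f85_ag.Reps.add {f g : (σ → ℂ) → ℂ} {F G : MvPowerSeries σ ℂ}
    (hf : Reps F f) (hg : Reps G g) : Reps (F + G) (fun z => f z + g z) := by
  rw [reps_iff] at *
  refine ⟨Conv.add hf.1 hg.1, ?_⟩
  filter_upwards [hf.2, hg.2, Conv.eventually_wn hf.1, Conv.eventually_wn hg.1] with z h1 h2 h3 h4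
  rw [h1, h2, ev_add h3 h4]

theorem _root_.Pool.Agent.Lib.MP_af4f85_ag.Reps.mul {f g : (σ → ℂ) → ℂ} {F G : MvPowerSeries σ ℂ}
    (hf : Reps F f) (hg : Reps G g) : Reps (F * G) (fun z => f z * g z) := by
  rw [reps_iff] at *
  refine ⟨Conv.mul hf.1 hg.1, ?_⟩
  filter_upwards [hf.2, hg.2, Conv.eventually_wn hf.1, Conv.eventually_wn hg.1] with z h1 h2 h3 h4
  rw [h1, h2, ev_mul h3 h4]

theorem reps_C (c : ℂ) : Reps (C c : MvPowerSeries σ ℂ) (fun _ => c) :=
  reps_iff.mpr ⟨conv_C c, Eventually.of_forall fun z => (ev_C z c).symm⟩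

theorem reps_X (i : σ) : Reps (X i : MvPowerSeries σ ℂ) (fun z => z i) :=
  reps_iff.mpr ⟨conv_X i, Eventually.of_forall fun z => (ev_X z i).symm⟩

theorem _root_.Pool.Agent.Lib.MP_af4f85_ag.Reps.constantCoeff {f : (σ → ℂ) → ℂ}
    {F : MvPowerSeries σ ℂ} (h : Reps F f) : MvPowerSeries.constantCoeff F = f 0 := by
  rw [reps_iff] at h
  rw [h.2.self_of_nhds, ev_zero_point]

/-! ### Analyticity -/

/-- A word with content `ν`. -/
theorem exists_word (n : ℕ) : ∀ ν : σ →₀ ℕ, ν.degree = n →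
    ∃ w : Fin n → σ, ∀ z : σ → ℂ, ∏ k, z (w k) = mon z ν := by
  classical
  induction n with
  | zero =>
    intro ν h
    rw [Finsupp.degree_eq_zero_iff] at h
    subst h
    exact ⟨Fin.elim0, fun z => by simp⟩
  | succ n ih =>
    intro ν h
    obtain ⟨i, hi⟩ : ∃ i, ν i ≠ 0 := by
      by_contra h'
      have : ν = 0 := Finsupp.ext fun i => by simpa using not_exists.mp h' i
      subst this
      simp at h
    have h1 : ν = (ν - Finsupp.single i 1) + Finsupp.single i 1 := by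
      rw [tsub_add_cancel_of_le]
      rw [Finsupp.single_le_iff]
      omega
    obtain ⟨w, hw⟩ := ih (ν - Finsupp.single i 1) (by
      rw [h1, map_add, Finsupp.degree_single] at h
      omega)
    refine ⟨Fin.cons i w, fun z => ?_⟩
    rw [Fin.prod_univ_succ, h1, mon_add, mon_single, pow_one, mul_comm]
    simp only [Fin.cons_zero, Fin.cons_succ]
    rw [hw]

/-- The multilinear map whose diagonal is the monomial `z ^ ν`. -/
noncomputable def monMap (n : ℕ) (ν : σ →₀ ℕ) :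
    ContinuousMultilinearMap ℂ (fun _ : Fin n => (σ → ℂ)) ℂ :=
  if h : ν.degree = n then
    (ContinuousMultilinearMap.mkPiAlgebraFin ℂ n ℂ).compContinuousLinearMap
      fun k => ContinuousLinearMap.proj ((exists_word n ν h).choose k)
  else 0

theorem monMap_apply (n : ℕ) (ν : σ →₀ ℕ) (h : ν.degree = n) (z : σ → ℂ) :
    monMap n ν (fun _ => z) = mon z ν := by
  rw [monMap, dif_pos h, ← (exists_word n ν h).choose_spec z]
  simp [List.prod_ofFn]

theorem norm_monMap_le (n : ℕ) (ν : σ →₀ ℕ) : ‖monMap n ν‖ ≤ 1 := by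
  rw [monMap]
  split_ifs with h
  · refine (ContinuousMultilinearMap.norm_compContinuousLinearMap_le _ _).trans ?_
    rw [ContinuousMultilinearMap.norm_mkPiAlgebraFin, one_mul]
    refine Finset.prod_le_one (fun k _ => norm_nonneg _) fun k _ => ?_
    refine ContinuousLinearMap.opNorm_le_bound _ zero_le_one fun x => ?_
    rw [one_mul]
    exact norm_le_pi_norm x _
  · simp

/-- The set of exponents of degree `n`. -/
noncomputable def degSet (σ : Type*) [Fintype σ] (n : ℕ) : Finset (σ →₀ ℕ) := by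
  classical exact Finset.finsuppAntidiag Finset.univ n

theorem mem_degSet {n : ℕ} {ν : σ →₀ ℕ} : ν ∈ degSet σ n ↔ ν.degree = n := by
  classical
  simp [degSet, Finset.mem_finsuppAntidiag, Finsupp.degree_eq_sum]

/-- The formal multilinear series attached to a power series. -/
noncomputable def toFMS (F : MvPowerSeries σ ℂ) : FormalMultilinearSeries ℂ (σ → ℂ) ℂ :=
  fun n => ∑ ν ∈ degSet σ n, coeff ν F • monMap n ν

theorem toFMS_apply (F : MvPowerSeries σ ℂ) (n : ℕ) (z : σ → ℂ) :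
    toFMS F n (fun _ => z) = ∑ ν ∈ degSet σ n, coeff ν F * mon z ν := by
  rw [toFMS, _root_.sum_apply]
  refine Finset.sum_congr rfl fun ν hν => ?_
  rw [_root_.smul_apply, monMap_apply n ν (mem_degSet.mp hν), smul_eq_mul]

theorem nnnorm_toFMS_le {ρ : ℝ≥0} (F : MvPowerSeries σ ℂ) (n : ℕ) :
    ((‖toFMS F n‖₊ * ρ ^ n : ℝ≥0) : ℝ≥0∞) ≤ wn (fun _ => ρ) F := by
  have h1 : ‖toFMS F n‖₊ ≤ ∑ ν ∈ degSet σ n, ‖coeff ν F‖₊ := by
    refine (nnnorm_sum_le _ _).trans (Finset.sum_le_sum fun ν _ => ?_)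
    rw [nnnorm_smul]
    exact mul_le_of_le_one_right zero_le (norm_monMap_le n ν)
  calc ((‖toFMS F n‖₊ * ρ ^ n : ℝ≥0) : ℝ≥0∞)
      ≤ (((∑ ν ∈ degSet σ n, ‖coeff ν F‖₊) * ρ ^ n : ℝ≥0) : ℝ≥0∞) := by
        rw [ENNReal.coe_le_coe]; gcongr
    _ = ∑ ν ∈ degSet σ n, ((‖coeff ν F‖₊ * mon (fun _ => ρ) ν : ℝ≥0) : ℝ≥0∞) := by
        rw [Finset.sum_mul, ENNReal.ofNNReal_finsetSum]
        refine Finset.sum_congr rfl fun ν hν => ?_
        rw [mon_const, mem_degSet.mp hν]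
    _ ≤ wn (fun _ => ρ) F := ENNReal.sum_le_tsum _

theorem hasSum_degSet {f : (σ →₀ ℕ) → ℂ} {a : ℂ} (h : HasSum f a) :
    HasSum (fun n => ∑ ν ∈ degSet σ n, f ν) a := by
  have h1 := (Equiv.sigmaFiberEquiv (fun ν : σ →₀ ℕ => ν.degree)).hasSum_iff.mpr h
  refine h1.sigma fun n => ?_
  have h2 : HasSum (fun ν : {ν : σ →₀ ℕ // ν.degree = n} => f ν) (∑ ν ∈ degSet σ n, f ν) := by
    have h3 : HasSum (Set.indicator {ν : σ →₀ ℕ | ν.degree = n} f) (∑ ν ∈ degSet σ n, f ν) := by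
      have h4 : ∑ ν ∈ degSet σ n, f ν =
          ∑ ν ∈ degSet σ n, Set.indicator {ν : σ →₀ ℕ | ν.degree = n} f ν := by
        refine Finset.sum_congr rfl fun ν hν => ?_
        rw [Set.indicator_of_mem]
        exact mem_degSet.mp hν
      rw [h4]
      refine hasSum_sum_of_ne_finset_zero fun ν hν => ?_
      rw [Set.indicator_of_notMem]
      intro h5
      exact hν (mem_degSet.mpr h5)
    exact hasSum_subtype_iff_indicator.mpr h3
  exact h2

theorem hasFPowerSeriesOnBall_ev {ρ : ℝ≥0} (hρ : 0 < ρ) {F : MvPowerSeries σ ℂ}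
    (h : wn (fun _ => ρ) F ≠ ⊤) :
    HasFPowerSeriesOnBall (fun z => ev z F) (toFMS F) 0 ρ where
  r_le := by
    refine (toFMS F).le_radius_of_bound_nnreal (wn (fun _ => ρ) F).toNNReal fun n => ?_
    rw [← ENNReal.coe_le_coe, ENNReal.coe_toNNReal h]
    exact nnnorm_toFMS_le F n
  r_pos := by exact_mod_cast hρ
  hasSum := by
    intro z hz
    rw [zero_add]
    simp only [toFMS_apply]
    refine hasSum_degSet (hasSum_ev (ne_top_of_le (r := fun _ => ρ) (fun i => ?_) h))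
    rw [Metric.mem_eball, edist_zero_right] at hz
    have h1 : ‖z i‖₊ ≤ ‖z‖₊ := nnnorm_le_pi_nnnorm z i
    have h2 : ‖z‖₊ < ρ := by
      rw [enorm_eq_nnnorm] at hz
      exact_mod_cast hz
    exact h1.trans h2.le

theorem _root_.Pool.Agent.Lib.MP_af4f85_ag.Reps.analyticAt {f : (σ → ℂ) → ℂ}
    {F : MvPowerSeries σ ℂ} (h : Reps F f) : AnalyticAt ℂ f 0 := by
  rw [reps_iff] at h
  obtain ⟨ρ, hρ, h1⟩ := Conv.exists_wn h.1
  have h2 : AnalyticAt ℂ (fun z => ev z F) 0 := (hasFPowerSeriesOnBall_ev hρ h1).analyticAt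
  exact h2.congr (h.2.mono fun z hz => hz.symm)

/-- Identity theorem: a convergent series with vanishing values is zero. -/
theorem eq_zero_of_ev {F : MvPowerSeries σ ℂ} (hF : Conv F)
    (h : ∀ᶠ z in 𝓝 (0 : σ → ℂ), ev z F = 0) : F = 0 := by
  classical
  obtain ⟨ρ, hρ, h1⟩ := Conv.exists_wn hF
  have h2 : HasFPowerSeriesAt (fun z => ev z F) (toFMS F) 0 :=
    (hasFPowerSeriesOnBall_ev hρ h1).hasFPowerSeriesAt
  have h3 : HasFPowerSeriesAt (0 : (σ → ℂ) → ℂ) (toFMS F) 0 := h2.congr h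
  ext ν
  have h4 : ∀ z : σ → ℂ, ∑ μ ∈ degSet σ ν.degree, coeff μ F * mon z μ = 0 := fun z => by
    rw [← toFMS_apply]
    exact h3.apply_eq_zero _ z
  have h5 : (∑ μ ∈ degSet σ ν.degree, MvPolynomial.monomial μ (coeff μ F)) = 0 := by
    refine MvPolynomial.funext fun z => ?_
    rw [map_sum, map_zero, ← h4 z]
    refine Finset.sum_congr rfl fun μ _ => ?_
    rw [MvPolynomial.eval_monomial, mon_eq_prod]
  have h6 := congrArg (MvPolynomial.coeff ν) h5
  rw [MvPolynomial.coeff_sum] at h6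
  simp only [MvPolynomial.coeff_monomial, MvPolynomial.coeff_zero] at h6
  rw [Finset.sum_ite_eq', if_pos (mem_degSet.mpr rfl)] at h6
  simpa using h6

theorem _root_.Pool.Agent.Lib.MP_af4f85_ag.Reps.unique {f g : (σ → ℂ) → ℂ}
    {F G : MvPowerSeries σ ℂ} (hf : Reps F f) (hg : Reps G g) (h : f =ᶠ[𝓝 0] g) : F = G := by
  rw [reps_iff] at *
  have hG' : Conv (-G) := (convRing σ).neg_mem hg.1
  have h1 : Conv (F + -G) := Conv.add hf.1 hG'
  have h2 : ∀ᶠ z in 𝓝 (0 : σ → ℂ), ev z (F + -G) = 0 := by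
    filter_upwards [h, hf.2, hg.2, Conv.eventually_wn hf.1, Conv.eventually_wn hG']
      with z h3 h4 h5 h6 h7
    rw [ev_add h6 h7, ev_neg, ← h4, ← h5, h3, add_neg_cancel]
  have h3 := eq_zero_of_ev h1 h2
  rwa [← sub_eq_add_neg, sub_eq_zero] at h3

/-! ### The Taylor series of an analytic function -/

theorem mon_sum {M : Type*} [CommMonoid M] (r : σ → M) {ι : Type*} (t : Finset ι)
    (f : ι → σ →₀ ℕ) : mon r (∑ k ∈ t, f k) = ∏ k ∈ t, mon r (f k) := by
  classical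
  induction t using Finset.induction_on with
  | empty => simp
  | insert a t ha ih => rw [Finset.sum_insert ha, Finset.prod_insert ha, mon_add, ih]

/-- The content of a word. -/
noncomputable def content (w : Σ n : ℕ, Fin n → σ) : σ →₀ ℕ :=
  ∑ k, Finsupp.single (w.2 k) 1

theorem mon_content {M : Type*} [CommMonoid M] (z : σ → M) (w : Σ n : ℕ, Fin n → σ) :
    mon z (content w) = ∏ k, z (w.2 k) := by
  rw [content, mon_sum]
  simp

omit [Fintype σ] in
theorem hasSum_fiber {α β : Type*} (c : α → β) {g : α → ℂ} {S : ℂ} (hg : HasSum g S)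
    {G : β → ℂ} (h : ∀ b, HasSum (fun w : {w : α // c w = b} => g w.1) (G b)) : HasSum G S :=
  ((Equiv.sigmaFiberEquiv c).hasSum_iff.mpr hg).sigma h

omit [Fintype σ] in
theorem tsum_fiber {α β : Type*} (c : α → β) (g : α → ℝ≥0∞) :
    ∑' w, g w = ∑' b, ∑' w : {w : α // c w = b}, g w.1 := by
  rw [← (Equiv.sigmaFiberEquiv c).tsum_eq, ENNReal.tsum_sigma']
  rfl

theorem exists_reps {f : (σ → ℂ) → ℂ} (hf : AnalyticAt ℂ f 0) : ∃ F, Reps F f := by
  classical
  obtain ⟨p, R, hp⟩ := hf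
  obtain ⟨ρ', hρ'0, hρ'R⟩ := ENNReal.lt_iff_exists_nnreal_btwn.mp hp.r_pos
  have hρ'0 : 0 < ρ' := by exact_mod_cast hρ'0
  obtain ⟨ρ, hρ0, hNρ⟩ : ∃ ρ : ℝ≥0, 0 < ρ ∧ (Fintype.card σ : ℝ≥0) * ρ ≤ ρ' := by
    have hN1 : 0 < (Fintype.card σ : ℝ≥0) + 1 := by positivity
    refine ⟨ρ' / ((Fintype.card σ : ℝ≥0) + 1), div_pos hρ'0 hN1, ?_⟩
    rw [← mul_div_assoc, div_le_iff₀ hN1, mul_comm]
    gcongr
    exact le_self_add
  obtain ⟨val, hvald⟩ : ∃ val : (Σ n : ℕ, Fin n → σ) → ℂ,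
      ∀ w, val w = p w.1 fun k => Pi.single (w.2 k) 1 := ⟨_, fun _ => rfl⟩
  have hval : ∀ w, ‖val w‖₊ ≤ ‖p w.1‖₊ := by
    intro w
    rw [hvald]
    have h1 := (p w.1).le_opNorm fun k => (Pi.single (w.2 k) 1 : σ → ℂ)
    have h2 : ∏ k, ‖(Pi.single (w.2 k) 1 : σ → ℂ)‖ = 1 := by
      refine Finset.prod_eq_one fun k _ => ?_
      rw [Pi.norm_single, norm_one]
    rw [h2, mul_one] at h1
    exact h1
  have hsum : ∑' w : Σ n : ℕ, Fin n → σ, ((‖val w‖₊ * ρ ^ w.1 : ℝ≥0) : ℝ≥0∞) ≠ ⊤ := by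
    rw [ENNReal.tsum_sigma']
    have h1 : Summable fun n : ℕ => ‖p n‖₊ * ρ' ^ n := by
      have := p.summable_norm_mul_pow (r := ρ') (hρ'R.trans_le hp.r_le)
      rw [← NNReal.summable_coe]
      simpa using this
    refine ne_top_of_le_ne_top (ENNReal.tsum_coe_ne_top_iff_summable.mpr h1)
      (ENNReal.tsum_le_tsum fun n => ?_)
    rw [tsum_fintype, ← ENNReal.ofNNReal_finsetSum, ENNReal.coe_le_coe]
    calc ∑ w : Fin n → σ, ‖val ⟨n, w⟩‖₊ * ρ ^ n ≤ ∑ w : Fin n → σ, ‖p n‖₊ * ρ ^ n :=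
          Finset.sum_le_sum fun w _ => by gcongr; exact hval ⟨n, w⟩
      _ = (Fintype.card σ : ℝ≥0) ^ n * (‖p n‖₊ * ρ ^ n) := by
          rw [Finset.sum_const, nsmul_eq_mul, Finset.card_univ, Fintype.card_fun, Fintype.card_fin]
          push_cast
          rfl
      _ = ‖p n‖₊ * ((Fintype.card σ : ℝ≥0) * ρ) ^ n := by rw [mul_pow]; ring
      _ ≤ ‖p n‖₊ * ρ' ^ n := by gcongr
  obtain ⟨F, hF⟩ : ∃ F : MvPowerSeries σ ℂ, ∀ ν,
      coeff ν F = ∑' w : {w : Σ n : ℕ, Fin n → σ // content w = ν}, val w.1 :=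
    ⟨fun ν => ∑' w : {w : Σ n : ℕ, Fin n → σ // content w = ν}, val w.1, fun ν => rfl⟩
  have hmon : ∀ w : Σ n : ℕ, Fin n → σ, mon (fun _ => ρ) (content w) = ρ ^ w.1 := by
    intro w
    rw [mon_content]
    simp
  have hsum' : Summable fun w : Σ n : ℕ, Fin n → σ => ‖val w‖₊ * ρ ^ w.1 :=
    ENNReal.tsum_coe_ne_top_iff_summable.mp hsum
  have hfib : ∀ ν, Summable fun w : {w : Σ n : ℕ, Fin n → σ // content w = ν} => ‖val w.1‖₊ := by
    intro ν
    have h1 := NNReal.summable_comp_injective hsum'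
      (Subtype.val_injective (p := fun w : Σ n : ℕ, Fin n → σ => content w = ν))
    have h2 : (fun w : {w : Σ n : ℕ, Fin n → σ // content w = ν} => ‖val w.1‖₊ * ρ ^ w.1.1) =
        fun w => ‖val w.1‖₊ * mon (fun _ => ρ) ν := by
      ext w
      rw [← hmon, w.2]
    have h3 : Summable fun w : {w : Σ n : ℕ, Fin n → σ // content w = ν} =>
        ‖val w.1‖₊ * mon (fun _ => ρ) ν := by
      rw [← h2]
      exact h1
    exact (summable_mul_right_iff (mon_pos (fun _ => hρ0) ν).ne').mp h3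
  have hwn : wn (fun _ => ρ) F ≠ ⊤ := by
    refine ne_top_of_le_ne_top hsum ?_
    rw [tsum_fiber (content (σ := σ))]
    refine ENNReal.tsum_le_tsum fun ν => ?_
    have h1 : ∀ w : {w : Σ n : ℕ, Fin n → σ // content w = ν},
        ((‖val w.1‖₊ * ρ ^ w.1.1 : ℝ≥0) : ℝ≥0∞) =
        ((‖val w.1‖₊ * mon (fun _ => ρ) ν : ℝ≥0) : ℝ≥0∞) := by
      intro w
      rw [← hmon, w.2]
    rw [tsum_congr h1, ← ENNReal.coe_tsum ((hfib ν).mul_right _), ENNReal.coe_le_coe,
      tsum_mul_right]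
    gcongr
    rw [hF]
    exact nnnorm_tsum_le (hfib ν)
  have hev : ∀ z : σ → ℂ, (∀ i, ‖z i‖₊ ≤ ρ) →
      HasSum (fun n => p n fun _ => z) (ev z F) := by
    intro z hz
    have hg : Summable fun w : Σ n : ℕ, Fin n → σ => val w * mon z (content w) := by
      refine Summable.of_nnnorm ?_
      rw [← ENNReal.tsum_coe_ne_top_iff_summable]
      refine ne_top_of_le_ne_top hsum (ENNReal.tsum_le_tsum fun w => ?_)
      rw [ENNReal.coe_le_coe, nnnorm_mul, nnnorm_mon, ← hmon]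
      gcongr
      exact mon_le_mon hz _
    obtain ⟨S, hS⟩ := hg
    have h1 : HasSum (fun ν => coeff ν F * mon z ν) S := by
      refine hasSum_fiber (content (σ := σ)) hS fun ν => ?_
      have h2 : HasSum (fun w : {w : Σ n : ℕ, Fin n → σ // content w = ν} => val w.1 * mon z ν)
          (coeff ν F * mon z ν) := by
        refine HasSum.mul_right _ ?_
        rw [hF]
        exact (hfib ν).of_nnnorm.hasSum
      have h3 : (fun w : {w : Σ n : ℕ, Fin n → σ // content w = ν} =>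
          val w.1 * mon z (content w.1)) = fun w => val w.1 * mon z ν := by
        ext w
        rw [w.2]
      rw [h3]
      exact h2
    have h3 : HasSum (fun n => p n fun _ => z) S := by
      refine hS.sigma fun n => ?_
      have h4 : (p n fun _ => z) = ∑ w : Fin n → σ, val ⟨n, w⟩ * mon z (content ⟨n, w⟩) := by
        have h5 : (fun _ : Fin n => z) = fun _ => ∑ i, z i • (Pi.single i 1 : σ → ℂ) := by
          ext k i
          simp [Finset.sum_apply, Pi.single_apply]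
        rw [h5]
        have h6 := (p n).toMultilinearMap.map_sum (fun (_ : Fin n) i => z i • (Pi.single i 1 : σ → ℂ))
        simp only [ContinuousMultilinearMap.coe_coe] at h6
        rw [h6]
        refine Finset.sum_congr rfl fun w _ => ?_
        have h7 := (p n).toMultilinearMap.map_smul_univ (fun k => z (w k))
          fun k => (Pi.single (w k) 1 : σ → ℂ)
        simp only [ContinuousMultilinearMap.coe_coe] at h7
        rw [h7, mon_content, smul_eq_mul, mul_comm, hvald]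
      rw [h4]
      exact hasSum_fintype _
    have h8 : S = ev z F := h1.tsum_eq.symm
    rwa [← h8]
  refine ⟨F, reps_iff.mpr ⟨conv_of_wn (fun _ => hρ0) hwn, ?_⟩⟩
  filter_upwards [eventually_le (r := fun _ => ρ) fun _ => hρ0,
    Metric.eball_mem_nhds (0 : σ → ℂ) hp.r_pos] with z hz hzR
  have h1 := hp.hasSum hzR
  rw [zero_add] at h1
  exact h1.unique (hev z hz)

end An

end Pool.Agent.Lib.MP_af4f85_ag
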