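import Pool.Agent.Lib.MP_af4f85_ag.An.Weierstrass
import Pool.Agent.Lib.MP_af4f85_ag.An.Elim

/-!
# The inductive step of the Nullstellensatz in the regular case
-/

set_option autoImplicit false

open MvPowerSeries Filter Topology
open scoped ENNReal NNReal

namespace Pool.Agent.Lib.MP_af4f85_ag.An

variable {σ : Type*} [Fintype σ]

/-- The series in the variables `S` with finite norm. -/
noncomputable abbrev BB (r : σ → ℝ≥0) (S : Set σ) : Subalgebra ℂ (MvPowerSeries σ ℂ) :=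
  B r ⊓ dep S

/-- Evaluation of polynomials in `X_i` with coefficients in the variables `S`. -/
noncomputable def piHom (r : σ → ℝ≥0) (S : Set σ) (i : σ) : Polynomial (BB r S) →+* B r :=
  Polynomial.eval₂RingHom
    (Subalgebra.inclusion (inf_le_left : BB r S ≤ B r) : BB r S →+* B r) ⟨X i, X_mem_B r i⟩

/-- Evaluation of the coefficients. -/
noncomputable def phi {r : σ → ℝ≥0} (S : Set σ) (z : σ → ℂ) (hz : ∀ j, ‖z j‖₊ ≤ r j) :
    BB r S →+* ℂ :=
  (evHom z hz : B r →+* ℂ).comp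
    (Subalgebra.inclusion (inf_le_left : BB r S ≤ B r) : BB r S →+* B r)

theorem phi_apply {r : σ → ℝ≥0} (S : Set σ) (z : σ → ℂ) (hz : ∀ j, ‖z j‖₊ ≤ r j)
    (F : BB r S) : phi S z hz F = ev z (F : MvPowerSeries σ ℂ) := rfl

theorem phi_surjective {r : σ → ℝ≥0} (S : Set σ) (z : σ → ℂ) (hz : ∀ j, ‖z j‖₊ ≤ r j) :
    Function.Surjective (phi S z hz) := by
  intro c
  refine ⟨algebraMap ℂ _ c, ?_⟩
  rw [phi_apply]
  exact ev_C z c

theorem ev_piHom [DecidableEq σ] {r : σ → ℝ≥0} {S : Set σ} {i : σ} (hi : i ∉ S) {z : σ → ℂ}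
    (hz : ∀ j, ‖z j‖₊ ≤ r j) {ξ : ℂ} (hξ : ‖ξ‖₊ ≤ r i) (p : Polynomial (BB r S)) :
    ev (Function.update z i ξ) (piHom r S i p : MvPowerSeries σ ℂ) =
      p.eval₂ (phi S z hz) ξ := by
  have hz' : ∀ j, ‖Function.update z i ξ j‖₊ ≤ r j := by
    intro j
    by_cases hj : j = i
    · subst hj
      simpa using hξ
    · rw [Function.update_of_ne hj]
      exact hz j
  have h1 : (evHom (Function.update z i ξ) hz' : B r →+* ℂ).comp (piHom r S i) =
      Polynomial.eval₂RingHom (phi S z hz) ξ := by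
    refine Polynomial.ringHom_ext (fun b => ?_) ?_
    · simp only [RingHom.comp_apply, piHom, Polynomial.coe_eval₂RingHom, Polynomial.eval₂_C]
      rw [phi_apply]
      refine ev_congr (S := S) b.2.2 fun j hj => ?_
      rw [Function.update_of_ne]
      rintro rfl
      exact hi hj
    · simp only [RingHom.comp_apply, piHom, Polynomial.coe_eval₂RingHom, Polynomial.eval₂_X]
      change ev _ (X i) = ξ
      simp
  have h2 := congrArg (fun f : Polynomial (BB r S) →+* ℂ => f p) h1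
  simpa using h2

theorem slice_mem_BB {r : σ → ℝ≥0} (hr : ∀ j, 0 < r j) {S : Set σ} {i : σ} (k : ℕ)
    {R : MvPowerSeries σ ℂ} (hR : wn r R ≠ ⊤) (hRS : R ∈ dep (insert i S)) :
    slice {i} (Finsupp.single i k) R ∈ BB r S := by
  refine Algebra.mem_inf.mpr ⟨wn_slice_ne_top hr _ _ hR, dep_mono ?_
    (slice_mem_dep (I := {i}) hRS _)⟩
  intro j hj
  rcases hj with ⟨rfl | hj, hj'⟩
  · exact absurd (by simp) hj'
  · exact hj

/-- A series with small exponents in `X_i` as a polynomial in `X_i`. -/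
noncomputable def toPoly {r : σ → ℝ≥0} (hr : ∀ j, 0 < r j) (S : Set σ) (i : σ) (d : ℕ)
    (R : MvPowerSeries σ ℂ) (hR : wn r R ≠ ⊤) (hRS : R ∈ dep (insert i S)) :
    Polynomial (BB r S) :=
  ∑ k ∈ Finset.range d, Polynomial.C (⟨slice {i} (Finsupp.single i k) R,
    slice_mem_BB hr k hR hRS⟩ : BB r S) * Polynomial.X ^ k

theorem degree_toPoly_lt {r : σ → ℝ≥0} (hr : ∀ j, 0 < r j) (S : Set σ) (i : σ) (d : ℕ)
    (R : MvPowerSeries σ ℂ) (hR : wn r R ≠ ⊤) (hRS : R ∈ dep (insert i S)) :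
    (toPoly hr S i d R hR hRS).degree < d := by
  rw [Polynomial.degree_lt_iff_coeff_zero]
  intro m hm
  rw [toPoly, Polynomial.finsetSum_coeff]
  refine Finset.sum_eq_zero fun k hk => ?_
  rw [Polynomial.coeff_C_mul_X_pow, if_neg]
  rw [Finset.mem_range] at hk
  omega

theorem piHom_toPoly {r : σ → ℝ≥0} (hr : ∀ j, 0 < r j) (S : Set σ) (i : σ) (d : ℕ)
    (R : MvPowerSeries σ ℂ) (hR : wn r R ≠ ⊤) (hRS : R ∈ dep (insert i S))
    (hlow : ∀ ν, coeff ν R ≠ 0 → ν i < d) :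
    (piHom r S i (toPoly hr S i d R hR hRS) : MvPowerSeries σ ℂ) = R := by
  conv_rhs => rw [eq_sum_range hlow]
  rw [toPoly, map_sum]
  push_cast
  refine Finset.sum_congr rfl fun k _ => ?_
  rw [map_mul, map_pow]
  simp only [piHom, Polynomial.coe_eval₂RingHom, Polynomial.eval₂_C, Polynomial.eval₂_X]
  rfl

theorem wn_mul_X_pow_ge (r : σ → ℝ≥0) (F : MvPowerSeries σ ℂ) (i : σ) (k : ℕ) :
    wn r F * (r i : ℝ≥0∞) ^ k ≤ wn r (F * X i ^ k) := by
  calc wn r F * (r i : ℝ≥0∞) ^ k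
      = ∑' ν, ((‖coeff (ν + Finsupp.single i k) (F * X i ^ k)‖₊ *
          mon r (ν + Finsupp.single i k) : ℝ≥0) : ℝ≥0∞) := by
        rw [wn, ← ENNReal.tsum_mul_right]
        refine tsum_congr fun ν => ?_
        rw [mon_add, mon_single, ← ENNReal.coe_pow, ← ENNReal.coe_mul, X_pow_eq_monomial,
          coeff_add_mul_monomial, mul_one, mul_assoc]
    _ ≤ wn r (F * X i ^ k) := ENNReal.tsum_comp_le_tsum_of_injective
          (f := fun ν => ν + Finsupp.single i k) (add_left_injective _)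
          fun ν => ((‖coeff ν (F * X i ^ k)‖₊ * mon r ν : ℝ≥0) : ℝ≥0∞)

/-- The roots of a Weierstrass polynomial are small. -/
theorem root_small {d : ℕ} {ρ : ℝ≥0} (hρ : 0 < ρ) {c : ℕ → ℂ} {b : ℕ → ℝ≥0∞}
    (hcb : ∀ k < d, (‖c k‖₊ : ℝ≥0∞) ≤ b k)
    (hb : ∑ k ∈ Finset.range d, b k * (ρ : ℝ≥0∞) ^ k ≤ 2⁻¹ * (ρ : ℝ≥0∞) ^ d) {ξ : ℂ}
    (hξ : ξ ^ d = ∑ k ∈ Finset.range d, c k * ξ ^ k) : ‖ξ‖₊ ≤ ρ := by
  by_contra hlt
  push Not at hlt
  set s : ℝ≥0 := ‖ξ‖₊ / ρ with hs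
  have hsρ : s * ρ = ‖ξ‖₊ := div_mul_cancel₀ _ hρ.ne'
  have hs1 : 1 ≤ s := by
    rw [hs, le_div_iff₀ hρ, one_mul]
    exact hlt.le
  have h1 : (‖ξ‖₊ ^ d : ℝ≥0) ≤ ∑ k ∈ Finset.range d, ‖c k‖₊ * ‖ξ‖₊ ^ k := by
    rw [← nnnorm_pow, hξ]
    refine (nnnorm_sum_le _ _).trans (le_of_eq (Finset.sum_congr rfl fun k _ => ?_))
    rw [nnnorm_mul, nnnorm_pow]
  have h2 : ((∑ k ∈ Finset.range d, ‖c k‖₊ * ‖ξ‖₊ ^ k : ℝ≥0) : ℝ≥0∞) ≤
      (s : ℝ≥0∞) ^ d * (2⁻¹ * (ρ : ℝ≥0∞) ^ d) := by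
    refine le_trans ?_ (mul_le_mul' le_rfl hb)
    rw [Finset.mul_sum, ENNReal.ofNNReal_finsetSum]
    refine Finset.sum_le_sum fun k hk => ?_
    rw [Finset.mem_range] at hk
    rw [← hsρ, mul_pow, ENNReal.coe_mul, ENNReal.coe_mul, ENNReal.coe_pow, ENNReal.coe_pow]
    calc (‖c k‖₊ : ℝ≥0∞) * ((s : ℝ≥0∞) ^ k * (ρ : ℝ≥0∞) ^ k)
        ≤ b k * ((s : ℝ≥0∞) ^ d * (ρ : ℝ≥0∞) ^ k) := by
          gcongr
          · exact hcb k hk
          · exact_mod_cast hs1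
      _ = _ := by ring
  have h3 : ((‖ξ‖₊ ^ d : ℝ≥0) : ℝ≥0∞) ≤ 2⁻¹ * ((‖ξ‖₊ ^ d : ℝ≥0) : ℝ≥0∞) := by
    refine le_trans (by exact_mod_cast h1) (h2.trans (le_of_eq ?_))
    rw [← hsρ, mul_pow, ENNReal.coe_mul, ENNReal.coe_pow, ENNReal.coe_pow]
    ring
  have h4 : (‖ξ‖₊ ^ d : ℝ≥0) ≤ 2⁻¹ * ‖ξ‖₊ ^ d := by
    rw [← ENNReal.coe_le_coe, ENNReal.coe_mul, ENNReal.coe_inv (by norm_num)]
    exact h3
  have h5 : 0 < ‖ξ‖₊ ^ d := pow_pos (hρ.trans hlt) d
  have h6 : (2⁻¹ : ℝ≥0) * ‖ξ‖₊ ^ d < ‖ξ‖₊ ^ d := by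
    calc (2⁻¹ : ℝ≥0) * ‖ξ‖₊ ^ d < 1 * ‖ξ‖₊ ^ d := by
          gcongr
          exact NNReal.inv_lt_one_iff (by norm_num) |>.mpr (by norm_num)
      _ = _ := one_mul _
  exact absurd h4 (not_le.mpr h6)

theorem exists_radius_finset (s : Finset (MvPowerSeries σ ℂ)) (hs : ∀ f ∈ s, Conv f) :
    ∃ δ : ℝ≥0, 0 < δ ∧ ∀ f ∈ s, ∀ r : σ → ℝ≥0, (∀ i, r i ≤ δ) → wn r f ≠ ⊤ := by
  classical
  induction s using Finset.induction_on with
  | empty => exact ⟨1, one_pos, by simp⟩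
  | insert k s hk ih =>
    obtain ⟨ρ₁, h1, h1'⟩ := ih fun j hj => hs j (Finset.mem_insert_of_mem hj)
    obtain ⟨ρ₂, h2, h2'⟩ := Conv.eventually (hs k (Finset.mem_insert_self k s))
    refine ⟨min ρ₁ ρ₂, lt_min h1 h2, fun j hj r hr => ?_⟩
    rcases Finset.mem_insert.mp hj with rfl | hj
    · exact h2' r fun i => (hr i).trans (min_le_right _ _)
    · exact h1' j hj r fun i => (hr i).trans (min_le_left _ _)

/-- The Nullstellensatz for prime ideals and series in the variables `S`. -/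
def NSProp (S : Set σ) : Prop :=
  ∀ Q : Ideal (MvPowerSeries σ ℂ), Q.IsPrime → ∀ (u : Finset (MvPowerSeries σ ℂ))
    (h : MvPowerSeries σ ℂ), (∀ f ∈ u, Conv f ∧ f ∈ dep S ∧ f ∈ Q) → Conv h → h ∈ dep S →
    h ∉ Q → ∀ ε : ℝ≥0, 0 < ε →
    ∃ z : σ → ℂ, (∀ i, ‖z i‖₊ ≤ ε) ∧ (∀ f ∈ u, ev z f = 0) ∧ ev z h ≠ 0

theorem coeff_single_slice_mul {i : σ} {P : MvPowerSeries σ ℂ}
    (hP : ∀ k, coeff (Finsupp.single i k) P = 0) (k m : ℕ) :
    coeff (Finsupp.single i m) (slice {i} (Finsupp.single i k) P * X i ^ k) = 0 := by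
  classical
  rw [X_pow_eq_monomial, coeff_mul_monomial]
  split_ifs with h1
  · rw [mul_one, coeff_slice]
    split_ifs with h2
    · rw [tsub_add_cancel_of_le h1]
      exact hP m
    · rfl
  · rfl

theorem ns_regular {S : Set σ} {i : σ} (hi : i ∉ S) (ih : NSProp S)
    {Q : Ideal (MvPowerSeries σ ℂ)} (hQ : Q.IsPrime) {u : Finset (MvPowerSeries σ ℂ)}
    {h : MvPowerSeries σ ℂ} (hu : ∀ f ∈ u, Conv f ∧ f ∈ dep (insert i S) ∧ f ∈ Q)
    (hh : Conv h) (hhS : h ∈ dep (insert i S)) (hhQ : h ∉ Q)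
    {f : MvPowerSeries σ ℂ} (hf : Conv f) (hfS : f ∈ dep (insert i S)) (hfQ : f ∈ Q) {d : ℕ}
    (hlow : ∀ k < d, coeff (Finsupp.single i k) f = 0) (hd : coeff (Finsupp.single i d) f ≠ 0)
    {ε : ℝ≥0} (hε : 0 < ε) :
    ∃ z : σ → ℂ, (∀ i, ‖z i‖₊ ≤ ε) ∧ (∀ f ∈ u, ev z f = 0) ∧ ev z h ≠ 0 := by
  classical
  obtain ⟨P, q, hPc, hPS, hPlow, hPpf, hW⟩ :=
    exists_weierstrass (Set.mem_insert i S) hf hfS hlow hd
  have hWQ : X i ^ d - P ∈ Q := by
    rw [hW]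
    exact Q.mul_mem_left q hfQ
  obtain ⟨δ, hδ, hδs⟩ := exists_radius_finset (insert h u) (by
    intro g hg
    rcases Finset.mem_insert.mp hg with rfl | hg
    · exact hh
    · exact (hu g hg).1)
  obtain ⟨ρP, hρP, hPtop⟩ := Conv.exists_wn hPc
  obtain ⟨r, hr, hrP⟩ := exists_weights (Finset.range d)
    (P := fun k => slice {i} (Finsupp.single i k) P * X i ^ k)
    (fun k _ => Conv.mul (conv_of_wn (r := fun _ => ρP) (fun _ => hρP)
      (wn_slice_ne_top (fun _ => hρP) _ _ hPtop))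
      (by rw [X_pow_eq_monomial]; exact conv_monomial _ _))
    (fun k _ => coeff_single_slice_mul hPpf k) d (δ := min δ ε) (lt_min hδ hε)
  have hr0 : ∀ j, 0 < r j := fun j => (hr j).1
  have hPsum := eq_sum_range hPlow
  have hwP : wn r P ≤ 2⁻¹ * (r i : ℝ≥0∞) ^ d := by
    refine le_trans ?_ hrP
    conv_lhs => rw [hPsum]
    exact wn_sum_le _ _ _
  have hPr : wn r P ≠ ⊤ := ne_top_of_le_ne_top
    (ENNReal.mul_ne_top (by simp) (ENNReal.pow_ne_top ENNReal.coe_ne_top)) hwP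
  have hgr : ∀ g ∈ insert h u, wn r g ≠ ⊤ := fun g hg =>
    hδs g hg r fun j => (hr j).2.trans (min_le_left _ _)
  have hgS : ∀ g ∈ insert h u, g ∈ dep (insert i S) := by
    intro g hg
    rcases Finset.mem_insert.mp hg with rfl | hg
    · exact hhS
    · exact (hu g hg).2.1
  -- division
  have hdiv : ∀ g : {g // g ∈ insert h u}, ∃ R q : MvPowerSeries σ ℂ,
      g.1 = R + q * (X i ^ d - P) ∧ wn r R ≠ ⊤ ∧ R ∈ dep (insert i S) ∧ wn r q ≠ ⊤ ∧
      ∀ ν, coeff ν R ≠ 0 → ν i < d := by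
    intro g
    obtain ⟨R, q, h1, h2, h3, h4, h5⟩ := exists_division {i} (fun _ => d) (fun _ => P)
      (r := r) hr0 (by
        rw [Finset.sum_singleton]
        exact ENNReal.div_le_of_le_mul hwP) (S := insert i S) (fun _ _ => hPS)
      (G := g.1) (hgr g.1 g.2) (hgS g.1 g.2)
    rw [Finset.sum_singleton] at h1
    exact ⟨R, q i, h1, h2, h3, (h4 i).1, fun ν hν => h5 ν hν i (Finset.mem_singleton_self i)⟩
  choose R q' hg1 hRtop hRS hqtop hRlow using hdiv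
  -- the polynomials
  let tp : {g // g ∈ insert h u} → Polynomial (BB r S) := fun g =>
    toPoly hr0 S i d (R g) (hRtop g) (hRS g)
  let Wp : Polynomial (BB r S) := Polynomial.X ^ d - toPoly hr0 S i d P hPr hPS
  let J : Ideal (Polynomial (BB r S)) :=
    (Q.comap ((B r).val : B r →+* MvPowerSeries σ ℂ)).comap (piHom r S i)
  have hJ : J.IsPrime := Ideal.IsPrime.comap _
  have hJmem : ∀ p, p ∈ J ↔ (piHom r S i p : MvPowerSeries σ ℂ) ∈ Q := fun p => Iff.rfl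
  have hπW : (piHom r S i Wp : MvPowerSeries σ ℂ) = X i ^ d - P := by
    have h1 := piHom_toPoly hr0 S i d P hPr hPS hPlow
    have h2 : (piHom r S i Polynomial.X : MvPowerSeries σ ℂ) = X i := by
      simp [piHom]
    have h3 : Wp + toPoly hr0 S i d P hPr hPS = Polynomial.X ^ d := by
      simp only [Wp]
      ring
    have h4 := congrArg (fun p => ((piHom r S i p : B r) : MvPowerSeries σ ℂ)) h3
    simp only [map_add, map_pow] at h4
    push_cast at h4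
    rw [h1, h2] at h4
    rw [eq_sub_iff_add_eq]
    exact h4
  have hπR : ∀ g, (piHom r S i (tp g) : MvPowerSeries σ ℂ) = R g := fun g =>
    piHom_toPoly hr0 S i d (R g) (hRtop g) (hRS g) (hRlow g)
  have hWmonic : Wp.Monic := Polynomial.monic_X_pow_sub (degree_toPoly_lt hr0 S i d P hPr hPS)
  have hWJ : Wp ∈ J := by
    rw [hJmem, hπW]
    exact hWQ
  have hRQ : ∀ g : {g // g ∈ insert h u}, g.1 ∈ Q ↔ R g ∈ Q := by
    intro g
    constructor
    · intro h1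
      have : R g = g.1 - q' g * (X i ^ d - P) := by
        rw [eq_sub_iff_add_eq]
        exact (hg1 g).symm
      rw [this]
      exact Q.sub_mem h1 (Q.mul_mem_left _ hWQ)
    · intro h1
      rw [hg1 g]
      exact Q.add_mem h1 (Q.mul_mem_left _ hWQ)
  have hmemu : ∀ g : {g // g ∈ u}, g.1 ∈ insert h u := fun g => Finset.mem_insert_of_mem g.2
  have hmemh : h ∈ insert h u := Finset.mem_insert_self h u
  let tpu : {g // g ∈ u} → Polynomial (BB r S) := fun g => tp ⟨g.1, hmemu g⟩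
  let tph : Polynomial (BB r S) := tp ⟨h, hmemh⟩
  have htpu : ∀ p ∈ u.attach.image tpu, p ∈ J := by
    intro p hp
    obtain ⟨g, -, rfl⟩ := Finset.mem_image.mp hp
    rw [hJmem, hπR, ← hRQ]
    exact (hu g.1 g.2).2.2
  have htph : tph ∉ J := by
    rw [hJmem, hπR, ← hRQ]
    exact hhQ
  obtain ⟨Pf, g₀, hPf, hg₀, helim⟩ := elim hJ hWmonic hWJ (u.attach.image tpu) htpu htph
  have hπC : ∀ b : BB r S, (piHom r S i (Polynomial.C b) : MvPowerSeries σ ℂ) = b := by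
    intro b
    simp [piHom]
  obtain ⟨ρ', hρ'0, hρ'⟩ := exists_pos_le r hr0
  let Pf' : Finset (MvPowerSeries σ ℂ) :=
    Finset.image (fun b : BB r S => (b : MvPowerSeries σ ℂ)) Pf
  have hPf' : ∀ f ∈ Pf', Conv f ∧ f ∈ dep S ∧ f ∈ Q := by
    intro f hf
    obtain ⟨b, hb, rfl⟩ := Finset.mem_image.mp hf
    refine ⟨conv_of_wn hr0 b.2.1, b.2.2, ?_⟩
    have := hPf b hb
    rwa [hJmem, hπC] at this
  obtain ⟨z, hz, hzP, hzg⟩ := ih Q hQ Pf' (g₀ : MvPowerSeries σ ℂ) hPf'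
    (conv_of_wn hr0 g₀.2.1) g₀.2.2 (by rwa [hJmem, hπC] at hg₀) ρ' hρ'0
  have hz' : ∀ j, ‖z j‖₊ ≤ r j := fun j => (hz j).trans (hρ' j)
  obtain ⟨ξ, hξW, hξR, hξh⟩ := helim (phi S z hz') (phi_surjective S z hz')
    (fun p hp => hzP _ (Finset.mem_image_of_mem _ hp)) hzg
  have hξ : ‖ξ‖₊ ≤ r i := by
    refine root_small (hr0 i) (c := fun k => ev z (slice {i} (Finsupp.single i k) P))
      (b := fun k => wn r (slice {i} (Finsupp.single i k) P)) (d := d)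
      (fun k _ => enorm_ev_le hz' _) ?_ ?_
    · refine le_trans (Finset.sum_le_sum fun k _ => ?_) hrP
      exact wn_mul_X_pow_ge r _ i k
    · simp only [Wp, toPoly, Polynomial.eval₂_sub, Polynomial.eval₂_pow, Polynomial.eval₂_X,
        Polynomial.eval₂_finsetSum, Polynomial.eval₂_mul, Polynomial.eval₂_C] at hξW
      exact sub_eq_zero.mp hξW
  have hzz : ∀ j, ‖Function.update z i ξ j‖₊ ≤ r j := by
    intro j
    by_cases hj : j = i
    · subst hj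
      simpa using hξ
    · rw [Function.update_of_ne hj]
      exact hz' j
  have hevW : ev (Function.update z i ξ) (X i ^ d - P) = 0 := by
    rw [← hπW, ev_piHom hi hz' hξ]
    exact hξW
  have hevg : ∀ g : {g // g ∈ insert h u}, ev (Function.update z i ξ) g.1 =
      (tp g).eval₂ (phi S z hz') ξ := by
    intro g
    have h1 := ne_top_of_le hzz (hRtop g)
    have h2 := ne_top_of_le hzz (hqtop g)
    have h3 : wn (fun j => ‖Function.update z i ξ j‖₊) (X i ^ d - P) ≠ ⊤ :=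
      ne_top_of_le hzz ((B r).sub_mem ((B r).pow_mem (X_mem_B r i) d) hPr)
    have h4 := (B (fun j => ‖Function.update z i ξ j‖₊)).mul_mem h2 h3
    conv_lhs => rw [hg1 g]
    rw [ev_add h1 h4, ev_mul h2 h3, hevW, mul_zero, add_zero, ← ev_piHom hi hz' hξ, hπR]
  refine ⟨Function.update z i ξ, fun j => (hzz j).trans ((hr j).2.trans (min_le_right _ _)),
    fun f hf => ?_, ?_⟩
  · rw [hevg ⟨f, Finset.mem_insert_of_mem hf⟩]
    exact hξR _ (Finset.mem_image.mpr ⟨⟨f, hf⟩, Finset.mem_attach _ _, rfl⟩)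
  · rw [hevg ⟨h, Finset.mem_insert_self h u⟩]
    exact hξh

end Pool.Agent.Lib.MP_af4f85_ag.An
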