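import Pool.Agent.Lib.MP_af4f85_ag.An.Reps

/-!
# Substitution of convergent power series; inverses
-/

set_option autoImplicit false

open MvPowerSeries Filter Topology
open scoped ENNReal NNReal

namespace Pool.Agent.Lib.MP_af4f85_ag.An

variable {σ τ : Type*} [Fintype σ] [Fintype τ]

omit [Fintype σ] in
theorem coeff_subst_tsum {G : τ → MvPowerSeries σ ℂ} (hG : HasSubst G) (F : MvPowerSeries τ ℂ)
    (ν : σ →₀ ℕ) : coeff ν (subst G F) = ∑' μ, coeff ν (coeff μ F • mon G μ) := by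
  have h1 := coeff_subst hG F ν
  have h2 := coeff_subst_finite hG F ν
  rw [h1, ← tsum_eq_finsum (L := SummationFilter.unconditional _) h2]
  refine tsum_congr fun μ => ?_
  rw [map_smul, mon_eq_prod]

theorem wn_mon_le {r : σ → ℝ≥0} {s : τ → ℝ≥0} {G : τ → MvPowerSeries σ ℂ}
    (h : ∀ i, wn r (G i) ≤ s i) (μ : τ →₀ ℕ) : wn r (mon G μ) ≤ ((mon s μ : ℝ≥0) : ℝ≥0∞) := by
  rw [mon, mon, ENNReal.ofNNReal_finsetProd]
  refine (wn_prod_le _ _ _).trans (Finset.prod_le_prod' fun i _ => ?_)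
  rw [ENNReal.coe_pow]
  exact (wn_pow_le _ _ _).trans (by gcongr; exact h i)

theorem tsum_wn_le {r : σ → ℝ≥0} {s : τ → ℝ≥0} {G : τ → MvPowerSeries σ ℂ}
    (h : ∀ i, wn r (G i) ≤ s i) (F : MvPowerSeries τ ℂ) :
    ∑' μ, wn r (coeff μ F • mon G μ) ≤ wn s F := by
  refine ENNReal.tsum_le_tsum fun μ => ?_
  rw [wn_smul, ENNReal.coe_mul]
  gcongr
  exact wn_mon_le h μ

theorem wn_subst_le {r : σ → ℝ≥0} (hr : ∀ i, 0 < r i) {s : τ → ℝ≥0}
    {G : τ → MvPowerSeries σ ℂ} (hG : HasSubst G) (h : ∀ i, wn r (G i) ≤ s i)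
    {F : MvPowerSeries τ ℂ} (hF : wn s F ≠ ⊤) : wn r (subst G F) ≤ wn s F :=
  (wn_tsum_le hr (ne_top_of_le_ne_top hF (tsum_wn_le h F)) (coeff_subst_tsum hG F)).trans
    (tsum_wn_le h F)

theorem ev_mon {z : σ → ℂ} {G : τ → MvPowerSeries σ ℂ}
    (h : ∀ i, wn (fun i => ‖z i‖₊) (G i) ≠ ⊤) (μ : τ →₀ ℕ) :
    ev z (mon G μ) = mon (fun i => ev z (G i)) μ := by
  have hB : ∀ i, G i ∈ B (fun i => ‖z i‖₊) := h
  have h1 : mon G μ = ((mon (fun i => (⟨G i, hB i⟩ : B (fun i => ‖z i‖₊))) μ : B _) :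
      MvPowerSeries σ ℂ) := by
    have := map_mon ((B (fun i => ‖z i‖₊)).val : B (fun i => ‖z i‖₊) →* MvPowerSeries σ ℂ)
      (fun i => (⟨G i, hB i⟩ : B (fun i => ‖z i‖₊))) μ
    exact this.symm
  rw [h1]
  exact map_mon ((evHom z (r := fun i => ‖z i‖₊) fun i => le_rfl : _ →ₐ[ℂ] ℂ) : _ →* ℂ)
      (fun i => (⟨G i, hB i⟩ : B (fun i => ‖z i‖₊))) μ

theorem ev_subst {r : σ → ℝ≥0} {s : τ → ℝ≥0}
    {G : τ → MvPowerSeries σ ℂ} (hG : HasSubst G) (h : ∀ i, wn r (G i) ≤ s i)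
    {F : MvPowerSeries τ ℂ} (hF : wn s F ≠ ⊤) {z : σ → ℂ} (hz : ∀ i, ‖z i‖₊ ≤ r i) :
    ev z (subst G F) = ev (fun i => ev z (G i)) F := by
  rw [ev_tsum (ne_top_of_le_ne_top hF (tsum_wn_le h F)) (coeff_subst_tsum hG F) hz]
  refine tsum_congr fun μ => ?_
  rw [ev_smul, ev_mon fun i => ne_top_of_le hz (ne_top_of_le_ne_top ENNReal.coe_ne_top (h i))]

/-- Scaling of weights. -/
theorem wn_le_of_mon_le {r s : σ → ℝ≥0} {t : ℝ≥0} {F : MvPowerSeries σ ℂ}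
    (h : ∀ ν, coeff ν F ≠ 0 → mon r ν ≤ t * mon s ν) : wn r F ≤ t * wn s F := by
  rw [wn, wn, ← ENNReal.tsum_mul_left]
  refine ENNReal.tsum_le_tsum fun ν => ?_
  by_cases h0 : coeff ν F = 0
  · simp [h0]
  · rw [← ENNReal.coe_mul, ENNReal.coe_le_coe]
    calc ‖coeff ν F‖₊ * mon r ν ≤ ‖coeff ν F‖₊ * (t * mon s ν) := by gcongr; exact h ν h0
      _ = _ := by ring

theorem mon_scale_le {s : σ → ℝ≥0} {t : ℝ≥0} (ht : t ≤ 1) {ν : σ →₀ ℕ} (hν : ν ≠ 0) :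
    mon (fun i => t * s i) ν ≤ t * mon s ν := by
  rw [mon_mul, mon_const]
  gcongr
  have : ν.degree ≠ 0 := by rwa [Ne, Finsupp.degree_eq_zero_iff]
  exact pow_le_of_le_one zero_le ht this

theorem wn_scale_le {s : σ → ℝ≥0} {t : ℝ≥0} (ht : t ≤ 1) {F : MvPowerSeries σ ℂ}
    (hF : constantCoeff F = 0) : wn (fun i => t * s i) F ≤ t * wn s F := by
  refine wn_le_of_mon_le fun ν hν => mon_scale_le ht ?_
  rintro rfl
  exact hν (by simpa using hF)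

/-- A convergent series without constant term has small norm on small polydiscs. -/
theorem Conv.small {F : MvPowerSeries σ ℂ} (hF : Conv F) (h0 : constantCoeff F = 0)
    {ε : ℝ≥0} (hε : 0 < ε) :
    ∃ ρ : ℝ≥0, 0 < ρ ∧ ∀ r : σ → ℝ≥0, (∀ i, r i ≤ ρ) → wn r F ≤ ε := by
  obtain ⟨ρ, hρ, h1⟩ := Conv.exists_wn hF
  obtain ⟨C, hC⟩ : ∃ C : ℝ≥0, (C : ℝ≥0∞) = wn (fun _ => ρ) F := ⟨_, ENNReal.coe_toNNReal h1⟩
  set t : ℝ≥0 := min 1 (ε / (C + 1)) with ht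
  have ht0 : 0 < t := lt_min one_pos (by positivity)
  refine ⟨t * ρ, by positivity, fun r hr => ?_⟩
  refine (wn_mono hr F).trans ((wn_scale_le (s := fun _ => ρ) (min_le_left _ _) h0).trans ?_)
  rw [← hC, ← ENNReal.coe_mul, ENNReal.coe_le_coe]
  calc t * C ≤ ε / (C + 1) * (C + 1) := by
        gcongr
        · exact min_le_right _ _
        · exact le_self_add
    _ = ε := by field_simp

/-- Finitely many radii can be chosen together. -/
theorem exists_radius {ι : Type*} [Finite ι] {P : ι → ℝ≥0 → Prop}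
    (h : ∀ i, ∃ ρ : ℝ≥0, 0 < ρ ∧ ∀ ρ' ≤ ρ, P i ρ') :
    ∃ ρ : ℝ≥0, 0 < ρ ∧ ∀ ρ' ≤ ρ, ∀ i, P i ρ' := by
  classical
  cases nonempty_fintype ι
  choose f hf0 hf using h
  obtain ⟨ρ, hρ, hle⟩ := exists_pos_le f hf0
  exact ⟨ρ, hρ, fun ρ' h' i => hf i ρ' (h'.trans (hle i))⟩

omit [Fintype σ] in
theorem hasSubst_of_zero {G : τ → MvPowerSeries σ ℂ}
    (h0 : ∀ i, constantCoeff (G i) = 0) : HasSubst G :=
  hasSubst_of_constantCoeff_zero h0

/-- composition -/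
theorem _root_.Pool.Agent.Lib.MP_af4f85_ag.Reps.subst {G : τ → MvPowerSeries σ ℂ}
    {g : τ → (σ → ℂ) → ℂ} {F : MvPowerSeries τ ℂ} {f : (τ → ℂ) → ℂ}
    (hg : ∀ i, Reps (G i) (g i)) (hG : ∀ i, MvPowerSeries.constantCoeff (G i) = 0)
    (hf : Reps F f) : Reps (MvPowerSeries.subst G F) (fun z => f fun i => g i z) := by
  have hf' := reps_iff.mp hf
  obtain ⟨ρ, hρ, h1⟩ := Conv.exists_wn hf'.1
  obtain ⟨δ, hδ, h2⟩ := exists_radius (P := fun i δ => wn (fun _ => δ) (G i) ≤ ρ)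
    fun i => by
      obtain ⟨δ, hδ, h⟩ := Conv.small (reps_iff.mp (hg i)).1 (hG i) hρ
      exact ⟨δ, hδ, fun δ' h' => h _ fun _ => h'⟩
  have h3 := h2 δ le_rfl
  have hS := hasSubst_of_zero hG
  rw [reps_iff]
  refine ⟨conv_of_wn (r := fun _ => δ) (fun _ => hδ)
    (ne_top_of_le_ne_top h1 (wn_subst_le (fun _ => hδ) hS h3 h1)), ?_⟩
  have h4 : ∀ᶠ z in 𝓝 (0 : σ → ℂ), ∀ i, g i z = ev z (G i) :=
    eventually_all.mpr fun i => (reps_iff.mp (hg i)).2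
  have h5 : Tendsto (fun z : σ → ℂ => fun i => g i z) (𝓝 0) (𝓝 0) := by
    rw [tendsto_pi_nhds]
    intro i
    have h6 : Tendsto (g i) (𝓝 0) (𝓝 (g i 0)) := (hg i).analyticAt.continuousAt
    rwa [← (hg i).constantCoeff, hG i] at h6
  filter_upwards [h4, h5.eventually hf'.2, eventually_le (r := fun _ => δ) fun _ => hδ]
    with z h7 h8 h9
  rw [h8, ev_subst hS h3 h1 h9]
  simp only [h7]

/-! ### Inverses -/

theorem exists_inverse {U : MvPowerSeries σ ℂ} (hU : Conv U) (h0 : constantCoeff U ≠ 0) :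
    ∃ V, Conv V ∧ U * V = 1 := by
  classical
  set c := constantCoeff U with hc
  let N : MvPowerSeries σ ℂ := 1 - C c⁻¹ * U
  have hN0 : constantCoeff N = 0 := by
    simp [N, ← hc, h0]
  have hN : Conv N := by
    have : N ∈ convRing σ :=
      (convRing σ).sub_mem (convRing σ).one_mem ((convRing σ).mul_mem (conv_C _) hU)
    exact this
  obtain ⟨ρ, hρ, h1⟩ := Conv.small hN hN0 (ε := 2⁻¹) (by positivity)
  have h2 := h1 (fun _ => ρ) fun _ => le_rfl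
  obtain ⟨H, hH, hH', -⟩ := exists_fix (r := fun _ => ρ) (fun _ => hρ)
    (LinearMap.mulLeft ℂ N) (fun F => by
      rw [LinearMap.mulLeft_apply]
      refine (wn_mul_le _ _ _).trans ?_
      rw [ENNReal.div_eq_inv_mul]
      gcongr
      refine h2.trans (le_of_eq ?_)
      rw [ENNReal.coe_inv (by norm_num)]
      simp) 1 (by simp)
  refine ⟨C c⁻¹ * H, Conv.mul (conv_C _) (conv_of_wn (fun _ => hρ)
    (ne_top_of_le_ne_top (by simp) hH')), ?_⟩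
  rw [LinearMap.mulLeft_apply] at hH
  rw [← hH]
  simp only [N]
  ring

end Pool.Agent.Lib.MP_af4f85_ag.An
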