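import Pool.Agent.Lib.MP_af4f85_ag.An.Division

/-!
# Weierstrass polynomials
-/

set_option autoImplicit false

open MvPowerSeries Filter Topology
open scoped ENNReal NNReal

namespace Pool.Agent.Lib.MP_af4f85_ag.An

variable {σ : Type*} [Fintype σ]

omit [Fintype σ] in
theorem eq_single_of_le {i : σ} {k : ℕ} {κ : σ →₀ ℕ} (h : κ ≤ Finsupp.single i k) :
    κ = Finsupp.single i (κ i) := by
  classical
  ext j
  by_cases hj : j = i
  · subst hj; simp
  · have := h j
    rw [Finsupp.single_eq_of_ne hj] at this ⊢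
    omega

omit [Fintype σ] in
theorem coeff_single_mul_eq_zero {i : σ} {k : ℕ} {P : MvPowerSeries σ ℂ}
    (h : ∀ b ≤ k, coeff (Finsupp.single i b) P = 0) (V : MvPowerSeries σ ℂ) :
    coeff (Finsupp.single i k) (V * P) = 0 := by
  classical
  rw [coeff_mul]
  refine Finset.sum_eq_zero fun p hp => ?_
  have h1 := Finset.HasAntidiagonal.mem_antidiagonal.mp hp
  have h2 : p.2 ≤ Finsupp.single i k := by
    rw [← h1]
    exact le_add_self
  have h3 : p.2 i ≤ k := by
    have := h2 i
    simpa using this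
  rw [eq_single_of_le h2, h _ h3, mul_zero]

theorem eq_sum_range {i : σ} {d : ℕ} {R : MvPowerSeries σ ℂ}
    (hR : ∀ ν, coeff ν R ≠ 0 → ν i < d) :
    R = ∑ k ∈ Finset.range d, slice {i} (Finsupp.single i k) R * X i ^ k := by
  classical
  have h1 := eq_sum_slice (I := {i}) (K := fun _ => d) (R := R) (fun ν hν j hj => by
    rw [Finset.mem_singleton] at hj
    subst hj
    exact hR ν hν)
  refine h1.trans ?_
  refine Finset.sum_bij' (fun α _ => α i) (fun k _ => Finsupp.single i k) ?_ ?_ ?_ ?_ ?_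
  · intro α hα
    rw [Finset.mem_range]
    exact (mem_box.mp hα).1 i (Finset.mem_singleton_self i)
  · intro k hk
    rw [Finset.mem_range] at hk
    rw [mem_box]
    refine ⟨fun j hj => ?_, fun j hj => ?_⟩
    · rw [Finset.mem_singleton] at hj
      subst hj
      simpa using hk
    · rw [Finset.mem_singleton] at hj
      rw [Finsupp.single_eq_of_ne hj]
  · intro α hα
    ext j
    by_cases hj : j = i
    · subst hj; simp
    · rw [Finsupp.single_eq_of_ne hj]
      exact ((mem_box.mp hα).2 j (by rwa [Finset.mem_singleton])).symm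
  · intro k _
    simp
  · intro α hα
    have h2 : Finsupp.single i (α i) = α := by
      ext j
      by_cases hj : j = i
      · subst hj; simp
      · rw [Finsupp.single_eq_of_ne hj]
        exact ((mem_box.mp hα).2 j (by rwa [Finset.mem_singleton])).symm
    rw [X_pow_eq_monomial, h2]

omit [Fintype σ] in
theorem inverse_mem_dep {S : Set σ} {U V : MvPowerSeries σ ℂ} (hU : U ∈ dep S)
    (h0 : constantCoeff U ≠ 0) (hUV : U * V = 1) : V ∈ dep S := by
  classical
  have key : ∀ (n : ℕ) (ν : σ →₀ ℕ), ν.degree = n → coeff ν V ≠ 0 → ∀ i ∉ S, ν i = 0 := by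
    intro n
    induction n using Nat.strong_induction_on with
    | _ n ih =>
      intro ν hn hν i hi
      by_contra hνi
      have h1 : coeff ν (U * V) = coeff 0 U * coeff ν V := by
        rw [coeff_mul, Finset.sum_eq_single (0, ν)]
        · intro p hp hp'
          have h2 := Finset.HasAntidiagonal.mem_antidiagonal.mp hp
          by_contra h3
          have h4 : coeff p.1 U ≠ 0 := left_ne_zero_of_mul h3
          have h5 : coeff p.2 V ≠ 0 := right_ne_zero_of_mul h3
          have h6 : p.1 ≠ 0 := by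
            intro h7
            rw [h7, zero_add] at h2
            exact hp' (Prod.ext h7 h2)
          have h7 : p.1.degree ≠ 0 := by rwa [Ne, Finsupp.degree_eq_zero_iff]
          have h8 : p.1.degree + p.2.degree = n := by rw [← map_add, h2, hn]
          have h9 := ih p.2.degree (by omega) p.2 rfl h5 i hi
          have h10 := hU p.1 h4 i hi
          apply hνi
          rw [← h2, Finsupp.add_apply, h9, h10]
        · intro h2
          exact absurd (Finset.HasAntidiagonal.mem_antidiagonal.mpr (by simp)) h2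
      rw [hUV, coeff_one, if_neg (by rintro rfl; exact hνi rfl)] at h1
      rcases mul_eq_zero.mp h1.symm with h2 | h2
      · exact h0 (by simpa using h2)
      · exact hν h2
  exact fun ν hν => key _ ν rfl hν

/-- Small weights for series without pure powers of `X_i`. -/
theorem exists_weights {ι : Type*} (s : Finset ι) {i : σ} {P : ι → MvPowerSeries σ ℂ}
    (hP : ∀ k ∈ s, Conv (P k)) (hpf : ∀ k ∈ s, ∀ m, coeff (Finsupp.single i m) (P k) = 0)
    (d : ℕ) {δ : ℝ≥0} (hδ : 0 < δ) :
    ∃ r : σ → ℝ≥0, (∀ j, 0 < r j ∧ r j ≤ δ) ∧ ∑ k ∈ s, wn r (P k) ≤ 2⁻¹ * (r i : ℝ≥0∞) ^ d := by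
  classical
  obtain ⟨ρ₀, hρ₀, h0⟩ : ∃ ρ₀ : ℝ≥0, 0 < ρ₀ ∧ ∀ k ∈ s, ∀ r : σ → ℝ≥0, (∀ i, r i ≤ ρ₀) →
      wn r (P k) ≠ ⊤ := by
    clear hpf
    induction s using Finset.induction_on with
    | empty => exact ⟨1, one_pos, by simp⟩
    | insert k s hk ih =>
      obtain ⟨ρ₁, h1, h1'⟩ := ih fun j hj => hP j (Finset.mem_insert_of_mem hj)
      obtain ⟨ρ₂, h2, h2'⟩ := Conv.eventually (hP k (Finset.mem_insert_self k s))
      refine ⟨min ρ₁ ρ₂, lt_min h1 h2, fun j hj r hr => ?_⟩
      rcases Finset.mem_insert.mp hj with rfl | hj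
      · exact h2' r fun i => (hr i).trans (min_le_right _ _)
      · exact h1' j hj r fun i => (hr i).trans (min_le_left _ _)
  set ρ := min ρ₀ δ with hρ
  have hρ0 : 0 < ρ := lt_min hρ₀ hδ
  have h1 : ∑ k ∈ s, wn (fun _ => ρ) (P k) ≠ ⊤ :=
    ENNReal.sum_ne_top.mpr fun k hk => h0 k hk (fun _ => ρ) fun _ => min_le_left _ _
  obtain ⟨C, hC⟩ : ∃ C : ℝ≥0, (C : ℝ≥0∞) = ∑ k ∈ s, wn (fun _ => ρ) (P k) :=
    ⟨_, ENNReal.coe_toNNReal h1⟩
  set t : ℝ≥0 := min 1 (ρ ^ d / (2 * (C + 1))) with ht
  have ht0 : 0 < t := lt_min one_pos (by positivity)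
  have ht1 : t ≤ 1 := min_le_left _ _
  have htC : t * C ≤ ρ ^ d / 2 := by
    calc t * C ≤ ρ ^ d / (2 * (C + 1)) * (C + 1) := by
          gcongr
          · exact min_le_right _ _
          · exact le_self_add
      _ = ρ ^ d / 2 := by field_simp
  have hr : ∀ j, (if j = i then ρ else t * ρ) ≤ ρ := by
    intro j
    split_ifs
    · exact le_rfl
    · exact mul_le_of_le_one_left zero_le ht1
  refine ⟨fun j => if j = i then ρ else t * ρ, fun j => ⟨?_, (hr j).trans (min_le_right _ _)⟩, ?_⟩
  · dsimp only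
    split_ifs <;> positivity
  · have h2 : ∀ k ∈ s, wn (fun j => if j = i then ρ else t * ρ) (P k) ≤
        t * wn (fun _ => ρ) (P k) := by
      intro k hk
      refine wn_le_of_mon_le fun ν hν => ?_
      obtain ⟨j, hji, hj⟩ : ∃ j, j ≠ i ∧ ν j ≠ 0 := by
        by_contra h3
        push Not at h3
        refine hν ?_
        have h4 : ν = Finsupp.single i (ν i) := by
          ext j
          by_cases hj : j = i
          · subst hj; simp
          · rw [Finsupp.single_eq_of_ne hj, h3 j hj]
        rw [h4]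
        exact hpf k hk _
      unfold mon
      rw [← Finset.mul_prod_erase _ _ (Finset.mem_univ j),
        ← Finset.mul_prod_erase _ (fun _ => ρ ^ ν _) (Finset.mem_univ j), ← mul_assoc]
      refine mul_le_mul' ?_ (Finset.prod_le_prod' fun l _ => pow_le_pow_left' (hr l) _)
      beta_reduce
      rw [if_neg hji, mul_pow]
      gcongr
      exact pow_le_of_le_one zero_le ht1 hj
    beta_reduce
    rw [if_pos rfl]
    refine (Finset.sum_le_sum h2).trans ?_
    rw [← Finset.mul_sum, ← hC, ← ENNReal.coe_mul]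
    calc ((t * C : ℝ≥0) : ℝ≥0∞) ≤ ((ρ ^ d / 2 : ℝ≥0) : ℝ≥0∞) := by exact_mod_cast htC
      _ = 2⁻¹ * (ρ : ℝ≥0∞) ^ d := by
          rw [div_eq_inv_mul, ENNReal.coe_mul, ENNReal.coe_pow, ENNReal.coe_inv (by norm_num)]
          rfl

theorem exists_weierstrass {S : Set σ} {i : σ} (hi : i ∈ S) {f : MvPowerSeries σ ℂ}
    (hf : Conv f) (hfS : f ∈ dep S) {d : ℕ} (hlow : ∀ k < d, coeff (Finsupp.single i k) f = 0)
    (hd : coeff (Finsupp.single i d) f ≠ 0) :
    ∃ (R q : MvPowerSeries σ ℂ), Conv R ∧ R ∈ dep S ∧ (∀ ν, coeff ν R ≠ 0 → ν i < d) ∧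
      (∀ k, coeff (Finsupp.single i k) R = 0) ∧ X i ^ d - R = q * f := by
  classical
  obtain ⟨ρ, hρ, hfρ⟩ := Conv.exists_wn hf
  set U := tau {i} (fun _ => d) i f with hU
  set N := rem {i} (fun _ => d) f with hN
  have hfeq : f = N + U * X i ^ d := by
    have := split_eq {i} (fun _ => d) f
    simpa using this
  have hNconv : Conv N :=
    conv_of_wn (fun _ => hρ) (ne_top_of_le_ne_top hfρ (wn_rem_le _ _ _ f))
  have hUconv : Conv U := by
    refine conv_of_wn (fun _ => hρ) fun h => ?_
    have h1 := wn_tau_le {i} (fun _ => d) (fun _ => ρ) i f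
    rw [h, ENNReal.top_mul (by positivity)] at h1
    exact hfρ (top_le_iff.mp h1)
  have hpick : ∀ k, d ≤ k → pick {i} (fun _ => d) (Finsupp.single i k) = some i := by
    intro k hk
    cases h1 : pick {i} (fun _ => d) (Finsupp.single i k) with
    | none =>
      have := pick_eq_none h1 (Finset.mem_singleton_self i)
      simp at this
      omega
    | some j =>
      have := (pick_eq_some h1).1
      rw [Finset.mem_singleton] at this
      rw [this]
  have hU0 : constantCoeff U ≠ 0 := by
    rw [← coeff_zero_eq_constantCoeff_apply, hU, coeff_tau, zero_add, if_pos (hpick d le_rfl)]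
    exact hd
  obtain ⟨V, hV, hUV⟩ := exists_inverse hUconv hU0
  set P := -(V * N) with hP
  have hPconv : Conv P := (convRing σ).neg_mem ((convRing σ).mul_mem hV hNconv)
  have hNpf : ∀ k, coeff (Finsupp.single i k) N = 0 := by
    intro k
    rw [hN, coeff_rem]
    split_ifs with h1
    · have := pick_eq_none h1 (Finset.mem_singleton_self i)
      exact hlow k (by simpa using this)
    · rfl
  have hPpf : ∀ k, coeff (Finsupp.single i k) P = 0 := by
    intro k
    rw [hP, map_neg, coeff_single_mul_eq_zero (fun b _ => hNpf b) V, neg_zero]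
  have hVf : V * f = X i ^ d - P := by
    rw [hfeq, hP, mul_add, ← mul_assoc V U, mul_comm V U, hUV]
    ring
  have hUS : U ∈ dep S := tau_mem_dep _ _ hfS i
  have hNS : N ∈ dep S := rem_mem_dep _ _ hfS
  have hVS : V ∈ dep S := inverse_mem_dep hUS hU0 hUV
  have hPS : P ∈ dep S := (dep S).neg_mem ((dep S).mul_mem hVS hNS)
  obtain ⟨r, hr, hrP⟩ := exists_weights {()} (P := fun _ => P) (fun _ _ => hPconv)
    (fun _ _ => hPpf) d (δ := 1) one_pos
  rw [Finset.sum_singleton] at hrP
  obtain ⟨R, q, hG, hRtop, hRS, -, hRlow⟩ := exists_division {i} (fun _ => d) (fun _ => P)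
    (r := r) (fun j => (hr j).1) (by
      rw [Finset.sum_singleton]
      exact ENNReal.div_le_of_le_mul hrP) (S := S) (fun _ _ => hPS)
    (G := X i ^ d) ((B r).pow_mem (X_mem_B r i) d) ((dep S).pow_mem (X_mem_dep hi) d)
  rw [Finset.sum_singleton] at hG
  have hRlow' : ∀ ν, coeff ν R ≠ 0 → ν i < d :=
    fun ν hν => hRlow ν hν i (Finset.mem_singleton_self i)
  refine ⟨R, q i * V, conv_of_wn (fun j => (hr j).1) hRtop, hRS, hRlow', fun k => ?_, ?_⟩
  · by_contra hk0
    have hk : k < d := by simpa using hRlow' _ hk0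
    apply hk0
    have h1 : R = X i ^ d - q i * (X i ^ d - P) := by
      rw [eq_sub_iff_add_eq]
      exact hG.symm
    have h2 : ∀ b ≤ k, coeff (Finsupp.single i b) (X i ^ d - P) = 0 := by
      intro b hb
      rw [map_sub, hPpf, sub_zero, X_pow_eq_monomial, coeff_monomial_ne]
      intro h3
      have := congrArg (fun ν => ν i) h3
      simp at this
      omega
    rw [h1, map_sub, coeff_single_mul_eq_zero h2, sub_zero, X_pow_eq_monomial, coeff_monomial_ne]
    intro h3
    have := congrArg (fun ν => ν i) h3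
    simp at this
    omega
  · rw [mul_assoc, hVf]
    nth_rewrite 1 [hG]
    ring

end Pool.Agent.Lib.MP_af4f85_ag.An
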